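import Mathlib
import Pool.Agent.H319R2.Basic

set_option autoImplicit false

/-!
# Words of branches of the 3x+1 map
-/

open Finset

namespace Pool.Agent.J6H87.CY

open Pool.Agent.H319R2 (T od)

/-- the branches `(3q+1)/2` and `q/2` -/
def branch (b : Bool) (q : ℚ) : ℚ := if b then (3 * q + 1) / 2 else q / 2

/-- composition of branches, the first letter is applied first -/
def path (w : List Bool) (q : ℚ) : ℚ := w.foldl (fun r b => branch b r) q

/-- the parity word -/
def word (x : ℤ) (n : ℕ) : List Bool := (List.range n).map fun i => decide (T^[i] x % 2 = 1)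

/-- the constant term -/
def Rr (x : ℤ) : ℕ → ℕ
  | 0 => 0
  | n + 1 => if T^[n] x % 2 = 1 then 3 * Rr x n + 2 ^ n else Rr x n

lemma word_succ (x : ℤ) (n : ℕ) : word x (n + 1) = word x n ++ [decide (T^[n] x % 2 = 1)] := by
  unfold word
  rw [List.range_succ, List.map_append]
  rfl

lemma path_word_succ (x : ℤ) (n : ℕ) (q : ℚ) :
    path (word x (n + 1)) q = branch (decide (T^[n] x % 2 = 1)) (path (word x n) q) := by
  rw [word_succ]
  unfold path
  rw [List.foldl_append]
  rfl

lemma path_word (x : ℤ) (q : ℚ) (n : ℕ) :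
    (2 : ℚ) ^ n * path (word x n) q = 3 ^ (od n x) * q + Rr x n := by
  induction n with
  | zero => simp [path, word, Rr, Pool.Agent.H319R2.od_zero]
  | succ n ih =>
    rw [path_word_succ, Rr]
    rcases Pool.Agent.H319R2.par (T^[n] x) with h | h
    · have h' : ¬ (T^[n] x % 2 = 1) := by omega
      rw [Pool.Agent.H319R2.od_succ_even h, if_neg h']
      simp only [h', decide_false, branch, Bool.false_eq_true, if_false]
      rw [← ih, pow_succ]
      ring
    · rw [Pool.Agent.H319R2.od_succ_odd h, if_pos h]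
      simp only [h, decide_true, branch, if_true]
      push_cast
      rw [pow_succ, pow_succ]
      linear_combination (3 : ℚ) * ih

lemma path_word_self (x : ℤ) (n : ℕ) : path (word x n) x = T^[n] x := by
  induction n with
  | zero => simp [path, word]
  | succ n ih =>
    rw [path_word_succ, ih, Function.iterate_succ_apply']
    rcases Pool.Agent.H319R2.par (T^[n] x) with h | h
    · have h' : ¬ (T^[n] x % 2 = 1) := by omega
      simp only [h', decide_false, branch, Bool.false_eq_true, if_false]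
      have h1 : (2 : ℚ) * ((T (T^[n] x) : ℤ) : ℚ) = ((T^[n] x : ℤ) : ℚ) := by
        exact_mod_cast Pool.Agent.H319R2.T_even h
      linarith
    · simp only [h, decide_true, branch, if_true]
      have h1 : (2 : ℚ) * ((T (T^[n] x) : ℤ) : ℚ) = 3 * ((T^[n] x : ℤ) : ℚ) + 1 := by
        exact_mod_cast Pool.Agent.H319R2.T_odd h
      linarith

/-- the basic formula -/
lemma iter_formula (x : ℤ) (n : ℕ) :
    (2 : ℚ) ^ n * ((T^[n] x : ℤ) : ℚ) = 3 ^ (od n x) * (x : ℚ) + Rr x n := by
  rw [← path_word_self, path_word]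

lemma iter_formula_int (x : ℤ) (n : ℕ) :
    (2 : ℤ) ^ n * T^[n] x = 3 ^ (od n x) * x + Rr x n := by
  exact_mod_cast iter_formula x n

lemma Rr_add_le (x : ℤ) (n : ℕ) : Rr x n + 2 ^ n ≤ 3 ^ n := by
  induction n with
  | zero => simp [Rr]
  | succ n ih =>
    have h3 : 0 < 2 ^ n := by positivity
    have h4 : 2 ^ (n + 1) = 2 * 2 ^ n := by ring
    have h5 : 3 ^ (n + 1) = 3 * 3 ^ n := by ring
    rw [Rr, h4, h5]
    generalize 2 ^ n = A at *
    generalize 3 ^ n = B at *
    split_ifs <;> omega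

lemma Rr_lt (x : ℤ) (n : ℕ) : Rr x n < 3 ^ n := by
  have h := Rr_add_le x n
  have h3 : 0 < 2 ^ n := by positivity
  omega

lemma Rr_mono (x : ℤ) (n : ℕ) : Rr x n ≤ Rr x (n + 1) := by
  have h3 : 0 < 2 ^ n := by positivity
  rw [Rr]
  generalize 2 ^ n = A at *
  split_ifs <;> omega

lemma Rr_pos {x : ℤ} {n : ℕ} (h : ∃ j < n, T^[j] x % 2 = 1) : 0 < Rr x n := by
  induction n with
  | zero => obtain ⟨j, hj, -⟩ := h; omega
  | succ n ih =>
    obtain ⟨j, hj, hodd⟩ := h
    rcases Nat.lt_or_ge j n with hlt | hge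
    · exact lt_of_lt_of_le (ih ⟨j, hlt, hodd⟩) (Rr_mono x n)
    · have e : j = n := by omega
      subst e
      rw [Rr, if_pos hodd]
      positivity

lemma od_add (m n : ℕ) (x : ℤ) : od (m + n) x = od m x + od n (T^[m] x) := by
  induction n with
  | zero => simp [Pool.Agent.H319R2.od_zero]
  | succ n ih =>
    have e : T^[m + n] x = T^[n] (T^[m] x) := by
      rw [Nat.add_comm, Function.iterate_add_apply]
    rcases Pool.Agent.H319R2.par (T^[m + n] x) with h | h
    · rw [← add_assoc, Pool.Agent.H319R2.od_succ_even h, ih, Pool.Agent.H319R2.od_succ_even (by rw [← e]; exact h)]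
    · rw [← add_assoc, Pool.Agent.H319R2.od_succ_odd h, ih, Pool.Agent.H319R2.od_succ_odd (by rw [← e]; exact h)]
      ring

lemma mem_word {x : ℤ} {n : ℕ} {b : Bool} :
    b ∈ word x n ↔ ∃ j < n, decide (T^[j] x % 2 = 1) = b := by
  unfold word
  simp [List.mem_map]

lemma true_mem_word {x : ℤ} {n : ℕ} (h : ∃ j < n, T^[j] x % 2 = 1) : true ∈ word x n := by
  obtain ⟨j, hj, h1⟩ := h
  exact mem_word.2 ⟨j, hj, by simp [h1]⟩

lemma false_mem_word {x : ℤ} {n : ℕ} (h : ∃ j < n, T^[j] x % 2 = 0) : false ∈ word x n := by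
  obtain ⟨j, hj, h1⟩ := h
  exact mem_word.2 ⟨j, hj, by simp [h1]⟩

/-- an integer whose parity word fixes `ξ` is 2-adically close to `ξ` -/
lemma shadow_val {y : ℤ} {n : ℕ} (hn : 1 ≤ n) {ξ : ℚ} (h : path (word y n) ξ = ξ)
    (hne : (y : ℚ) ≠ ξ) : (n : ℤ) ≤ padicValRat 2 ((y : ℚ) - ξ) := by
  have h1 := path_word y ξ n
  rw [h] at h1
  have h2 := iter_formula y n
  set D : ℤ := 2 ^ n - 3 ^ (od n y) with hD
  have hDodd : ¬ (2 : ℤ) ∣ D := by
    intro hdvd
    have h3 : (2 : ℤ) ∣ 2 ^ n := dvd_pow_self 2 (by omega)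
    have h4 : (2 : ℤ) ∣ 3 ^ (od n y) := by
      have := dvd_sub h3 hdvd
      rwa [hD, sub_sub_cancel] at this
    have h5 := Int.prime_two.dvd_of_dvd_pow h4
    norm_num at h5
  have hD0 : D ≠ 0 := fun h => hDodd (by rw [h]; exact dvd_zero _)
  have hDq : (D : ℚ) ≠ 0 := by exact_mod_cast hD0
  have e : (D : ℚ) * ((y : ℚ) - ξ) = 2 ^ n * (((y - T^[n] y : ℤ)) : ℚ) := by
    rw [hD]
    push_cast
    linear_combination h2 - h1
  have hne' : ((y : ℚ) - ξ) ≠ 0 := sub_ne_zero.2 hne
  have hyT : ((y - T^[n] y : ℤ) : ℚ) ≠ 0 := by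
    intro h0
    rw [h0, mul_zero] at e
    exact (mul_ne_zero hDq hne') e
  have e2 := congrArg (padicValRat 2) e
  rw [padicValRat.mul hDq hne', padicValRat.mul (pow_ne_zero _ two_ne_zero) hyT,
    padicValRat.pow, padicValRat.of_int, padicValRat.of_int] at e2
  have h6 : padicValInt 2 D = 0 := padicValInt.eq_zero_of_not_dvd hDodd
  have h7 : padicValRat 2 (2 : ℚ) = 1 := by
    have := padicValRat.self (p := 2) one_lt_two
    exact_mod_cast this
  rw [h6, h7] at e2
  push_cast at e2
  have h8 : (0 : ℤ) ≤ padicValInt 2 (y - T^[n] y) := Int.natCast_nonneg _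
  linarith

end Pool.Agent.J6H87.CY
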