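import Mathlib
import Pool.Agent.J6H87.CY.WD

set_option autoImplicit false

/-!
# Common divisors of the values of a polynomial at two near terms of a trajectory
-/

open Finset Polynomial

namespace Pool.Agent.J6H87.CY

open Pool.Agent.H319R2 (T od)

/-- the numerator of `f ((a X + r) / c)` -/
noncomputable def subst (f : ℤ[X]) (a r c : ℤ) : ℤ[X] :=
  ∑ k ∈ range (f.natDegree + 1), C (f.coeff k * c ^ (f.natDegree - k)) * (C a * X + C r) ^ k

lemma aeval_subst {A : Type*} [CommRing A] (f : ℤ[X]) (a r c : ℤ) (x y : A)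
    (h : (c : A) * y = a * x + r) :
    aeval x (subst f a r c) = (c : A) ^ f.natDegree * aeval y f := by
  rw [aeval_eq_sum_range (p := f), subst, map_sum, mul_sum]
  apply sum_congr rfl
  intro k hk
  rw [mem_range] at hk
  have e1 : aeval x (C (f.coeff k * c ^ (f.natDegree - k)) * (C a * X + C r : ℤ[X]) ^ k) =
      (f.coeff k : A) * (c : A) ^ (f.natDegree - k) * ((a : A) * x + r) ^ k := by
    simp
  rw [e1, ← h, mul_pow, zsmul_eq_mul]
  have e : f.natDegree = (f.natDegree - k) + k := by omega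
  calc (f.coeff k : A) * (c : A) ^ (f.natDegree - k) * ((c : A) ^ k * y ^ k)
      = (f.coeff k : A) * ((c : A) ^ (f.natDegree - k) * (c : A) ^ k) * y ^ k := by ring
    _ = (f.coeff k : A) * (c : A) ^ f.natDegree * y ^ k := by rw [← pow_add, ← e]
    _ = _ := by ring

lemma natDegree_subst_le (f : ℤ[X]) (a r c : ℤ) : (subst f a r c).natDegree ≤ f.natDegree := by
  apply natDegree_sum_le_of_forall_le
  intro k hk
  rw [mem_range] at hk
  refine (natDegree_C_mul_le _ _).trans ?_
  refine (natDegree_pow_le).trans ?_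
  have h1 : (C a * X + C r : ℤ[X]).natDegree ≤ 1 := natDegree_linear_le
  calc k * (C a * X + C r : ℤ[X]).natDegree ≤ k * 1 := Nat.mul_le_mul_left _ h1
    _ ≤ f.natDegree := by omega

lemma coeff_pow_le (a r : ℤ) (ha : 0 ≤ a) (hr : 0 ≤ r) (k : ℕ) : ∀ l,
    0 ≤ ((C a * X + C r : ℤ[X]) ^ k).coeff l ∧ ((C a * X + C r : ℤ[X]) ^ k).coeff l ≤ (a + r) ^ k := by
  induction k with
  | zero =>
    intro l
    rw [pow_zero, pow_zero, coeff_one]
    split_ifs <;> simp
  | succ k ih =>
    intro l
    have e : ((C a * X + C r : ℤ[X]) ^ (k + 1)) =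
        C a * ((C a * X + C r) ^ k * X) + C r * (C a * X + C r) ^ k := by ring
    rw [e, coeff_add, coeff_C_mul, coeff_C_mul, pow_succ]
    cases l with
    | zero =>
      rw [coeff_mul_X_zero]
      obtain ⟨h1, h2⟩ := ih 0
      constructor
      · positivity
      · nlinarith [mul_nonneg ha (pow_nonneg (add_nonneg ha hr) k)]
    | succ l =>
      rw [coeff_mul_X]
      obtain ⟨h1, h2⟩ := ih l
      obtain ⟨h3, h4⟩ := ih (l + 1)
      constructor
      · positivity
      · nlinarith [mul_le_mul_of_nonneg_left h2 ha, mul_le_mul_of_nonneg_left h4 hr]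

/-- the length of a polynomial -/
def len1 (f : ℤ[X]) : ℕ := ∑ k ∈ range (f.natDegree + 1), (f.coeff k).natAbs

lemma coeff_le_len1 (f : ℤ[X]) (k : ℕ) : |f.coeff k| ≤ len1 f := by
  by_cases hk : k ∈ range (f.natDegree + 1)
  · have h : (f.coeff k).natAbs ≤ len1 f :=
      single_le_sum (f := fun k => (f.coeff k).natAbs) (fun _ _ => Nat.zero_le _) hk
    rw [Int.abs_eq_natAbs]
    exact_mod_cast h
  · rw [mem_range] at hk
    rw [coeff_eq_zero_of_natDegree_lt (by omega)]
    simp

lemma one_le_len1 {f : ℤ[X]} (hf : f ≠ 0) : 1 ≤ len1 f := by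
  have h := coeff_le_len1 f f.natDegree
  have h1 : f.coeff f.natDegree ≠ 0 := by
    rw [coeff_natDegree]; exact leadingCoeff_ne_zero.2 hf
  have h2 := Int.one_le_abs h1
  have h3 : (1 : ℤ) ≤ len1 f := h2.trans h
  exact_mod_cast h3

lemma coeff_subst_le (f : ℤ[X]) (a r c : ℤ) (ha : 0 ≤ a) (hr : 0 ≤ r) (hc : 1 ≤ c) (l : ℕ) :
    |(subst f a r c).coeff l| ≤ len1 f * (c + (a + r)) ^ f.natDegree := by
  unfold subst len1
  rw [finsetSum_coeff, Nat.cast_sum, sum_mul]
  refine (abs_sum_le_sum_abs _ _).trans (sum_le_sum ?_)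
  intro k hk
  rw [mem_range] at hk
  rw [coeff_C_mul, abs_mul, abs_mul, abs_pow, Int.abs_eq_natAbs (f.coeff k), mul_assoc]
  apply mul_le_mul_of_nonneg_left _ (by positivity)
  obtain ⟨h1, h2⟩ := coeff_pow_le a r ha hr k l
  rw [abs_of_nonneg h1, abs_of_pos (by omega : 0 < c)]
  have e : f.natDegree = (f.natDegree - k) + k := by omega
  calc c ^ (f.natDegree - k) * ((C a * X + C r : ℤ[X]) ^ k).coeff l
      ≤ (c + (a + r)) ^ (f.natDegree - k) * (c + (a + r)) ^ k := by
        apply mul_le_mul _ _ h1 (by positivity)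
        · exact pow_le_pow_left₀ (by omega) (by omega) _
        · exact h2.trans (pow_le_pow_left₀ (by omega) (by omega) _)
    _ = (c + (a + r)) ^ f.natDegree := by rw [← pow_add, ← e]

/-- the bound for the resultant -/
def RB (f : ℤ[X]) : ℕ :=
  (f.natDegree + f.natDegree).factorial * (len1 f * 3 ^ f.natDegree) ^ (f.natDegree + f.natDegree)

lemma res_le {f : ℤ[X]} (hf : f ≠ 0) (n : ℕ) (a r c : ℤ) (ha : 0 ≤ a) (hr : 0 ≤ r) (hc : 1 ≤ c)
    (hsum : c + (a + r) ≤ 3 ^ (n + 1)) :
    |resultant f (subst f a r c) f.natDegree f.natDegree| ≤ (RB f : ℤ) ^ (n + 1) := by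
  set d := f.natDegree with hd
  set H : ℤ := len1 f * (3 ^ (n + 1)) ^ d with hH
  have hL : (1 : ℤ) ≤ len1 f := by exact_mod_cast one_le_len1 hf
  have h3 : (1 : ℤ) ≤ (3 ^ (n + 1)) ^ d := one_le_pow₀ (one_le_pow₀ (by norm_num))
  have hf1 : ∀ k, |f.coeff k| ≤ H := by
    intro k
    refine (coeff_le_len1 f k).trans ?_
    rw [hH]
    exact le_mul_of_one_le_right (by omega) h3
  have hg1 : ∀ k, |(subst f a r c).coeff k| ≤ H := by
    intro k
    refine (coeff_subst_le f a r c ha hr hc k).trans ?_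
    rw [hH]
    exact mul_le_mul_of_nonneg_left (pow_le_pow_left₀ (by omega) hsum _) (by omega)
  have hH0 : 0 ≤ H := (abs_nonneg _).trans (hf1 0)
  have hent : ∀ i j, AbsoluteValue.abs (sylvester f (subst f a r c) d d i j) ≤ H := by
    intro i j
    show |sylvester f (subst f a r c) d d i j| ≤ H
    unfold sylvester
    rw [Matrix.of_apply]
    refine Fin.addCases (fun j₁ => ?_) (fun j₁ => ?_) j
    · rw [Fin.addCases_left]
      split_ifs
      · exact hg1 _
      · simpa using hH0
    · rw [Fin.addCases_right]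
      split_ifs
      · exact hf1 _
      · simpa using hH0
  have h := Matrix.det_le hent
  rw [Fintype.card_fin] at h
  have h' : |resultant f (subst f a r c) d d| ≤ ((d + d).factorial : ℤ) * H ^ (d + d) := by
    have e : resultant f (subst f a r c) d d = (sylvester f (subst f a r c) d d).det := rfl
    rw [e]
    have h2 : AbsoluteValue.abs (sylvester f (subst f a r c) d d).det =
      |(sylvester f (subst f a r c) d d).det| := rfl
    rw [← h2]
    simpa [nsmul_eq_mul] using h
  refine h'.trans ?_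
  rw [hH, RB]
  push_cast
  rw [mul_pow _ _ (n + 1)]
  apply mul_le_mul
  · have hone : (1 : ℤ) ≤ ((d + d).factorial : ℤ) := by exact_mod_cast Nat.succ_le_of_lt (Nat.factorial_pos _)
    calc ((d + d).factorial : ℤ) = ((d + d).factorial : ℤ) ^ 1 := (pow_one _).symm
      _ ≤ _ := pow_le_pow_right₀ hone (by omega)
  · rw [← pow_mul _ (f.natDegree + f.natDegree) (n + 1), ← hd, mul_comm (d + d) (n + 1),
      pow_mul _ (n + 1) (d + d)]
    apply pow_le_pow_left₀ (by positivity)
    rw [mul_pow, ← pow_mul, ← pow_mul, mul_comm d (n + 1)]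
    apply mul_le_mul_of_nonneg_right _ (by positivity)
    calc (len1 f : ℤ) = (len1 f : ℤ) ^ 1 := (pow_one _).symm
      _ ≤ _ := pow_le_pow_right₀ hL (by omega)
  · positivity
  · positivity

end Pool.Agent.J6H87.CY
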