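import Mathlib
import Pool.Agent.J6H87.CY.GA

set_option autoImplicit false

/-!
# Common divisors of the values of a polynomial at two near terms of a trajectory, II
-/

open Finset Polynomial

namespace Pool.Agent.J6H87.CY

open Pool.Agent.H319R2 (T od)

lemma Rr_add (x : ℤ) (m n : ℕ) :
    Rr x (m + n) = 3 ^ (od n (T^[m] x)) * Rr x m + 2 ^ m * Rr (T^[m] x) n := by
  induction n with
  | zero => simp [Pool.Agent.H319R2.od_zero, Rr]
  | succ n ih =>
    have e : T^[n] (T^[m] x) = T^[m + n] x := by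
      rw [Nat.add_comm m n, Function.iterate_add_apply]
    rw [← add_assoc, Rr, Rr, e]
    rcases Pool.Agent.H319R2.par (T^[m + n] x) with h | h
    · have h' : ¬ (T^[m + n] x % 2 = 1) := by omega
      rw [if_neg h', if_neg h', Pool.Agent.H319R2.od_succ_even (by rw [e]; exact h), ih]
    · rw [if_pos h, if_pos h, Pool.Agent.H319R2.od_succ_odd (by rw [e]; exact h), ih]
      ring

/-- the constant -/
def B1 (f : ℤ[X]) : ℕ := len1 f * RB f

lemma one_le_RB {f : ℤ[X]} (hf : f ≠ 0) : 1 ≤ RB f := by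
  have h1 := one_le_len1 hf
  unfold RB
  apply Nat.one_le_iff_ne_zero.2
  positivity

lemma one_le_B1 {f : ℤ[X]} (hf : f ≠ 0) : 1 ≤ B1 f := by
  have h1 := one_le_len1 hf
  have h2 := one_le_RB hf
  unfold B1
  exact Nat.one_le_iff_ne_zero.2 (Nat.mul_ne_zero (by omega) (by omega))

lemma od_le' (n : ℕ) (x : ℤ) : od n x ≤ n := by
  induction n with
  | zero => simp [Pool.Agent.H319R2.od_zero]
  | succ n ih =>
    rcases Pool.Agent.H319R2.par (T^[n] x) with h | h
    · rw [Pool.Agent.H319R2.od_succ_even h]; omega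
    · rw [Pool.Agent.H319R2.od_succ_odd h]; omega

/-- two roots of `f` correspond to each other under the composition of branches along `n` steps -/
def Corr (f : ℤ[X]) (x : ℤ) (n : ℕ) (ρ ρ' : ℂ) : Prop :=
  aeval ρ f = 0 ∧ aeval ρ' f = 0 ∧ (2 : ℂ) ^ n * ρ' = 3 ^ (od n x) * ρ + Rr x n

/-- a common divisor of `f x` and `f (T^[n] x)` is small, unless two roots of `f` correspond to each
other -/
lemma pair {f : ℤ[X]} (hf : f ≠ 0) (x : ℤ) (n : ℕ) (g : ℕ) (h1 : (g : ℤ) ∣ f.eval x)
    (h2 : (g : ℤ) ∣ f.eval (T^[n] x)) :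
    (g : ℝ) ≤ (B1 f : ℝ) ^ (n + 1) ∨ ∃ ρ ρ' : ℂ, Corr f x n ρ ρ' := by
  have hB := one_le_RB hf
  have hL := one_le_len1 hf
  rcases Nat.eq_zero_or_pos f.natDegree with hd | hd
  · left
    have e : f = C (f.coeff 0) := eq_C_of_natDegree_eq_zero hd
    have h3 : f.eval x = f.coeff 0 := by rw [e]; simp
    have h4 : f.coeff 0 ≠ 0 := by
      intro h0
      apply hf
      rw [e, h0, C_0]
    rw [h3] at h1
    have h5 : (g : ℤ) ≤ |f.coeff 0| := Int.le_of_dvd (abs_pos.2 h4) ((dvd_abs _ _).2 h1)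
    have h6 : g ≤ len1 f := by
      have := h5.trans (coeff_le_len1 f 0)
      exact_mod_cast this
    have h7 : g ≤ B1 f := h6.trans (by unfold B1; exact Nat.le_mul_of_pos_right _ (by omega))
    have h8 : B1 f ≤ B1 f ^ (n + 1) := Nat.le_self_pow (by omega) _
    exact_mod_cast h7.trans h8
  · set a : ℤ := 3 ^ (od n x) with ha
    set r : ℤ := (Rr x n : ℤ) with hr
    set c : ℤ := 2 ^ n with hc
    have ha0 : 0 ≤ a := by positivity
    have hr0 : 0 ≤ r := by positivity
    have hc1 : 1 ≤ c := one_le_pow₀ (by norm_num)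
    have hsum : c + (a + r) ≤ 3 ^ (n + 1) := by
      have h3 : r + c ≤ 3 ^ n := by
        have := Rr_add_le x n
        rw [hr, hc]
        exact_mod_cast this
      have h4 : a ≤ 3 ^ n := pow_le_pow_right₀ (by norm_num) (od_le' n x)
      have h5 : (3 : ℤ) ^ (n + 1) = 3 * 3 ^ n := by ring
      have h6 : (0 : ℤ) < 3 ^ n := by positivity
      rw [h5]
      linarith
    have hT : c * T^[n] x = a * x + r := iter_formula_int x n
    obtain ⟨p, q, -, -, e⟩ := exists_mul_add_mul_eq_C_resultant f (subst f a r c)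
      (m := f.natDegree) (n := f.natDegree) le_rfl (natDegree_subst_le f a r c) (Or.inl (by omega))
    set res := resultant f (subst f a r c) f.natDegree f.natDegree with hres
    have e1 := congrArg (Polynomial.eval x) e
    rw [eval_add, eval_mul, eval_mul, eval_C] at e1
    have e2 : (subst f a r c).eval x = c ^ f.natDegree * f.eval (T^[n] x) := by
      have h3 := aeval_subst f a r c x (T^[n] x) (by simpa using hT)
      simpa [coe_aeval_eq_eval] using h3
    have hdvd : (g : ℤ) ∣ res := by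
      rw [← e1, e2]
      exact dvd_add (h1.mul_right _) ((h2.mul_left _).mul_right _)
    by_cases h0 : res = 0
    · right
      set φ := Int.castRingHom ℂ with hφ
      have hinj : Function.Injective φ := Int.cast_injective
      have hdeg : (f.map φ).natDegree = f.natDegree := natDegree_map_eq_of_injective hinj f
      have h3 := resultant_map_map (m := f.natDegree) (n := f.natDegree) f (subst f a r c) φ
      rw [← hres, h0, map_zero] at h3
      have h4 := resultant_eq_prod_eval (f.map φ) ((subst f a r c).map φ) f.natDegree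
        (natDegree_map_le.trans (natDegree_subst_le f a r c)) (IsAlgClosed.splits _)
      rw [hdeg, h3] at h4
      have hf' : f.map φ ≠ 0 := (Polynomial.map_ne_zero_iff hinj).2 hf
      have h5 : ((f.map φ).roots.map ((subst f a r c).map φ).eval).prod = 0 := by
        rcases mul_eq_zero.1 h4.symm with h6 | h6
        · exact absurd (eq_zero_of_pow_eq_zero h6) (leadingCoeff_ne_zero.2 hf')
        · exact h6
      rw [Multiset.prod_eq_zero_iff, Multiset.mem_map] at h5
      obtain ⟨ρ, hρ1, hρ2⟩ := h5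
      have hρ3 : aeval ρ f = 0 := by
        have := (mem_roots hf').1 hρ1
        rw [IsRoot.def, eval_map] at this
        rw [aeval_def]
        exact this
      have hρ4 : aeval ρ (subst f a r c) = 0 := by
        rw [aeval_def]
        rw [eval_map] at hρ2
        exact hρ2
      set ρ' : ℂ := ((a : ℂ) * ρ + r) / c with hρ'
      have hc0 : (c : ℂ) ≠ 0 := by
        have : c ≠ 0 := by omega
        exact_mod_cast this
      have h6 : (c : ℂ) * ρ' = a * ρ + r := by rw [hρ']; field_simp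
      have h7 := aeval_subst f a r c ρ ρ' h6
      rw [hρ4] at h7
      have h8 : aeval ρ' f = 0 := by
        rcases mul_eq_zero.1 h7.symm with h9 | h9
        · exact absurd (eq_zero_of_pow_eq_zero h9) hc0
        · exact h9
      refine ⟨ρ, ρ', hρ3, h8, ?_⟩
      rw [ha, hr, hc] at h6
      push_cast at h6
      exact h6
    · left
      have h3 : (g : ℤ) ≤ |res| := Int.le_of_dvd (abs_pos.2 h0) ((dvd_abs _ _).2 hdvd)
      have h4 := h3.trans (res_le hf n a r c ha0 hr0 hc1 hsum)
      have h5 : g ≤ RB f ^ (n + 1) := by exact_mod_cast h4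
      have h6 : RB f ^ (n + 1) ≤ B1 f ^ (n + 1) := Nat.pow_le_pow_left (by
        unfold B1; exact Nat.le_mul_of_pos_left _ (by omega)) _
      exact_mod_cast h5.trans h6

lemma Corr.comp {f : ℤ[X]} {x : ℤ} {m n : ℕ} {ρ ρ' : ℂ} (h1 : Corr f x m ρ ρ')
    (h2 : Corr f x (m + n) ρ ρ') : (2 : ℂ) ^ n * ρ' = 3 ^ (od n (T^[m] x)) * ρ' + Rr (T^[m] x) n := by
  obtain ⟨-, -, e1⟩ := h1
  obtain ⟨-, -, e2⟩ := h2
  rw [od_add, Rr_add, pow_add, pow_add] at e2
  push_cast at e2
  have h : (2 : ℂ) ^ m ≠ 0 := pow_ne_zero _ two_ne_zero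
  apply mul_left_cancel₀ h
  linear_combination e2 - (3 : ℂ) ^ (od n (T^[m] x)) * e1

/-- a root of `f` which is fixed by the composition of branches is rational -/
lemma fixed_rat {f : ℤ[X]} {y : ℤ} {n : ℕ} (hn : 1 ≤ n) {ρ : ℂ} (h0 : aeval ρ f = 0)
    (h : (2 : ℂ) ^ n * ρ = 3 ^ (od n y) * ρ + Rr y n) :
    ∃ ξ : ℚ, aeval ξ f = 0 ∧ path (word y n) ξ = ξ := by
  have hD : ((2 : ℤ) ^ n - 3 ^ (od n y)) ≠ 0 := by
    intro h1
    have h2 : (2 : ℤ) ∣ 3 ^ (od n y) := by
      rw [← sub_eq_zero.1 h1]; exact dvd_pow_self 2 (by omega)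
    have h5 := Int.prime_two.dvd_of_dvd_pow h2
    norm_num at h5
  have hDq : ((2 : ℚ) ^ n - 3 ^ (od n y)) ≠ 0 := by exact_mod_cast hD
  have hDc : ((2 : ℂ) ^ n - 3 ^ (od n y)) ≠ 0 := by exact_mod_cast hD
  set ξ : ℚ := Rr y n / ((2 : ℚ) ^ n - 3 ^ (od n y)) with hξ
  have e : ρ = (ξ : ℂ) := by
    rw [hξ]
    push_cast
    rw [eq_div_iff hDc]
    linear_combination h
  refine ⟨ξ, ?_, ?_⟩
  · rw [e] at h0
    have h1 : aeval (algebraMap ℚ ℂ ξ) f = 0 := by simpa using h0
    rw [aeval_algebraMap_apply] at h1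
    exact (map_eq_zero _).1 h1
  · have h2 : (2 : ℚ) ^ n * ξ = 3 ^ (od n y) * ξ + Rr y n := by
      rw [hξ]; field_simp; ring
    have h3 := path_word y ξ n
    rw [← h2] at h3
    exact mul_left_cancel₀ (pow_ne_zero _ two_ne_zero) h3

end Pool.Agent.J6H87.CY
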