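import Mathlib
import Pool.Agent.R343.SC3

set_option autoImplicit false

/-!
# Sets of integers which repel each other along the trajectories of the 3x+1 map

`Rep P K C`: among the terms of at least exponential size in the length of a piece of trajectory
there are at most `K` members of `P` which are pairwise separated by both parities. Almost all circuits
of almost all cycles contain no member of such a set.
-/

open Finset

namespace Pool.Agent.J6H87.CY

open Pool.Agent.H319R2 (T)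
open Pool.Agent.H547R3 (IsCycle)
open Pool.Agent.R343.SC

/-- both parities occur among `T^[j] x`, `a ≤ j < b` -/
def Mixed (x : ℤ) (a b : ℕ) : Prop :=
  (∃ j, a ≤ j ∧ j < b ∧ T^[j] x % 2 = 0) ∧ ∃ j, a ≤ j ∧ j < b ∧ T^[j] x % 2 = 1

lemma Mixed.lt {x : ℤ} {a b : ℕ} (h : Mixed x a b) : a < b := by
  obtain ⟨⟨j, h1, h2, -⟩, -⟩ := h
  omega

lemma Mixed.mono {x : ℤ} {a b a' b' : ℕ} (h : Mixed x a b) (ha : a' ≤ a) (hb : b ≤ b') :
    Mixed x a' b' := by
  obtain ⟨⟨j, h1, h2, h3⟩, ⟨i, h4, h5, h6⟩⟩ := h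
  exact ⟨⟨j, by omega, by omega, h3⟩, ⟨i, by omega, by omega, h6⟩⟩

/-- repulsion -/
def Rep (P : ℤ → Prop) (K : ℕ) (C : ℝ) : Prop :=
  ∀ (x : ℤ) (N : ℕ) (a : ℕ → ℕ),
    (∀ i ≤ K, a i ≤ N ∧ P (T^[a i] x) ∧ C * (N + 1) ≤ Real.log |((T^[a i] x : ℤ) : ℝ)|) →
    (∀ i < K, Mixed x (a i) (a (i + 1))) → False

/-- the local minima whose circuit contains a member of `P` -/
noncomputable def hit (P : ℤ → Prop) (Z : Finset ℤ) : Finset ℤ :=
  open Classical in (loc Z).filter fun y => ∃ j < ci y, P (T^[j] y)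

lemma abs_T_ge (x : ℤ) : |x| ≤ 2 * |T x| := by
  rcases Pool.Agent.H319R2.par x with h | h
  · have h1 := Pool.Agent.H319R2.T_even h
    rcases abs_cases x with ⟨h4, _⟩ | ⟨h4, _⟩ <;> rcases abs_cases (T x) with ⟨h5, _⟩ | ⟨h5, _⟩ <;> omega
  · have h1 := Pool.Agent.H319R2.T_odd h
    rcases abs_cases x with ⟨h4, _⟩ | ⟨h4, _⟩ <;> rcases abs_cases (T x) with ⟨h5, _⟩ | ⟨h5, _⟩ <;> omega

lemma log_T_ge (x : ℤ) (hx : x ≠ 0) : Real.log |(x : ℝ)| ≤ Real.log |((T x : ℤ) : ℝ)| + Real.log 2 := by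
  have h := abs_T_ge x
  have h0 : (0 : ℝ) < |(x : ℝ)| := abs_pos.2 (by exact_mod_cast hx)
  have h1 : |(x : ℝ)| ≤ 2 * |((T x : ℤ) : ℝ)| := by exact_mod_cast h
  have h2 : (0 : ℝ) < |((T x : ℤ) : ℝ)| := by linarith
  rw [← Real.log_mul h2.ne' (by norm_num)]
  exact Real.log_le_log h0 (by linarith)

lemma T_ne_zero {x : ℤ} (hx : x ≠ 0) : T x ≠ 0 := by
  have h := abs_T_ge x
  intro h0
  rw [h0] at h
  simp at h
  exact hx h

lemma iter_ne_zero {x : ℤ} (hx : x ≠ 0) (j : ℕ) : T^[j] x ≠ 0 := by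
  induction j with
  | zero => exact hx
  | succ j ih => rw [Function.iterate_succ_apply']; exact T_ne_zero ih

lemma log_iter_ge {x : ℤ} (hx : x ≠ 0) (j : ℕ) :
    Real.log |(x : ℝ)| ≤ Real.log |((T^[j] x : ℤ) : ℝ)| + j := by
  induction j with
  | zero => simp
  | succ j ih =>
    have h1 := log_T_ge _ (iter_ne_zero hx j)
    rw [← Function.iterate_succ_apply' T] at h1
    have h2 : Real.log 2 < 1 := by have := Real.log_two_lt_d9; linarith
    push_cast
    linarith

lemma log_iter_le {x : ℤ} (hx : x ≠ 0) (j : ℕ) :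
    Real.log |((T^[j] x : ℤ) : ℝ)| ≤ Real.log |(x : ℝ)| + j + 1 := by
  have h := log_T_iter x j
  have hl2 : Real.log 2 < 0.6932 := by have := Real.log_two_lt_d9; linarith
  have hl2' : 0.6931 < Real.log 2 := by have := Real.log_two_gt_d9; linarith
  have hl3 : Real.log 3 - Real.log 2 ≤ 0.41 := by
    have := Pool.Agent.Y780.Cz.log3_lt
    linarith
  have h0 : (1 : ℝ) ≤ |(x : ℝ)| := by exact_mod_cast Int.one_le_abs hx
  have h1 : (1 : ℝ) ≤ |((T^[j] x : ℤ) : ℝ)| := by exact_mod_cast Int.one_le_abs (iter_ne_zero hx j)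
  have h2 : Real.log |((T^[j] x : ℤ) : ℝ)| ≤ Real.log (|((T^[j] x : ℤ) : ℝ)| + 1) :=
    Real.log_le_log (by linarith) (by linarith)
  have h3 : Real.log (|(x : ℝ)| + 1) ≤ Real.log |(x : ℝ)| + Real.log 2 := by
    rw [← Real.log_mul (by linarith) (by norm_num)]
    exact Real.log_le_log (by linarith) (by linarith)
  have h4 : (j : ℝ) * (Real.log 3 - Real.log 2) ≤ j * 1 :=
    mul_le_mul_of_nonneg_left (by linarith) (Nat.cast_nonneg _)
  linarith

lemma len_eq {Z : Finset ℤ} (_hZ : IsCycle Z) (y : ℤ) (k : ℕ) : len y (k + 1) = len y k + ci (nx^[k] y) :=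
  len_succ y k

/-- the whole circuit number `k` is mixed -/
lemma mixed_circuit {Z : Finset ℤ} (hZ : IsCycle Z) {y : ℤ} (hy : y ∈ loc Z) (k : ℕ) :
    Mixed y (len y k) (len y (k + 1)) := by
  have h1 := nx_iter_mem hZ hy k
  obtain ⟨h2, h3, h4⟩ := ci_spec hZ h1
  have h5 := len_succ y k
  refine ⟨⟨len y (k + 1) - 1, by omega, by omega, ?_⟩, ⟨len y k, le_rfl, by omega, ?_⟩⟩
  · rw [show len y (k + 1) - 1 = (ci (nx^[k] y) - 1) + len y k by omega,
      Function.iterate_add_apply, iter_len]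
    exact h3
  · rw [iter_len]
    exact (mem_loc.1 h1).2.1

/-- **windows**: in a window of `s` circuits with `W` steps at most `2K` of the circuits starting at a
local minimum `y'` with `log |y'| ≥ (C + 1) (W + 1)` contain a member of `P` -/
lemma window_hit {P : ℤ → Prop} {K : ℕ} {C : ℝ} (hP : Rep P K C) {Z : Finset ℤ} (hZ : IsCycle Z)
    {y : ℤ} (hy : y ∈ loc Z) (s : ℕ) (B : Finset ℕ) (hB : ∀ k ∈ B, k < s ∧ nx^[k] y ∈ hit P Z ∧
      (C + 1) * (len y s + 1) ≤ Real.log |((nx^[k] y : ℤ) : ℝ)|) : B.card ≤ 2 * K := by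
  classical
  by_contra hcon
  push Not at hcon
  obtain ⟨B', hB'sub, hB'card⟩ := Finset.exists_subset_card_eq (show 2 * K + 1 ≤ B.card by omega)
  set e := B'.orderEmbOfFin hB'card with he
  have hmem : ∀ i, e i ∈ B := fun i => hB'sub (B'.orderEmbOfFin_mem hB'card i)
  have hjex : ∀ k ∈ B, ∃ j < ci (nx^[k] y), P (T^[j] (nx^[k] y)) := by
    intro k hk
    have := (hB k hk).2.1
    unfold hit at this
    exact (mem_filter.1 this).2
  choose! j hj1 hj2 using hjex
  set κ : ℕ → ℕ := fun i => if h : 2 * i < 2 * K + 1 then e ⟨2 * i, h⟩ else 0 with hκ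
  have hκe : ∀ i (h : 2 * i < 2 * K + 1), κ i = e ⟨2 * i, h⟩ := fun i h => by
    simp only [hκ, h, dif_pos]
  have hκB : ∀ i ≤ K, κ i ∈ B := fun i hi => by
    rw [hκe i (by omega)]; exact hmem _
  have hκlt : ∀ i < K, κ i + 2 ≤ κ (i + 1) := by
    intro i hi
    rw [hκe i (by omega), hκe (i + 1) (by omega)]
    have h1 : e ⟨2 * i, by omega⟩ < e ⟨2 * i + 1, by omega⟩ := e.strictMono (by
      rw [Fin.lt_def]; simp)
    have h2 : e ⟨2 * i + 1, by omega⟩ < e ⟨2 * (i + 1), by omega⟩ := e.strictMono (by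
      rw [Fin.lt_def]; simp only; omega)
    omega
  have hlenle : ∀ k ∈ B, len y k + j k < len y (k + 1) ∧ len y (k + 1) ≤ len y s := by
    intro k hk
    have h1 := hj1 k hk
    have h2 := len_succ y k
    exact ⟨by omega, len_mono y (by have := (hB k hk).1; omega)⟩
  refine hP y (len y s) (fun i => len y (κ i) + j (κ i)) (fun i hi => ?_) (fun i hi => ?_)
  · have hk := hκB i hi
    obtain ⟨h1, h2⟩ := hlenle _ hk
    have e1 : T^[len y (κ i) + j (κ i)] y = T^[j (κ i)] (nx^[κ i] y) := by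
      rw [Nat.add_comm, Function.iterate_add_apply, iter_len]
    refine ⟨by omega, ?_, ?_⟩
    · rw [e1]
      exact hj2 _ hk
    · rw [e1]
      have h3 := (hB _ hk).2.2
      have hne : nx^[κ i] y ≠ 0 := by
        have := loc_ne_zero (nx_iter_mem hZ hy (κ i))
        intro h0
        rw [h0] at this
        norm_num at this
      have h4 := log_iter_ge hne (j (κ i))
      have h5 : (j (κ i) : ℝ) ≤ len y s := by
        have : j (κ i) ≤ len y s := by omega
        exact_mod_cast this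
      linarith
  · have h1 := hκlt i hi
    have h2 := (hlenle _ (hκB i hi.le)).1
    have h3 := mixed_circuit hZ hy (κ i + 1)
    have h4 : len y (κ i + 1 + 1) ≤ len y (κ (i + 1)) := len_mono y (by omega)
    exact h3.mono (by omega) (by omega)

lemma sum_ci {ε : ℝ} (hε : 0 < ε) : ∃ C : ℝ, 0 < C ∧ ∀ Z : Finset ℤ, IsCycle Z →
    ∑ y ∈ loc Z, (ci y : ℝ) ≤ ε * ∑ y ∈ loc Z, Real.log |(y : ℝ)| + C * (loc Z).card := by
  obtain ⟨s, hs⟩ := exists_nat_ge (3 / ε)
  have hs0 : 0 < (s : ℝ) := lt_of_lt_of_le (by positivity) hs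
  obtain ⟨N0, hN0⟩ := window s
  refine ⟨N0 / s + 1, by positivity, fun Z hZ => ?_⟩
  have h2 : ∑ y ∈ loc Z, (len y s : ℝ) ≤ ∑ y ∈ loc Z, (3 * Real.log |(y : ℝ)| + N0) :=
    sum_le_sum fun y hy => hN0 Z y hZ hy
  rw [sum_len hZ, sum_add_distrib, ← mul_sum, sum_const, nsmul_eq_mul] at h2
  have h3 : 0 ≤ ∑ y ∈ loc Z, Real.log |(y : ℝ)| :=
    sum_nonneg fun y hy => Real.log_nonneg (loc_ne_zero hy)
  have h4 : ∑ y ∈ loc Z, (ci y : ℝ) ≤ (3 * ∑ y ∈ loc Z, Real.log |(y : ℝ)| + (loc Z).card * N0) / s := by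
    rw [le_div_iff₀ hs0]; linarith
  have h5 : 3 / (s : ℝ) ≤ ε := by
    rw [div_le_iff₀ hε] at hs
    rw [div_le_iff₀ hs0]; linarith
  have h6 : (3 * ∑ y ∈ loc Z, Real.log |(y : ℝ)| + (loc Z).card * N0) / s =
      3 / s * ∑ y ∈ loc Z, Real.log |(y : ℝ)| + N0 / s * (loc Z).card := by field_simp
  rw [h6] at h4
  have h7 : 3 / (s : ℝ) * ∑ y ∈ loc Z, Real.log |(y : ℝ)| ≤ ε * ∑ y ∈ loc Z, Real.log |(y : ℝ)| :=
    mul_le_mul_of_nonneg_right h5 h3
  have h8 : (0 : ℝ) ≤ (loc Z).card := Nat.cast_nonneg _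
  linarith

lemma hit_sub (P : ℤ → Prop) (Z : Finset ℤ) : hit P Z ⊆ loc Z := by
  classical
  unfold hit
  exact filter_subset _ _

/-- **the weighted inequality** -/
theorem weighted {P : ℤ → Prop} {K : ℕ} {C : ℝ} (hC : 0 ≤ C) (hP : Rep P K C) {ε : ℝ} (hε : 0 < ε) :
    ∃ C' : ℝ, 0 < C' ∧ ∀ Z : Finset ℤ, IsCycle Z →
      ∑ y ∈ hit P Z, Real.log |(y : ℝ)| ≤ ε * ∑ y ∈ loc Z, Real.log |(y : ℝ)| + C' * (loc Z).card := by
  classical
  obtain ⟨s, hs⟩ := exists_nat_ge (4 * (K + 1) / ε)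
  have hK0 : (0 : ℝ) ≤ K := Nat.cast_nonneg _
  have hs0 : 0 < (s : ℝ) := lt_of_lt_of_le (by positivity) hs
  set A : ℝ := 2 * K + s * (C + 1) with hA
  have hA0 : 0 < A := by positivity
  obtain ⟨C1, hC1, h1⟩ := sum_ci (show 0 < ε / (2 * A) by positivity)
  refine ⟨A * C1 + A + 1, by positivity, fun Z hZ => ?_⟩
  set L : ℤ → ℝ := fun y => Real.log |(y : ℝ)| with hL
  have hL0 : ∀ y ∈ loc Z, 0 ≤ L y := fun y hy => Real.log_nonneg (loc_ne_zero hy)
  have hne : ∀ y ∈ loc Z, y ≠ 0 := by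
    intro y hy h0
    have := loc_ne_zero hy
    rw [h0] at this
    norm_num at this
  set ind : ℤ → ℝ := fun y => if y ∈ hit P Z then L y else 0 with hind
  have hwin : ∀ y ∈ loc Z, ∑ k ∈ range s, ind (nx^[k] y) ≤
      2 * K * (L y + len y s + 1) + s * ((C + 1) * (len y s + 1)) := by
    intro y hy
    set W : ℝ := (len y s : ℝ) with hW
    have hW0 : 0 ≤ W := Nat.cast_nonneg _
    set B := (range s).filter fun k => nx^[k] y ∈ hit P Z ∧ (C + 1) * (W + 1) ≤ L (nx^[k] y) with hBdef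
    have hBcard : B.card ≤ 2 * K := window_hit hP hZ hy s B (by
      intro k hk
      rw [hBdef, mem_filter, mem_range] at hk
      exact hk)
    have hstep : ∀ k ∈ range s, ind (nx^[k] y) ≤
        (if k ∈ B then (L y + W + 1) else 0) + (C + 1) * (W + 1) := by
      intro k hk
      have hpos : 0 ≤ (C + 1) * (W + 1) := by positivity
      by_cases hkB : k ∈ B
      · rw [if_pos hkB]
        have hk2 := hkB
        rw [hBdef, mem_filter, mem_range] at hk2
        simp only [hind]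
        rw [if_pos hk2.2.1]
        have h2 := log_iter_le (hne y hy) (len y k)
        rw [iter_len] at h2
        have h3 : (len y k : ℝ) ≤ W := by
          rw [hW]; exact_mod_cast len_mono y hk2.1.le
        simp only [hL]
        linarith
      · rw [if_neg hkB, zero_add]
        simp only [hind]
        split_ifs with hh
        · by_contra hcon
          push Not at hcon
          exact hkB (by rw [hBdef, mem_filter]; exact ⟨hk, hh, hcon.le⟩)
        · exact hpos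
    have h2 := sum_le_sum hstep
    have e0 : ∑ k ∈ range s, (if k ∈ B then (L y + W + 1) else 0) =
        (((range s).filter fun k => k ∈ B).card : ℝ) * (L y + W + 1) := by
      rw [← sum_filter, sum_const, nsmul_eq_mul]
    rw [sum_add_distrib, e0, sum_const, card_range, nsmul_eq_mul] at h2
    have h3 : ((range s).filter fun k => k ∈ B).card ≤ 2 * K := by
      refine le_trans (card_le_card ?_) hBcard
      intro k hk
      exact (mem_filter.1 hk).2
    have h4 : (((range s).filter fun k => k ∈ B).card : ℝ) ≤ 2 * K := by exact_mod_cast h3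
    have h5 : 0 ≤ L y + W + 1 := by have := hL0 y hy; linarith
    have h6 := mul_le_mul_of_nonneg_right h4 h5
    linarith
  have hsum : ∑ y ∈ loc Z, ∑ k ∈ range s, ind (nx^[k] y) = s * ∑ y ∈ hit P Z, L y := by
    rw [sum_comm, sum_congr rfl fun k _ => sum_nx hZ ind k, sum_const, card_range, nsmul_eq_mul]
    congr 1
    simp only [hind]
    rw [← sum_filter]
    apply sum_congr _ fun _ _ => rfl
    ext y
    rw [mem_filter]
    exact ⟨fun h => h.2, fun h => ⟨hit_sub P Z h, h⟩⟩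
  have h2 := sum_le_sum hwin
  rw [hsum] at h2
  set m : ℝ := ((loc Z).card : ℝ) with hm
  set SL : ℝ := ∑ y ∈ loc Z, L y with hSL
  set Sc : ℝ := ∑ y ∈ loc Z, (ci y : ℝ) with hSc
  have hlen : ∑ y ∈ loc Z, (len y s : ℝ) = s * Sc := sum_len hZ s
  have e1 : ∑ y ∈ loc Z, (2 * K * (L y + len y s + 1) + s * ((C + 1) * ((len y s : ℝ) + 1))) =
      2 * K * SL + (2 * K + s * (C + 1)) * (s * Sc) + (2 * K + s * (C + 1)) * m := by
    have e2 : ∀ y ∈ loc Z, 2 * (K : ℝ) * (L y + len y s + 1) + s * ((C + 1) * ((len y s : ℝ) + 1)) =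
        2 * K * L y + (2 * K + s * (C + 1)) * (len y s : ℝ) + (2 * K + s * (C + 1)) := by
      intro y _; ring
    rw [sum_congr rfl e2, sum_add_distrib, sum_add_distrib, ← mul_sum, ← mul_sum, hlen, sum_const,
      nsmul_eq_mul]
    ring
  rw [e1, ← hA] at h2
  have h3 := h1 Z hZ
  rw [← hSc, ← hSL, ← hm] at h3
  have hSL0 : 0 ≤ SL := sum_nonneg hL0
  have hm0 : 0 ≤ m := Nat.cast_nonneg _
  -- divide by `s`
  have hs1 : (1 : ℝ) ≤ s := by
    have : 0 < s := by exact_mod_cast hs0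
    exact_mod_cast this
  have h4 : A * (s * Sc) ≤ s * (ε / 2 * SL + A * C1 * m) := by
    have h5 : A * Sc ≤ ε / 2 * SL + A * C1 * m := by
      have h6 := mul_le_mul_of_nonneg_left h3 hA0.le
      have e3 : A * (ε / (2 * A) * SL + C1 * m) = ε / 2 * SL + A * C1 * m := by field_simp
      rw [e3] at h6
      exact h6
    calc A * (s * Sc) = s * (A * Sc) := by ring
      _ ≤ _ := mul_le_mul_of_nonneg_left h5 hs0.le
  have h5 : 2 * K * SL ≤ s * (ε / 2 * SL) := by
    have h6 : 2 * (K : ℝ) ≤ s * (ε / 2) := by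
      rw [div_le_iff₀ hε] at hs
      linarith
    calc 2 * K * SL ≤ s * (ε / 2) * SL := mul_le_mul_of_nonneg_right h6 hSL0
      _ = _ := by ring
  have h6 : A * m ≤ s * (A * m) := by
    have : 0 ≤ A * m := by positivity
    nlinarith
  have h7 : s * ∑ y ∈ hit P Z, L y ≤ s * (ε * SL + (A * C1 + A + 1) * m) := by
    have h8 : (s : ℝ) * (ε * SL + (A * C1 + A + 1) * m) =
        s * (ε / 2 * SL) + s * (ε / 2 * SL + A * C1 * m) + s * (A * m) + s * m := by ring
    have h9 : 0 ≤ s * m := by positivity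
    linarith
  exact le_of_mul_le_mul_left h7 hs0

/-- all but finitely many cycles satisfy the weighted inequality without the error term -/
theorem weighted_finite {P : ℤ → Prop} {K : ℕ} {C : ℝ} (hC : 0 ≤ C) (hP : Rep P K C) {ε : ℝ}
    (hε : 0 < ε) : {Z : Finset ℤ | IsCycle Z ∧
      ε * ∑ y ∈ loc Z, Real.log |(y : ℝ)| < ∑ y ∈ hit P Z, Real.log |(y : ℝ)|}.Finite := by
  obtain ⟨C', hC', h⟩ := weighted hC hP (show 0 < ε / 2 by positivity)
  obtain ⟨X, hX⟩ := exists_nat_ge (Real.exp (2 * C' / ε))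
  refine (fin_small X).subset ?_
  rintro Z ⟨hZ, hlt⟩
  refine ⟨hZ, ?_⟩
  by_contra hsmall
  push Not at hsmall
  have h1 := h Z hZ
  have h2 : ((loc Z).card : ℝ) * (2 * C' / ε) ≤ ∑ y ∈ loc Z, Real.log |(y : ℝ)| := by
    rw [← nsmul_eq_mul, ← Finset.sum_const]
    apply Finset.sum_le_sum
    intro y hy
    have h3 := hsmall y (mem_loc.1 hy).1
    have h4 : (X : ℝ) < |(y : ℝ)| := by exact_mod_cast h3
    rw [Real.le_log_iff_exp_le (by linarith [loc_ne_zero hy])]
    linarith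
  have h5 : C' * (loc Z).card ≤ ε / 2 * ∑ y ∈ loc Z, Real.log |(y : ℝ)| := by
    have h6 := mul_le_mul_of_nonneg_left h2 (show 0 ≤ ε / 2 by positivity)
    calc C' * ((loc Z).card : ℝ) = ε / 2 * ((loc Z).card * (2 * C' / ε)) := by field_simp
      _ ≤ _ := h6
  linarith

end Pool.Agent.J6H87.CY
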