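import Mathlib
import Pool.Agent.J6H87.CY.GB
import Pool.Agent.J6H87.CY.TT

set_option autoImplicit false

/-!
# Large common divisors with a chain of divisors repel each other along the trajectories
-/

open Finset Polynomial

namespace Pool.Agent.J6H87.CY

open Pool.Agent.H319R2 (T od)

section comb

/-- a greedy choice of independent elements -/
lemma indep (R : ℕ → ℕ → Prop) [∀ i j, Decidable (R i j)] (D : ℕ) : ∀ (t : ℕ) (s : Finset ℕ),
    t * (D + 1) ≤ s.card → (∀ i ∈ s, (s.filter fun j => i < j ∧ R i j).card ≤ D) →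
    ∃ u ⊆ s, u.card = t ∧ ∀ i ∈ u, ∀ j ∈ u, i < j → ¬ R i j := by
  intro t
  induction t with
  | zero => intro s _ _; exact ⟨∅, empty_subset _, rfl, by simp⟩
  | succ t ih =>
    intro s hs hR
    have hne : s.Nonempty := by
      rw [← card_pos]
      have : 0 < (t + 1) * (D + 1) := by positivity
      omega
    set i0 := s.min' hne with hi0
    have hi0s : i0 ∈ s := s.min'_mem hne
    set s' := (s.erase i0).filter fun j => ¬ R i0 j with hs'
    have hsub : s' ⊆ s := (filter_subset _ _).trans (erase_subset _ _)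
    have hlt : ∀ j ∈ s.erase i0, i0 < j := by
      intro j hj
      rw [mem_erase] at hj
      exact lt_of_le_of_ne (s.min'_le j hj.2) (Ne.symm hj.1)
    have hcard : t * (D + 1) ≤ s'.card := by
      have h1 := card_filter_add_card_filter_not (s := s.erase i0) (fun j => R i0 j)
      rw [card_erase_of_mem hi0s] at h1
      have h2 : ((s.erase i0).filter fun j => R i0 j).card ≤ D := by
        refine le_trans (card_le_card ?_) (hR i0 hi0s)
        intro j hj
        rw [mem_filter] at hj ⊢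
        exact ⟨mem_of_mem_erase hj.1, hlt j hj.1, hj.2⟩
      have h3 : (t + 1) * (D + 1) = t * (D + 1) + (D + 1) := by ring
      rw [hs']
      omega
    obtain ⟨u, hu1, hu2, hu3⟩ := ih s' hcard (fun i hi => by
      refine le_trans (card_le_card ?_) (hR i (hsub hi))
      exact filter_subset_filter _ hsub)
    have hi0u : i0 ∉ u := by
      intro h
      have := hu1 h
      rw [hs', mem_filter, mem_erase] at this
      exact this.1.1 rfl
    refine ⟨insert i0 u, ?_, ?_, ?_⟩
    · intro i hi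
      rcases mem_insert.1 hi with rfl | hi
      · exact hi0s
      · exact hsub (hu1 hi)
    · rw [card_insert_of_notMem hi0u, hu2]
    · intro i hi j hj hij
      rcases mem_insert.1 hi with rfl | hi
      · rcases mem_insert.1 hj with rfl | hj
        · exact absurd hij (lt_irrefl _)
        · have := hu1 hj
          rw [hs', mem_filter] at this
          exact this.2
      · rcases mem_insert.1 hj with rfl | hj
        · have := hu1 hi
          rw [hs', mem_filter] at this
          have h2 := hlt i this.1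
          exact absurd hij (by omega)
        · exact hu3 i hi j hj hij

/-- the product of divisors of `M` with small common divisors -/
lemma prod_le (q : ℕ → ℕ) (G : ℕ) (hG : 1 ≤ G) (hq : ∀ i, 0 < q i) : ∀ (u : Finset ℕ),
    (∀ i ∈ u, ∀ j ∈ u, i < j → Nat.gcd (q i) (q j) ≤ G) →
    ∏ i ∈ u, q i ≤ u.lcm q * G ^ (u.card ^ 2) := by
  intro u
  induction u using Finset.induction_on with
  | empty => intro _; simp
  | insert a u ha ih =>
    intro h
    have h1 := ih fun i hi j hj hij => h i (mem_insert_of_mem hi) j (mem_insert_of_mem hj) hij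
    have hdvd : ∀ v : Finset ℕ, Nat.gcd (q a) (v.lcm q) ∣ ∏ i ∈ v, Nat.gcd (q a) (q i) := by
      intro v
      induction v using Finset.induction_on with
      | empty => simp
      | insert c v hc ihv =>
        rw [prod_insert hc, lcm_insert]
        refine (Nat.gcd_dvd_gcd_of_dvd_right _ (Nat.lcm_dvd_mul (q c) (v.lcm q))).trans ?_
        exact (Nat.gcd_mul_right_dvd_mul_gcd (q a) (q c) (v.lcm q)).trans (mul_dvd_mul_left _ ihv)
    have h2 : Nat.gcd (q a) (u.lcm q) ≤ G ^ u.card := by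
      have h3 : 0 < ∏ i ∈ u, Nat.gcd (q a) (q i) :=
        prod_pos fun i _ => Nat.gcd_pos_of_pos_left _ (hq a)
      refine (Nat.le_of_dvd h3 (hdvd u)).trans ?_
      rw [← prod_const]
      apply prod_le_prod' 
      intro i hi
      rcases lt_trichotomy a i with hlt | heq | hgt
      · exact h a (mem_insert_self _ _) i (mem_insert_of_mem hi) hlt
      · exact absurd hi (heq ▸ ha)
      · rw [Nat.gcd_comm]
        exact h i (mem_insert_of_mem hi) a (mem_insert_self _ _) hgt
    rw [prod_insert ha, card_insert_of_notMem ha, lcm_insert]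
    calc q a * ∏ i ∈ u, q i ≤ q a * (u.lcm q * G ^ (u.card ^ 2)) := Nat.mul_le_mul_left _ h1
      _ = (q a * u.lcm q) * G ^ (u.card ^ 2) := by ring
      _ = (Nat.gcd (q a) (u.lcm q) * Nat.lcm (q a) (u.lcm q)) * G ^ (u.card ^ 2) := by
          rw [Nat.gcd_mul_lcm]
      _ ≤ (G ^ u.card * Nat.lcm (q a) (u.lcm q)) * G ^ (u.card ^ 2) :=
          Nat.mul_le_mul_right _ (Nat.mul_le_mul_right _ h2)
      _ = Nat.lcm (q a) (u.lcm q) * G ^ (u.card + u.card ^ 2) := by rw [pow_add]; ring
      _ ≤ Nat.lcm (q a) (u.lcm q) * G ^ ((u.card + 1) ^ 2) := by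
          apply Nat.mul_le_mul_left
          apply Nat.pow_le_pow_right hG
          nlinarith
      _ = _ := rfl

end comb

/-- `x` is 2-adically close to a rational root of `f` which is fixed by a composition of branches in
which both branches occur -/
def ShadowG (b : ℕ) (f : ℤ[X]) (x : ℤ) : Prop :=
  ∃ (ξ : ℚ) (w : List Bool), aeval ξ f = 0 ∧ true ∈ w ∧ false ∈ w ∧ path w ξ = ξ ∧
    (b : ℤ) ≤ padicValRat 2 ((x : ℚ) - ξ)

/-- `f x` and the member of the chain at `log |x|` have a common divisor of size `|x| ^ δ` -/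
def PG (M : ℕ → ℕ) (f : ℤ[X]) (δ : ℝ) (b : ℕ) (x : ℤ) : Prop :=
  |(x : ℝ)| ^ δ ≤ Nat.gcd (M ⌊Real.log |(x : ℝ)|⌋₊) (f.eval x).natAbs ∧ ¬ ShadowG b f x

lemma chain_mono {M : ℕ → ℕ} (hM : ∀ n, M n ∣ M (n + 1)) {m n : ℕ} (h : m ≤ n) : M m ∣ M n := by
  induction n, h using Nat.le_induction with
  | base => exact dvd_rfl
  | succ n _ ih => exact ih.trans (hM n)

lemma exists_root_bound {f : ℤ[X]} (hf : f ≠ 0) :
    ∃ r : ℝ, 0 ≤ r ∧ ∀ z : ℤ, f.eval z = 0 → Real.log |(z : ℝ)| < r := by
  refine ⟨(∑ z ∈ f.roots.toFinset, abs (Real.log |(z : ℝ)|)) + 1,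
    add_nonneg (sum_nonneg fun _ _ => abs_nonneg _) zero_le_one, fun z hz => ?_⟩
  have h1 : z ∈ f.roots.toFinset := by
    rw [Multiset.mem_toFinset, mem_roots hf]
    exact hz
  have h2 := single_le_sum (f := fun z : ℤ => abs (Real.log |(z : ℝ)|)) (fun _ _ => abs_nonneg _) h1
  have h3 := le_abs_self (Real.log |(z : ℝ)|)
  linarith

section chain

variable {x : ℤ} {K : ℕ} {a : ℕ → ℕ} (hmix : ∀ i < K, Mixed x (a i) (a (i + 1)))

include hmix

lemma mark_add_le {i j : ℕ} (hij : i ≤ j) (hj : j ≤ K) : a i + (j - i) ≤ a j := by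
  induction j, hij using Nat.le_induction with
  | base => simp
  | succ j h ih =>
    have h1 := (hmix j (by omega)).lt
    have h2 := ih (by omega)
    omega

lemma mark_mixed {i j : ℕ} (hij : i < j) (hj : j ≤ K) : Mixed x (a i) (a j) :=
  (hmix i (by omega)).mono le_rfl (by have := mark_add_le hmix (show i + 1 ≤ j from hij) hj; omega)

end chain

/-- the outdegree -/
lemma outdeg {f : ℤ[X]} (hf : f ≠ 0) {b : ℕ} {x : ℤ} {c : ℕ → ℕ} {J : ℕ}
    (hgap : ∀ i j, i < j → j < J → c i + (b + 1) ≤ c j)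
    (hmix : ∀ i j, i < j → j < J → Mixed x (c i) (c j))
    (hroot : ∀ i < J, f.eval (T^[c i] x) ≠ 0) (hsh : ∀ i < J, ¬ ShadowG b f (T^[c i] x))
    (i : ℕ) (s : Finset ℕ)
    (hs : ∀ j ∈ s, i < j ∧ j < J ∧ ∃ ρ ρ' : ℂ, Corr f (T^[c i] x) (c j - c i) ρ ρ') :
    s.card ≤ f.natDegree ^ 2 := by
  classical
  set rt : Finset ℂ := (f.map (Int.castRingHom ℂ)).roots.toFinset with hrt
  have hinj : Function.Injective (Int.castRingHom ℂ) := Int.cast_injective
  have hf' : f.map (Int.castRingHom ℂ) ≠ 0 := (Polynomial.map_ne_zero_iff hinj).2 hf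
  have hmem : ∀ ρ : ℂ, aeval ρ f = 0 → ρ ∈ rt := by
    intro ρ h
    rw [hrt, Multiset.mem_toFinset, mem_roots hf', IsRoot.def, eval_map]
    exact h
  have hrtcard : rt.card ≤ f.natDegree := by
    refine (Multiset.toFinset_card_le _).trans ?_
    refine (card_roots' _).trans ?_
    exact natDegree_map_le
  choose! r r' hr using fun j hj => (hs j hj).2.2
  by_contra hcon
  push Not at hcon
  have hmaps : ∀ j ∈ s, (r j, r' j) ∈ rt ×ˢ rt := by
    intro j hj
    rw [mem_product]
    exact ⟨hmem _ (hr j hj).1, hmem _ (hr j hj).2.1⟩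
  have hcard : (rt ×ˢ rt).card < s.card := by
    rw [card_product]
    calc rt.card * rt.card ≤ f.natDegree * f.natDegree := Nat.mul_le_mul hrtcard hrtcard
      _ = f.natDegree ^ 2 := by ring
      _ < s.card := hcon
  obtain ⟨j, hj, k, hk, hjk, he⟩ := exists_ne_map_eq_of_card_lt_of_maps_to hcard hmaps
  wlog hlt : j < k generalizing j k
  · exact this k hk j hj (Ne.symm hjk) he.symm (by omega)
  obtain ⟨hij, hjJ, -⟩ := hs j hj
  obtain ⟨hik, hkJ, -⟩ := hs k hk
  have e1 : r k = r j := (Prod.ext_iff.1 he).1.symm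
  have e2 : r' k = r' j := (Prod.ext_iff.1 he).2.symm
  have h1 := hr j hj
  have h2 := hr k hk
  rw [e1, e2] at h2
  have hgij := hgap i j hij hjJ
  have hgjk := hgap j k hlt hkJ
  have e3 : c k - c i = (c j - c i) + (c k - c j) := by omega
  rw [e3] at h2
  have h3 := h1.comp h2
  have e4 : T^[c j - c i] (T^[c i] x) = T^[c j] x := by
    rw [← Function.iterate_add_apply]
    congr 1
    omega
  rw [e4] at h3
  obtain ⟨ξ, hξ1, hξ2⟩ := fixed_rat (show 1 ≤ c k - c j by omega) h1.2.1 h3
  have hne : ((T^[c j] x : ℤ) : ℚ) ≠ ξ := by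
    intro h0
    apply hroot j hjJ
    rw [← h0] at hξ1
    have h4 : aeval (algebraMap ℤ ℚ (T^[c j] x)) f = 0 := by simpa using hξ1
    rw [aeval_algebraMap_apply] at h4
    have h5 : (aeval (T^[c j] x)) f = 0 := by
      have : ((aeval (T^[c j] x) f : ℤ) : ℚ) = 0 := h4
      exact_mod_cast this
    rw [coe_aeval_eq_eval] at h5
    exact h5
  have h4 := shadow_val (show 1 ≤ c k - c j by omega) hξ2 hne
  obtain ⟨⟨l, hl1, hl2, hl3⟩, ⟨l', hl1', hl2', hl3'⟩⟩ := hmix j k hlt hkJ
  apply hsh j hjJ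
  refine ⟨ξ, word (T^[c j] x) (c k - c j), hξ1, ?_, ?_, hξ2, ?_⟩
  · apply true_mem_word
    refine ⟨l' - c j, by omega, ?_⟩
    rw [← Function.iterate_add_apply, show l' - c j + c j = l' by omega]
    exact hl3'
  · apply false_mem_word
    refine ⟨l - c j, by omega, ?_⟩
    rw [← Function.iterate_add_apply, show l - c j + c j = l by omega]
    exact hl3
  · refine le_trans ?_ h4
    have : b ≤ c k - c j := by omega
    exact_mod_cast this

/-- the number of marks -/
def KG (f : ℤ[X]) (t b : ℕ) : ℕ := (b + 1) * (t * (f.natDegree ^ 2 + 1))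

/-- **large common divisors with the members of a chain repel each other** -/
theorem rep_gcd {f : ℤ[X]} (hf : f ≠ 0) {δ : ℝ} (hδ : 0 < δ) (b B : ℕ) :
    ∃ (K : ℕ) (C : ℝ), 0 ≤ C ∧ ∀ M : ℕ → ℕ, (∀ n, 0 < M n ∧ M n ∣ M (n + 1) ∧ M n ≤ B ^ (n + 1)) →
      Rep (PG M f δ b) K C := by
  classical
  set A : ℝ := Real.log B with hA
  have hA0 : 0 ≤ A := by
    rw [hA]
    rcases Nat.eq_zero_or_pos B with h | h
    · rw [h]; simp
    · exact Real.log_nonneg (by exact_mod_cast h)
  obtain ⟨t, ht⟩ := exists_nat_ge ((A + 1) / δ)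
  have htδ : A + 1 ≤ t * δ := by rwa [div_le_iff₀ hδ] at ht
  obtain ⟨r, hr0, hr⟩ := exists_root_bound hf
  set L1 : ℝ := Real.log (B1 f) with hL1
  have hB1 : 1 ≤ B1 f := one_le_B1 hf
  have hB1' : (1 : ℝ) ≤ B1 f := by exact_mod_cast hB1
  have hL10 : 0 ≤ L1 := Real.log_nonneg hB1'
  refine ⟨KG f t b, 2 * A + t * δ + t ^ 2 * L1 + r + 1, by positivity, ?_⟩
  intro M hM x N a h1 h2
  set C : ℝ := 2 * A + t * δ + t ^ 2 * L1 + r + 1 with hC
  have hC0 : 0 ≤ C := by positivity
  have hC1 : 1 ≤ C := by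
    have : 0 ≤ 2 * A + t * δ + t ^ 2 * L1 + r := by positivity
    linarith
  set J : ℕ := t * (f.natDegree ^ 2 + 1) with hJ
  set c : ℕ → ℕ := fun j => a ((b + 1) * j) with hc
  have hidx : ∀ j < J, (b + 1) * j ≤ KG f t b := by
    intro j hj
    unfold KG
    exact Nat.mul_le_mul_left _ hj.le
  have hK : ∀ j < J, c j ≤ N ∧ PG M f δ b (T^[c j] x) ∧
      C * (N + 1) ≤ Real.log |((T^[c j] x : ℤ) : ℝ)| := fun j hj => h1 _ (hidx j hj)
  have hgap : ∀ i j, i < j → j < J → c i + (b + 1) ≤ c j := by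
    intro i j hij hj
    have h3 := mark_add_le h2 (show (b + 1) * i ≤ (b + 1) * j from Nat.mul_le_mul_left _ hij.le)
      (hidx j hj)
    have h4 : (b + 1) * (i + 1) ≤ (b + 1) * j := Nat.mul_le_mul_left _ hij
    have h5 : (b + 1) * (i + 1) = (b + 1) * i + (b + 1) := by ring
    simp only [hc]
    omega
  have hmix : ∀ i j, i < j → j < J → Mixed x (c i) (c j) := by
    intro i j hij hj
    exact mark_mixed h2 (Nat.mul_lt_mul_of_pos_left hij (by omega)) (hidx j hj)
  have hNpos : (1 : ℝ) ≤ (N : ℝ) + 1 := by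
    have : (0 : ℝ) ≤ N := Nat.cast_nonneg _
    linarith
  have hroot : ∀ i < J, f.eval (T^[c i] x) ≠ 0 := by
    intro i hi h0
    have h3 := hr _ h0
    have h4 := (hK i hi).2.2
    have h5 : r ≤ C := by
      have : 0 ≤ 2 * A + t * δ + t ^ 2 * L1 := by positivity
      linarith
    nlinarith
  -- the relation
  set R : ℕ → ℕ → Prop := fun i j => ∃ ρ ρ' : ℂ, Corr f (T^[c i] x) (c j - c i) ρ ρ' with hR
  obtain ⟨u, hu1, hu2, hu3⟩ := indep R (f.natDegree ^ 2) t (range J) (by rw [card_range])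
    (fun i hi => by
      refine outdeg hf hgap hmix hroot (fun i hi => (hK i hi).2.1.2) i _ ?_
      intro j hj
      rw [mem_filter, mem_range] at hj
      exact ⟨hj.2.1, hj.1, hj.2.2⟩)
  have huJ : ∀ j ∈ u, j < J := fun j hj => mem_range.1 (hu1 hj)
  -- `t` is positive
  have htpos : 0 < t := by
    rcases Nat.eq_zero_or_pos t with h | h
    · rw [h] at htδ
      simp at htδ
      linarith
    · exact h
  have hune : u.Nonempty := by rw [← card_pos, hu2]; exact htpos
  set j0 := u.min' hune with hj0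
  have hj0u : j0 ∈ u := u.min'_mem hune
  have hj0J := huJ j0 hj0u
  set L : ℕ → ℝ := fun j => Real.log |((T^[c j] x : ℤ) : ℝ)| with hL
  have hLge : ∀ j ∈ u, C * (N + 1) ≤ L j := fun j hj => (hK j (huJ j hj)).2.2
  have hxne : ∀ j ∈ u, T^[c j] x ≠ 0 := by
    intro j hj h0
    have h3 := hLge j hj
    simp only [hL] at h3
    rw [h0] at h3
    simp at h3
    nlinarith
  have habs : ∀ j ∈ u, (1 : ℝ) ≤ |((T^[c j] x : ℤ) : ℝ)| := by
    intro j hj
    exact_mod_cast Int.one_le_abs (hxne j hj)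
  -- comparison of the sizes
  have hcomp : ∀ j ∈ u, L j0 - N ≤ L j ∧ L j ≤ L j0 + N + 1 := by
    intro j hj
    rcases Nat.lt_or_ge j0 j with hlt | hge
    · have h3 := hgap j0 j hlt (huJ j hj)
      have e : T^[c j] x = T^[c j - c j0] (T^[c j0] x) := by
        rw [← Function.iterate_add_apply]; congr 1; omega
      have h4 := log_iter_ge (hxne j0 hj0u) (c j - c j0)
      have h5 := log_iter_le (hxne j0 hj0u) (c j - c j0)
      rw [← e] at h4 h5
      have h6 : ((c j - c j0 : ℕ) : ℝ) ≤ N := by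
        have : c j - c j0 ≤ N := by have := (hK j (huJ j hj)).1; omega
        exact_mod_cast this
      simp only [hL]
      constructor <;> linarith
    · have e : j = j0 := le_antisymm hge (u.min'_le j hj)
      rw [e]
      constructor <;> linarith
  -- the common divisors
  set q : ℕ → ℕ := fun j => if j ∈ u then
    Nat.gcd (M ⌊L j⌋₊) (f.eval (T^[c j] x)).natAbs else 1 with hq
  have hqu : ∀ j ∈ u, q j = Nat.gcd (M ⌊L j⌋₊) (f.eval (T^[c j] x)).natAbs := by
    intro j hj
    simp only [hq]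
    rw [if_pos hj]
  have hqpos : ∀ j, 0 < q j := by
    intro j
    by_cases hj : j ∈ u
    · rw [hqu j hj]
      exact Nat.gcd_pos_of_pos_left _ (hM _).1
    · simp only [hq]
      rw [if_neg hj]
      exact one_pos
  have hG1 : 1 ≤ B1 f ^ (N + 1) := Nat.one_le_pow _ _ hB1
  have hprod := prod_le q (B1 f ^ (N + 1)) hG1 hqpos u (by
    intro i hi j hj hij
    have hdi : ((Nat.gcd (q i) (q j) : ℕ) : ℤ) ∣ f.eval (T^[c i] x) := by
      rw [Int.natCast_dvd]
      refine (Nat.gcd_dvd_left _ _).trans ?_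
      rw [hqu i hi]
      exact Nat.gcd_dvd_right _ _
    have hdj : ((Nat.gcd (q i) (q j) : ℕ) : ℤ) ∣ f.eval (T^[c j] x) := by
      rw [Int.natCast_dvd]
      refine (Nat.gcd_dvd_right _ _).trans ?_
      rw [hqu j hj]
      exact Nat.gcd_dvd_right _ _
    have hgij := hgap i j hij (huJ j hj)
    have e : T^[c j - c i] (T^[c i] x) = T^[c j] x := by
      rw [← Function.iterate_add_apply]; congr 1; omega
    rw [← e] at hdj
    rcases pair hf (T^[c i] x) (c j - c i) _ hdi hdj with h3 | h3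
    · have h4 : c j - c i + 1 ≤ N + 1 := by
        have := (hK j (huJ j hj)).1
        omega
      have h5 : B1 f ^ (c j - c i + 1) ≤ B1 f ^ (N + 1) := Nat.pow_le_pow_right hB1 h4
      have h6 : Nat.gcd (q i) (q j) ≤ B1 f ^ (c j - c i + 1) := by exact_mod_cast h3
      exact h6.trans h5
    · exact absurd h3 (hu3 i hi j hj hij))
  -- the least common multiple divides a member of the chain
  have hL00 : 0 ≤ L j0 := by
    have := hLge j0 hj0u
    nlinarith
  set n1 : ℕ := ⌊L j0 + N + 1⌋₊ with hn1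
  have hlcm : u.lcm q ∣ M n1 := by
    apply Finset.lcm_dvd
    intro j hj
    rw [hqu j hj]
    refine (Nat.gcd_dvd_left _ _).trans (chain_mono (fun n => (hM n).2.1) ?_)
    exact Nat.floor_mono (hcomp j hj).2
  have hn1le : (n1 : ℝ) ≤ L j0 + N + 1 := Nat.floor_le (by
    have : (0 : ℝ) ≤ N := Nat.cast_nonneg _
    linarith)
  have hBpos : 0 < B := by
    rcases Nat.eq_zero_or_pos B with h | h
    · have := (hM 0).2.2
      have h0 := (hM 0).1
      rw [h] at this
      simp at this
      omega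
    · exact h
  have hfin : ∏ j ∈ u, q j ≤ B ^ (n1 + 1) * (B1 f ^ (N + 1)) ^ (t ^ 2) := by
    refine hprod.trans ?_
    rw [hu2]
    exact Nat.mul_le_mul_right _ ((Nat.le_of_dvd (hM n1).1 hlcm).trans (hM n1).2.2)
  -- logarithms
  have hlog : ∑ j ∈ u, Real.log (q j) ≤ (n1 + 1) * A + t ^ 2 * ((N + 1) * L1) := by
    have h3 : Real.log (∏ j ∈ u, (q j : ℝ)) ≤
        Real.log ((B : ℝ) ^ (n1 + 1) * ((B1 f : ℝ) ^ (N + 1)) ^ (t ^ 2)) := by
      apply Real.log_le_log
      · exact prod_pos fun j _ => by exact_mod_cast hqpos j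
      · exact_mod_cast hfin
    rw [Real.log_prod (fun j _ => by have := hqpos j; exact_mod_cast this.ne')] at h3
    rw [Real.log_mul (by positivity) (by positivity), Real.log_pow, Real.log_pow, Real.log_pow] at h3
    push_cast at h3
    linarith
  have hlow : ∀ j ∈ u, δ * (L j0 - N) ≤ Real.log (q j) := by
    intro j hj
    have h3 := (hK j (huJ j hj)).2.1.1
    have h4 : Real.log (|((T^[c j] x : ℤ) : ℝ)| ^ δ) ≤ Real.log (q j) := by
      apply Real.log_le_log
      · exact Real.rpow_pos_of_pos (by linarith [habs j hj]) _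
      · rw [hqu j hj]
        exact h3
    rw [Real.log_rpow (by linarith [habs j hj])] at h4
    have h5 := mul_le_mul_of_nonneg_left (hcomp j hj).1 hδ.le
    simp only [hL] at h5 ⊢
    linarith
  have hsum : (t : ℝ) * (δ * (L j0 - N)) ≤ ∑ j ∈ u, Real.log (q j) := by
    have h3 := sum_le_sum hlow
    rw [sum_const, hu2, nsmul_eq_mul] at h3
    exact h3
  have hmain : (t : ℝ) * (δ * (L j0 - N)) ≤ (L j0 + N + 2) * A + t ^ 2 * ((N + 1) * L1) := by
    have h3 : ((n1 : ℝ) + 1) * A ≤ (L j0 + N + 2) * A :=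
      mul_le_mul_of_nonneg_right (by linarith) hA0
    linarith
  have hend : L j0 ≤ (2 * A + t * δ + t ^ 2 * L1) * (N + 1) := by
    have h3 : (A + 1) * L j0 ≤ (t * δ) * L j0 := mul_le_mul_of_nonneg_right htδ hL00
    have hN0 : (0 : ℝ) ≤ N := Nat.cast_nonneg _
    have h4 : 0 ≤ A * N := by positivity
    have h5 : 0 ≤ (t : ℝ) * δ := by positivity
    nlinarith
  have hstart := hLge j0 hj0u
  have h6 : (2 * A + t * δ + t ^ 2 * L1) * ((N : ℝ) + 1) < C * (N + 1) := by
    apply mul_lt_mul_of_pos_right _ (by linarith)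
    rw [hC]
    linarith
  linarith

end Pool.Agent.J6H87.CY
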