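import Mathlib
import Pool.Agent.J6H87.CY.TT

set_option autoImplicit false

/-!
# Sets of integers which repel each other along the trajectories of the 3x+1 map: the number of circuits
-/

open Finset

namespace Pool.Agent.J6H87.CY

open Pool.Agent.H319R2 (T)
open Pool.Agent.H547R3 (IsCycle)
open Pool.Agent.R343.SC

/-- windows of short circuits -/
lemma short_window {Z : Finset ℤ} (hZ : IsCycle Z) {y : ℤ} (hy : y ∈ loc Z) (s : ℕ) (δ : ℝ)
    (hδ : 0 < δ) (hδs : 2 * δ * s ≤ 1 / 2) (hH : 2 ≤ Real.log |(y : ℝ)|)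
    (hshort : ∀ k < s, nx^[k] y ∉ long δ Z) (k : ℕ) (hk : k ≤ s) :
    (len y k : ℝ) ≤ 2 * δ * k * Real.log |(y : ℝ)| := by
  induction k with
  | zero => simp [len]
  | succ k ih =>
    have h1 := ih (by omega)
    have hyk := nx_iter_mem hZ hy k
    have hne : y ≠ 0 := by
      intro h0
      have := loc_ne_zero hy
      rw [h0] at this
      norm_num at this
    have h2 := log_iter_le hne (len y k)
    rw [iter_len] at h2
    have h3 : (ci (nx^[k] y) : ℝ) < δ * Real.log |((nx^[k] y : ℤ) : ℝ)| := by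
      by_contra hcon
      push Not at hcon
      apply hshort k (by omega)
      unfold long
      exact mem_filter.2 ⟨hyk, hcon⟩
    rw [len_succ]
    push_cast
    have hk' : ((k : ℕ) : ℝ) + 1 ≤ s := by exact_mod_cast hk
    have hk0 : (0 : ℝ) ≤ k := Nat.cast_nonneg _
    set H := Real.log |(y : ℝ)| with hHdef
    have h4 : 2 * δ * k ≤ 1 / 2 := by
      have : 2 * δ * k ≤ 2 * δ * s := mul_le_mul_of_nonneg_left (by linarith) (by positivity)
      linarith
    have h5 : (len y k : ℝ) + 1 ≤ H := by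
      have : 2 * δ * k * H ≤ 1 / 2 * H := mul_le_mul_of_nonneg_right h4 (by linarith)
      linarith
    have h6 : δ * Real.log |((nx^[k] y : ℤ) : ℝ)| ≤ δ * (2 * H) :=
      mul_le_mul_of_nonneg_left (by linarith) hδ.le
    have e : 2 * δ * (k + 1) * H = 2 * δ * k * H + δ * (2 * H) := by ring
    rw [e]
    linarith

/-- **the count** -/
theorem count_main {P : ℤ → Prop} {K : ℕ} {C : ℝ} (hC : 0 ≤ C) (hP : Rep P K C) {ε : ℝ}
    (hε : 0 < ε) : ∃ X : ℤ, ∀ Z : Finset ℤ, IsCycle Z → (∀ x ∈ Z, X < |x|) →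
      ((hit P Z).card : ℝ) ≤ ε * (loc Z).card := by
  classical
  obtain ⟨s, hs⟩ := exists_nat_ge (4 * (K + 1) / ε)
  have hK0 : (0 : ℝ) ≤ K := Nat.cast_nonneg _
  have hs0 : 0 < (s : ℝ) := lt_of_lt_of_le (by positivity) hs
  set δ : ℝ := 1 / (8 * s * (C + 1)) with hδ
  have hδ0 : 0 < δ := by positivity
  obtain ⟨X1, hX1⟩ := main δ (ε / (2 * s)) hδ0 (by positivity)
  obtain ⟨X2, hX2⟩ := exists_nat_ge (Real.exp (4 * (C + 1)))
  refine ⟨max X1 X2, fun Z hZ hlarge => ?_⟩
  have hlong := hX1 Z hZ fun x hx => lt_of_le_of_lt (le_max_left _ _) (hlarge x hx)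
  have hH : ∀ y ∈ loc Z, 4 * (C + 1) ≤ Real.log |(y : ℝ)| := by
    intro y hy
    have h1 := lt_of_le_of_lt (le_max_right X1 (X2 : ℤ)) (hlarge y (mem_loc.1 hy).1)
    have h2 : (X2 : ℝ) < |(y : ℝ)| := by exact_mod_cast h1
    rw [Real.le_log_iff_exp_le (by linarith [loc_ne_zero hy])]
    linarith
  have hδs : 2 * δ * s * (C + 1) = 1 / 4 := by
    rw [hδ]; field_simp; norm_num
  have hδs' : 2 * δ * s ≤ 1 / 4 := by
    have : 2 * δ * s * 1 ≤ 2 * δ * s * (C + 1) := mul_le_mul_of_nonneg_left (by linarith) (by positivity)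
    linarith
  set ind : ℤ → ℝ := fun y => if y ∈ hit P Z then 1 else 0 with hind
  set indl : ℤ → ℝ := fun y => if y ∈ long δ Z then 1 else 0 with hindl
  have hwin : ∀ y ∈ loc Z, ∑ k ∈ range s, ind (nx^[k] y) ≤
      2 * K + s * ∑ k ∈ range s, indl (nx^[k] y) := by
    intro y hy
    have hindl0 : ∀ z, 0 ≤ indl z := fun z => by simp only [hindl]; split_ifs <;> norm_num
    have hsum0 : 0 ≤ ∑ k ∈ range s, indl (nx^[k] y) := sum_nonneg fun k _ => hindl0 _
    by_cases hb : ∃ k < s, nx^[k] y ∈ long δ Z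
    · obtain ⟨k0, hk0, hkl⟩ := hb
      have h1 : ∑ k ∈ range s, ind (nx^[k] y) ≤ ∑ k ∈ range s, (1 : ℝ) := by
        apply sum_le_sum
        intro k _
        simp only [hind]
        split_ifs <;> norm_num
      rw [sum_const, card_range, nsmul_eq_mul, mul_one] at h1
      have h2 : indl (nx^[k0] y) ≤ ∑ k ∈ range s, indl (nx^[k] y) :=
        single_le_sum (f := fun k => indl (nx^[k] y)) (fun k _ => hindl0 _) (mem_range.2 hk0)
      have h3 : indl (nx^[k0] y) = 1 := by simp only [hindl]; rw [if_pos hkl]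
      rw [h3] at h2
      have h4 : (s : ℝ) * 1 ≤ s * ∑ k ∈ range s, indl (nx^[k] y) :=
        mul_le_mul_of_nonneg_left h2 hs0.le
      linarith
    · push Not at hb
      have hHy := hH y hy
      have hne : y ≠ 0 := by
        intro h0
        have := loc_ne_zero hy
        rw [h0] at this
        norm_num at this
      set H := Real.log |(y : ℝ)| with hHdef
      have hshort := short_window hZ hy s δ hδ0 (by linarith) (by linarith) hb
      have hW := hshort s le_rfl
      set B := (range s).filter fun k => nx^[k] y ∈ hit P Z with hBdef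
      have hBcard : B.card ≤ 2 * K := window_hit hP hZ hy s B (by
        intro k hk
        rw [hBdef, mem_filter, mem_range] at hk
        refine ⟨hk.1, hk.2, ?_⟩
        have h2 := log_iter_ge hne (len y k)
        rw [iter_len] at h2
        have h3 : (len y k : ℝ) ≤ len y s := by exact_mod_cast len_mono y hk.1.le
        have h4 : (C + 1) * (len y s : ℝ) ≤ 1 / 4 * H := by
          calc (C + 1) * (len y s : ℝ) ≤ (C + 1) * (2 * δ * s * H) :=
                mul_le_mul_of_nonneg_left hW (by linarith)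
            _ = 2 * δ * s * (C + 1) * H := by ring
            _ = _ := by rw [hδs]
        have h5 : (len y s : ℝ) ≤ 1 / 4 * H := by
          have : 2 * δ * s * H ≤ 1 / 4 * H := mul_le_mul_of_nonneg_right hδs' (by linarith)
          linarith
        linarith)
      have h1 : ∑ k ∈ range s, ind (nx^[k] y) = B.card := by
        simp only [hind]
        rw [← sum_filter, sum_const, nsmul_eq_mul, mul_one]
      rw [h1]
      have h2 : (B.card : ℝ) ≤ 2 * K := by exact_mod_cast hBcard
      have h3 : 0 ≤ (s : ℝ) * ∑ k ∈ range s, indl (nx^[k] y) := by positivity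
      linarith
  have hsum : ∑ y ∈ loc Z, ∑ k ∈ range s, ind (nx^[k] y) = s * (hit P Z).card := by
    rw [sum_comm, sum_congr rfl fun k _ => sum_nx hZ ind k, sum_const, card_range, nsmul_eq_mul]
    congr 1
    simp only [hind]
    rw [← sum_filter, sum_const, nsmul_eq_mul, mul_one]
    congr 2
    ext y
    rw [mem_filter]
    exact ⟨fun h => h.2, fun h => ⟨hit_sub P Z h, h⟩⟩
  have hsuml : ∑ y ∈ loc Z, ∑ k ∈ range s, indl (nx^[k] y) = s * (long δ Z).card := by
    rw [sum_comm, sum_congr rfl fun k _ => sum_nx hZ indl k, sum_const, card_range, nsmul_eq_mul]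
    congr 1
    simp only [hindl]
    rw [← sum_filter, sum_const, nsmul_eq_mul, mul_one]
    congr 2
    ext y
    rw [mem_filter]
    constructor
    · intro h; exact h.2
    · intro h
      refine ⟨?_, h⟩
      unfold long at h
      exact (mem_filter.1 h).1
  have h2 := sum_le_sum hwin
  rw [hsum, sum_add_distrib, sum_const, nsmul_eq_mul, ← mul_sum (loc Z) _ (s : ℝ), hsuml] at h2
  have hm0 : (0 : ℝ) ≤ (loc Z).card := Nat.cast_nonneg _
  set m : ℝ := ((loc Z).card : ℝ) with hm
  have h3 : (s : ℝ) * (s * (long δ Z).card) ≤ s * (ε / 2 * m) := by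
    apply mul_le_mul_of_nonneg_left _ hs0.le
    have h4 := mul_le_mul_of_nonneg_left hlong hs0.le
    have e : (s : ℝ) * (ε / (2 * s) * m) = ε / 2 * m := by field_simp
    rw [e] at h4
    exact h4
  have h4 : m * (2 * K) ≤ s * (ε / 2 * m) := by
    have h5 : 2 * (K : ℝ) ≤ s * (ε / 2) := by
      rw [div_le_iff₀ hε] at hs
      linarith
    calc m * (2 * K) ≤ m * (s * (ε / 2)) := mul_le_mul_of_nonneg_left h5 hm0
      _ = _ := by ring
  have h5 : (s : ℝ) * (hit P Z).card ≤ s * (ε * m) := by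
    have e : (s : ℝ) * (ε * m) = s * (ε / 2 * m) + s * (ε / 2 * m) := by ring
    rw [e]
    linarith
  exact le_of_mul_le_mul_left h5 hs0

/-- all but finitely many cycles -/
theorem count_finite {P : ℤ → Prop} {K : ℕ} {C : ℝ} (hC : 0 ≤ C) (hP : Rep P K C) {ε : ℝ}
    (hε : 0 < ε) : {Z : Finset ℤ | IsCycle Z ∧ ε * (loc Z).card < (hit P Z).card}.Finite := by
  obtain ⟨X, hX⟩ := count_main hC hP hε
  refine (fin_small X).subset ?_
  rintro Z ⟨hZ, hlt⟩
  refine ⟨hZ, ?_⟩
  by_contra hcon
  push Not at hcon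
  have := hX Z hZ hcon
  linarith

end Pool.Agent.J6H87.CY
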