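import Mathlib
import Pool.Agent.J6H87.CY.TC

set_option autoImplicit false

/-!
# Sets of integers which repel each other along the trajectories of the 3x+1 map: uniformity in the set
-/

open Finset

namespace Pool.Agent.J6H87.CY

open Pool.Agent.H319R2 (T)
open Pool.Agent.H547R3 (IsCycle)
open Pool.Agent.R343.SC

/-- **the weighted inequality** -/
theorem weightedU (K : ℕ) {C : ℝ} (hC : 0 ≤ C) {ε : ℝ} (hε : 0 < ε) :
    ∃ C' : ℝ, 0 < C' ∧ ∀ P : ℤ → Prop, Rep P K C → ∀ Z : Finset ℤ, IsCycle Z →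
      ∑ y ∈ hit P Z, Real.log |(y : ℝ)| ≤ ε * ∑ y ∈ loc Z, Real.log |(y : ℝ)| + C' * (loc Z).card := by
  classical
  obtain ⟨s, hs⟩ := exists_nat_ge (4 * (K + 1) / ε)
  have hK0 : (0 : ℝ) ≤ K := Nat.cast_nonneg _
  have hs0 : 0 < (s : ℝ) := lt_of_lt_of_le (by positivity) hs
  set A : ℝ := 2 * K + s * (C + 1) with hA
  have hA0 : 0 < A := by positivity
  obtain ⟨C1, hC1, h1⟩ := sum_ci (show 0 < ε / (2 * A) by positivity)
  refine ⟨A * C1 + A + 1, by positivity, fun P hP Z hZ => ?_⟩
  set L : ℤ → ℝ := fun y => Real.log |(y : ℝ)| with hL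
  have hL0 : ∀ y ∈ loc Z, 0 ≤ L y := fun y hy => Real.log_nonneg (loc_ne_zero hy)
  have hne : ∀ y ∈ loc Z, y ≠ 0 := by
    intro y hy h0
    have := loc_ne_zero hy
    rw [h0] at this
    norm_num at this
  set ind : ℤ → ℝ := fun y => if y ∈ hit P Z then L y else 0 with hind
  have hwin : ∀ y ∈ loc Z, ∑ k ∈ range s, ind (nx^[k] y) ≤
      2 * K * (L y + len y s + 1) + s * ((C + 1) * (len y s + 1)) := by
    intro y hy
    set W : ℝ := (len y s : ℝ) with hW
    have hW0 : 0 ≤ W := Nat.cast_nonneg _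
    set B := (range s).filter fun k => nx^[k] y ∈ hit P Z ∧ (C + 1) * (W + 1) ≤ L (nx^[k] y) with hBdef
    have hBcard : B.card ≤ 2 * K := window_hit hP hZ hy s B (by
      intro k hk
      rw [hBdef, mem_filter, mem_range] at hk
      exact hk)
    have hstep : ∀ k ∈ range s, ind (nx^[k] y) ≤
        (if k ∈ B then (L y + W + 1) else 0) + (C + 1) * (W + 1) := by
      intro k hk
      have hpos : 0 ≤ (C + 1) * (W + 1) := by positivity
      by_cases hkB : k ∈ B
      · rw [if_pos hkB]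
        have hk2 := hkB
        rw [hBdef, mem_filter, mem_range] at hk2
        simp only [hind]
        rw [if_pos hk2.2.1]
        have h2 := log_iter_le (hne y hy) (len y k)
        rw [iter_len] at h2
        have h3 : (len y k : ℝ) ≤ W := by
          rw [hW]; exact_mod_cast len_mono y hk2.1.le
        simp only [hL]
        linarith
      · rw [if_neg hkB, zero_add]
        simp only [hind]
        split_ifs with hh
        · by_contra hcon
          push Not at hcon
          exact hkB (by rw [hBdef, mem_filter]; exact ⟨hk, hh, hcon.le⟩)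
        · exact hpos
    have h2 := sum_le_sum hstep
    have e0 : ∑ k ∈ range s, (if k ∈ B then (L y + W + 1) else 0) =
        (((range s).filter fun k => k ∈ B).card : ℝ) * (L y + W + 1) := by
      rw [← sum_filter, sum_const, nsmul_eq_mul]
    rw [sum_add_distrib, e0, sum_const, card_range, nsmul_eq_mul] at h2
    have h3 : ((range s).filter fun k => k ∈ B).card ≤ 2 * K := by
      refine le_trans (card_le_card ?_) hBcard
      intro k hk
      exact (mem_filter.1 hk).2
    have h4 : (((range s).filter fun k => k ∈ B).card : ℝ) ≤ 2 * K := by exact_mod_cast h3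
    have h5 : 0 ≤ L y + W + 1 := by have := hL0 y hy; linarith
    have h6 := mul_le_mul_of_nonneg_right h4 h5
    linarith
  have hsum : ∑ y ∈ loc Z, ∑ k ∈ range s, ind (nx^[k] y) = s * ∑ y ∈ hit P Z, L y := by
    rw [sum_comm, sum_congr rfl fun k _ => sum_nx hZ ind k, sum_const, card_range, nsmul_eq_mul]
    congr 1
    simp only [hind]
    rw [← sum_filter]
    apply sum_congr _ fun _ _ => rfl
    ext y
    rw [mem_filter]
    exact ⟨fun h => h.2, fun h => ⟨hit_sub P Z h, h⟩⟩
  have h2 := sum_le_sum hwin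
  rw [hsum] at h2
  set m : ℝ := ((loc Z).card : ℝ) with hm
  set SL : ℝ := ∑ y ∈ loc Z, L y with hSL
  set Sc : ℝ := ∑ y ∈ loc Z, (ci y : ℝ) with hSc
  have hlen : ∑ y ∈ loc Z, (len y s : ℝ) = s * Sc := sum_len hZ s
  have e1 : ∑ y ∈ loc Z, (2 * K * (L y + len y s + 1) + s * ((C + 1) * ((len y s : ℝ) + 1))) =
      2 * K * SL + (2 * K + s * (C + 1)) * (s * Sc) + (2 * K + s * (C + 1)) * m := by
    have e2 : ∀ y ∈ loc Z, 2 * (K : ℝ) * (L y + len y s + 1) + s * ((C + 1) * ((len y s : ℝ) + 1)) =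
        2 * K * L y + (2 * K + s * (C + 1)) * (len y s : ℝ) + (2 * K + s * (C + 1)) := by
      intro y _; ring
    rw [sum_congr rfl e2, sum_add_distrib, sum_add_distrib, ← mul_sum, ← mul_sum, hlen, sum_const,
      nsmul_eq_mul]
    ring
  rw [e1, ← hA] at h2
  have h3 := h1 Z hZ
  rw [← hSc, ← hSL, ← hm] at h3
  have hSL0 : 0 ≤ SL := sum_nonneg hL0
  have hm0 : 0 ≤ m := Nat.cast_nonneg _
  -- divide by `s`
  have hs1 : (1 : ℝ) ≤ s := by
    have : 0 < s := by exact_mod_cast hs0
    exact_mod_cast this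
  have h4 : A * (s * Sc) ≤ s * (ε / 2 * SL + A * C1 * m) := by
    have h5 : A * Sc ≤ ε / 2 * SL + A * C1 * m := by
      have h6 := mul_le_mul_of_nonneg_left h3 hA0.le
      have e3 : A * (ε / (2 * A) * SL + C1 * m) = ε / 2 * SL + A * C1 * m := by field_simp
      rw [e3] at h6
      exact h6
    calc A * (s * Sc) = s * (A * Sc) := by ring
      _ ≤ _ := mul_le_mul_of_nonneg_left h5 hs0.le
  have h5 : 2 * K * SL ≤ s * (ε / 2 * SL) := by
    have h6 : 2 * (K : ℝ) ≤ s * (ε / 2) := by
      rw [div_le_iff₀ hε] at hs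
      linarith
    calc 2 * K * SL ≤ s * (ε / 2) * SL := mul_le_mul_of_nonneg_right h6 hSL0
      _ = _ := by ring
  have h6 : A * m ≤ s * (A * m) := by
    have : 0 ≤ A * m := by positivity
    nlinarith
  have h7 : s * ∑ y ∈ hit P Z, L y ≤ s * (ε * SL + (A * C1 + A + 1) * m) := by
    have h8 : (s : ℝ) * (ε * SL + (A * C1 + A + 1) * m) =
        s * (ε / 2 * SL) + s * (ε / 2 * SL + A * C1 * m) + s * (A * m) + s * m := by ring
    have h9 : 0 ≤ s * m := by positivity
    linarith
  exact le_of_mul_le_mul_left h7 hs0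

/-- all but finitely many cycles satisfy the weighted inequality without the error term -/
theorem weightedU_finite (K : ℕ) {C : ℝ} (hC : 0 ≤ C) {ε : ℝ}
    (hε : 0 < ε) : {Z : Finset ℤ | IsCycle Z ∧ ∃ P : ℤ → Prop, Rep P K C ∧
      ε * ∑ y ∈ loc Z, Real.log |(y : ℝ)| < ∑ y ∈ hit P Z, Real.log |(y : ℝ)|}.Finite := by
  obtain ⟨C', hC', h⟩ := weightedU K hC (show 0 < ε / 2 by positivity)
  obtain ⟨X, hX⟩ := exists_nat_ge (Real.exp (2 * C' / ε))
  refine (fin_small X).subset ?_
  rintro Z ⟨hZ, P, hP, hlt⟩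
  refine ⟨hZ, ?_⟩
  by_contra hsmall
  push Not at hsmall
  have h1 := h P hP Z hZ
  have h2 : ((loc Z).card : ℝ) * (2 * C' / ε) ≤ ∑ y ∈ loc Z, Real.log |(y : ℝ)| := by
    rw [← nsmul_eq_mul, ← Finset.sum_const]
    apply Finset.sum_le_sum
    intro y hy
    have h3 := hsmall y (mem_loc.1 hy).1
    have h4 : (X : ℝ) < |(y : ℝ)| := by exact_mod_cast h3
    rw [Real.le_log_iff_exp_le (by linarith [loc_ne_zero hy])]
    linarith
  have h5 : C' * (loc Z).card ≤ ε / 2 * ∑ y ∈ loc Z, Real.log |(y : ℝ)| := by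
    have h6 := mul_le_mul_of_nonneg_left h2 (show 0 ≤ ε / 2 by positivity)
    calc C' * ((loc Z).card : ℝ) = ε / 2 * ((loc Z).card * (2 * C' / ε)) := by field_simp
      _ ≤ _ := h6
  linarith

/-- **the count** -/
theorem countU_main (K : ℕ) {C : ℝ} (hC : 0 ≤ C) {ε : ℝ}
    (hε : 0 < ε) : ∃ X : ℤ, ∀ P : ℤ → Prop, Rep P K C → ∀ Z : Finset ℤ, IsCycle Z → (∀ x ∈ Z, X < |x|) →
      ((hit P Z).card : ℝ) ≤ ε * (loc Z).card := by
  classical
  obtain ⟨s, hs⟩ := exists_nat_ge (4 * (K + 1) / ε)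
  have hK0 : (0 : ℝ) ≤ K := Nat.cast_nonneg _
  have hs0 : 0 < (s : ℝ) := lt_of_lt_of_le (by positivity) hs
  set δ : ℝ := 1 / (8 * s * (C + 1)) with hδ
  have hδ0 : 0 < δ := by positivity
  obtain ⟨X1, hX1⟩ := main δ (ε / (2 * s)) hδ0 (by positivity)
  obtain ⟨X2, hX2⟩ := exists_nat_ge (Real.exp (4 * (C + 1)))
  refine ⟨max X1 X2, fun P hP Z hZ hlarge => ?_⟩
  have hlong := hX1 Z hZ fun x hx => lt_of_le_of_lt (le_max_left _ _) (hlarge x hx)
  have hH : ∀ y ∈ loc Z, 4 * (C + 1) ≤ Real.log |(y : ℝ)| := by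
    intro y hy
    have h1 := lt_of_le_of_lt (le_max_right X1 (X2 : ℤ)) (hlarge y (mem_loc.1 hy).1)
    have h2 : (X2 : ℝ) < |(y : ℝ)| := by exact_mod_cast h1
    rw [Real.le_log_iff_exp_le (by linarith [loc_ne_zero hy])]
    linarith
  have hδs : 2 * δ * s * (C + 1) = 1 / 4 := by
    rw [hδ]; field_simp; norm_num
  have hδs' : 2 * δ * s ≤ 1 / 4 := by
    have : 2 * δ * s * 1 ≤ 2 * δ * s * (C + 1) := mul_le_mul_of_nonneg_left (by linarith) (by positivity)
    linarith
  set ind : ℤ → ℝ := fun y => if y ∈ hit P Z then 1 else 0 with hind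
  set indl : ℤ → ℝ := fun y => if y ∈ long δ Z then 1 else 0 with hindl
  have hwin : ∀ y ∈ loc Z, ∑ k ∈ range s, ind (nx^[k] y) ≤
      2 * K + s * ∑ k ∈ range s, indl (nx^[k] y) := by
    intro y hy
    have hindl0 : ∀ z, 0 ≤ indl z := fun z => by simp only [hindl]; split_ifs <;> norm_num
    have hsum0 : 0 ≤ ∑ k ∈ range s, indl (nx^[k] y) := sum_nonneg fun k _ => hindl0 _
    by_cases hb : ∃ k < s, nx^[k] y ∈ long δ Z
    · obtain ⟨k0, hk0, hkl⟩ := hb
      have h1 : ∑ k ∈ range s, ind (nx^[k] y) ≤ ∑ k ∈ range s, (1 : ℝ) := by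
        apply sum_le_sum
        intro k _
        simp only [hind]
        split_ifs <;> norm_num
      rw [sum_const, card_range, nsmul_eq_mul, mul_one] at h1
      have h2 : indl (nx^[k0] y) ≤ ∑ k ∈ range s, indl (nx^[k] y) :=
        single_le_sum (f := fun k => indl (nx^[k] y)) (fun k _ => hindl0 _) (mem_range.2 hk0)
      have h3 : indl (nx^[k0] y) = 1 := by simp only [hindl]; rw [if_pos hkl]
      rw [h3] at h2
      have h4 : (s : ℝ) * 1 ≤ s * ∑ k ∈ range s, indl (nx^[k] y) :=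
        mul_le_mul_of_nonneg_left h2 hs0.le
      linarith
    · push Not at hb
      have hHy := hH y hy
      have hne : y ≠ 0 := by
        intro h0
        have := loc_ne_zero hy
        rw [h0] at this
        norm_num at this
      set H := Real.log |(y : ℝ)| with hHdef
      have hshort := short_window hZ hy s δ hδ0 (by linarith) (by linarith) hb
      have hW := hshort s le_rfl
      set B := (range s).filter fun k => nx^[k] y ∈ hit P Z with hBdef
      have hBcard : B.card ≤ 2 * K := window_hit hP hZ hy s B (by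
        intro k hk
        rw [hBdef, mem_filter, mem_range] at hk
        refine ⟨hk.1, hk.2, ?_⟩
        have h2 := log_iter_ge hne (len y k)
        rw [iter_len] at h2
        have h3 : (len y k : ℝ) ≤ len y s := by exact_mod_cast len_mono y hk.1.le
        have h4 : (C + 1) * (len y s : ℝ) ≤ 1 / 4 * H := by
          calc (C + 1) * (len y s : ℝ) ≤ (C + 1) * (2 * δ * s * H) :=
                mul_le_mul_of_nonneg_left hW (by linarith)
            _ = 2 * δ * s * (C + 1) * H := by ring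
            _ = _ := by rw [hδs]
        have h5 : (len y s : ℝ) ≤ 1 / 4 * H := by
          have : 2 * δ * s * H ≤ 1 / 4 * H := mul_le_mul_of_nonneg_right hδs' (by linarith)
          linarith
        linarith)
      have h1 : ∑ k ∈ range s, ind (nx^[k] y) = B.card := by
        simp only [hind]
        rw [← sum_filter, sum_const, nsmul_eq_mul, mul_one]
      rw [h1]
      have h2 : (B.card : ℝ) ≤ 2 * K := by exact_mod_cast hBcard
      have h3 : 0 ≤ (s : ℝ) * ∑ k ∈ range s, indl (nx^[k] y) := by positivity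
      linarith
  have hsum : ∑ y ∈ loc Z, ∑ k ∈ range s, ind (nx^[k] y) = s * (hit P Z).card := by
    rw [sum_comm, sum_congr rfl fun k _ => sum_nx hZ ind k, sum_const, card_range, nsmul_eq_mul]
    congr 1
    simp only [hind]
    rw [← sum_filter, sum_const, nsmul_eq_mul, mul_one]
    congr 2
    ext y
    rw [mem_filter]
    exact ⟨fun h => h.2, fun h => ⟨hit_sub P Z h, h⟩⟩
  have hsuml : ∑ y ∈ loc Z, ∑ k ∈ range s, indl (nx^[k] y) = s * (long δ Z).card := by
    rw [sum_comm, sum_congr rfl fun k _ => sum_nx hZ indl k, sum_const, card_range, nsmul_eq_mul]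
    congr 1
    simp only [hindl]
    rw [← sum_filter, sum_const, nsmul_eq_mul, mul_one]
    congr 2
    ext y
    rw [mem_filter]
    constructor
    · intro h; exact h.2
    · intro h
      refine ⟨?_, h⟩
      unfold long at h
      exact (mem_filter.1 h).1
  have h2 := sum_le_sum hwin
  rw [hsum, sum_add_distrib, sum_const, nsmul_eq_mul, ← mul_sum (loc Z) _ (s : ℝ), hsuml] at h2
  have hm0 : (0 : ℝ) ≤ (loc Z).card := Nat.cast_nonneg _
  set m : ℝ := ((loc Z).card : ℝ) with hm
  have h3 : (s : ℝ) * (s * (long δ Z).card) ≤ s * (ε / 2 * m) := by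
    apply mul_le_mul_of_nonneg_left _ hs0.le
    have h4 := mul_le_mul_of_nonneg_left hlong hs0.le
    have e : (s : ℝ) * (ε / (2 * s) * m) = ε / 2 * m := by field_simp
    rw [e] at h4
    exact h4
  have h4 : m * (2 * K) ≤ s * (ε / 2 * m) := by
    have h5 : 2 * (K : ℝ) ≤ s * (ε / 2) := by
      rw [div_le_iff₀ hε] at hs
      linarith
    calc m * (2 * K) ≤ m * (s * (ε / 2)) := mul_le_mul_of_nonneg_left h5 hm0
      _ = _ := by ring
  have h5 : (s : ℝ) * (hit P Z).card ≤ s * (ε * m) := by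
    have e : (s : ℝ) * (ε * m) = s * (ε / 2 * m) + s * (ε / 2 * m) := by ring
    rw [e]
    linarith
  exact le_of_mul_le_mul_left h5 hs0

/-- all but finitely many cycles -/
theorem countU_finite (K : ℕ) {C : ℝ} (hC : 0 ≤ C) {ε : ℝ}
    (hε : 0 < ε) : {Z : Finset ℤ | IsCycle Z ∧ ∃ P : ℤ → Prop, Rep P K C ∧
      ε * (loc Z).card < (hit P Z).card}.Finite := by
  obtain ⟨X, hX⟩ := countU_main K hC hε
  refine (fin_small X).subset ?_
  rintro Z ⟨hZ, P, hP, hlt⟩
  refine ⟨hZ, ?_⟩
  by_contra hcon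
  push Not at hcon
  have := hX P hP Z hZ hcon
  linarith

end Pool.Agent.J6H87.CY
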