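import Mathlib
import Pool.Agent.J6H87.CY.GC
import Pool.Agent.J6H87.CY.TU

set_option autoImplicit false

/-!
# The circuits which contain a number with a large divisor from a set with small common multiples
-/

open Finset Polynomial

namespace Pool.Agent.J6H87.CY

open Pool.Agent.H319R2 (T od)
open Pool.Agent.H547R3 (IsCycle)
open Pool.Agent.R343.SC

/-- the positive elements of `G` up to any `X ≥ 2` have a common multiple `≤ X ^ B` -/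
def SlowG (B : ℕ) (G : Set ℕ) : Prop :=
  ∀ X : ℕ, 2 ≤ X → ∃ M : ℕ, 0 < M ∧ M ≤ X ^ B ∧ ∀ g ∈ G, 0 < g → g ≤ X → g ∣ M

/-- `f x ≠ 0` has a divisor `g ∈ G` with `g ≥ |x| ^ δ` -/
def PD (f : ℤ[X]) (G : Set ℕ) (δ : ℝ) (b : ℕ) (x : ℤ) : Prop :=
  f.eval x ≠ 0 ∧ (∃ g ∈ G, (g : ℤ) ∣ f.eval x ∧ |(x : ℝ)| ^ δ ≤ g) ∧ ¬ ShadowG b f x

/-- the bound for the values -/
def EE (f : ℤ[X]) : ℕ := (len1 f + 1) * 3 ^ f.natDegree + 1

lemma abs_eval_le (f : ℤ[X]) {x : ℤ} {y : ℝ} (hy : 1 ≤ y) (hx : |(x : ℝ)| ≤ y) :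
    |((f.eval x : ℤ) : ℝ)| ≤ len1 f * y ^ f.natDegree := by
  rw [eval_eq_sum_range, len1]
  push_cast
  rw [sum_mul]
  refine (abs_sum_le_sum_abs _ _).trans (sum_le_sum ?_)
  intro k hk
  rw [mem_range] at hk
  rw [abs_mul, abs_pow, Nat.cast_natAbs, Int.cast_abs]
  apply mul_le_mul_of_nonneg_left _ (abs_nonneg _)
  calc |(x : ℝ)| ^ k ≤ y ^ k := pow_le_pow_left₀ (abs_nonneg _) hx k
    _ ≤ y ^ f.natDegree := pow_le_pow_right₀ hy (by omega)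

lemma abs_eval_le_EE (f : ℤ[X]) {x : ℤ} :
    (f.eval x).natAbs ≤ EE f ^ (⌊Real.log |(x : ℝ)|⌋₊ + 1) := by
  set n := ⌊Real.log |(x : ℝ)|⌋₊ with hn
  have h1 : |(x : ℝ)| ≤ 3 ^ (n + 1) := by
    rcases eq_or_ne x 0 with h0 | h0
    · rw [h0]; simp
    · have h2 : (0 : ℝ) < |(x : ℝ)| := abs_pos.2 (by exact_mod_cast h0)
      have h3 : Real.log |(x : ℝ)| < n + 1 := Nat.lt_floor_add_one _
      have h4 : (1 : ℝ) < Real.log 3 := by
        rw [Real.lt_log_iff_exp_lt (by norm_num)]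
        have := Real.exp_one_lt_d9
        linarith
      rw [← Real.log_le_log_iff h2 (by positivity), Real.log_pow]
      push_cast
      have hn0 : (0 : ℝ) ≤ n := Nat.cast_nonneg _
      nlinarith
  have h2 := abs_eval_le f (one_le_pow₀ (by norm_num : (1 : ℝ) ≤ 3)) h1
  have h3 : (((f.eval x).natAbs : ℕ) : ℝ) ≤ len1 f * (3 ^ (n + 1)) ^ f.natDegree := by
    rw [Nat.cast_natAbs, Int.cast_abs]
    exact h2
  have h4 : (f.eval x).natAbs ≤ len1 f * (3 ^ (n + 1)) ^ f.natDegree := by exact_mod_cast h3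
  refine h4.trans ?_
  have h5 : len1 f ≤ (len1 f + 1) ^ (n + 1) := by
    refine (Nat.le_succ _).trans ?_
    exact Nat.le_self_pow (by omega) _
  calc len1 f * (3 ^ (n + 1)) ^ f.natDegree
      ≤ (len1 f + 1) ^ (n + 1) * (3 ^ (n + 1)) ^ f.natDegree := Nat.mul_le_mul_right _ h5
    _ = ((len1 f + 1) * 3 ^ f.natDegree) ^ (n + 1) := by
        rw [mul_pow, ← pow_mul, ← pow_mul, mul_comm (n + 1)]
    _ ≤ EE f ^ (n + 1) := Nat.pow_le_pow_left (by unfold EE; omega) _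

lemma two_le_EE (f : ℤ[X]) : 2 ≤ EE f := by
  unfold EE
  have : 0 < (len1 f + 1) * 3 ^ f.natDegree := by positivity
  omega

/-- the chain of a slow set -/
noncomputable def chn (f : ℤ[X]) (G : Set ℕ) (n : ℕ) : ℕ :=
  open Classical in ((Icc 1 (EE f ^ (n + 1))).filter fun g => g ∈ G).lcm id

lemma chn_spec (f : ℤ[X]) {B : ℕ} {G : Set ℕ} (hG : SlowG B G) (n : ℕ) :
    0 < chn f G n ∧ chn f G n ∣ chn f G (n + 1) ∧ chn f G n ≤ (EE f ^ B) ^ (n + 1) := by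
  classical
  have h2 := two_le_EE f
  obtain ⟨M, hM0, hM1, hM2⟩ := hG (EE f ^ (n + 1)) (h2.trans (Nat.le_self_pow (by omega) _))
  have hdvd : chn f G n ∣ M := by
    unfold chn
    apply Finset.lcm_dvd
    intro g hg
    rw [mem_filter, mem_Icc] at hg
    exact hM2 g hg.2 hg.1.1 hg.1.2
  refine ⟨Nat.pos_of_dvd_of_pos hdvd hM0, ?_, ?_⟩
  · unfold chn
    apply Finset.lcm_dvd
    intro g hg
    rw [mem_filter, mem_Icc] at hg
    apply Finset.dvd_lcm (f := id)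
    rw [mem_filter, mem_Icc]
    exact ⟨⟨hg.1.1, hg.1.2.trans (Nat.pow_le_pow_right (by omega) (by omega))⟩, hg.2⟩
  · refine (Nat.le_of_dvd hM0 hdvd).trans (hM1.trans ?_)
    rw [← pow_mul, ← pow_mul, mul_comm]

lemma PD_sub (f : ℤ[X]) (G : Set ℕ) (δ : ℝ) (b : ℕ) {x : ℤ} (h : PD f G δ b x) :
    PG (chn f G) f δ b x := by
  classical
  obtain ⟨h0, ⟨g, hgG, hgd, hg⟩, hs⟩ := h
  refine ⟨?_, hs⟩
  have h1 : g ∣ (f.eval x).natAbs := Int.natCast_dvd.1 hgd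
  have h2 : 0 < (f.eval x).natAbs := Int.natAbs_pos.2 h0
  have h3 : 0 < g := Nat.pos_of_dvd_of_pos h1 h2
  have h4 : g ≤ EE f ^ (⌊Real.log |(x : ℝ)|⌋₊ + 1) := (Nat.le_of_dvd h2 h1).trans (abs_eval_le_EE f)
  have h5 : g ∣ chn f G ⌊Real.log |(x : ℝ)|⌋₊ := by
    unfold chn
    apply Finset.dvd_lcm (f := id)
    rw [mem_filter, mem_Icc]
    exact ⟨⟨h3, h4⟩, hgG⟩
  have h6 : g ≤ Nat.gcd (chn f G ⌊Real.log |(x : ℝ)|⌋₊) (f.eval x).natAbs :=
    Nat.le_of_dvd (Nat.gcd_pos_of_pos_right _ h2) (Nat.dvd_gcd h5 h1)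
  refine hg.trans ?_
  exact_mod_cast h6

lemma Rep.anti {P Q : ℤ → Prop} {K : ℕ} {C : ℝ} (hQ : Rep Q K C) (h : ∀ x, P x → Q x) : Rep P K C := by
  intro x N a h1 h2
  exact hQ x N a (fun i hi => ⟨(h1 i hi).1, h _ (h1 i hi).2.1, (h1 i hi).2.2⟩) h2

/-- **repulsion, uniformly in the slow set** -/
theorem rep_PD (f : ℤ[X]) {δ : ℝ} (hδ : 0 < δ) (b B : ℕ) :
    ∃ (K : ℕ) (C : ℝ), 0 ≤ C ∧ ∀ G : Set ℕ, SlowG B G → Rep (PD f G δ b) K C := by
  rcases eq_or_ne f 0 with hf | hf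
  · refine ⟨0, 0, le_rfl, fun G _ x N a h1 _ => ?_⟩
    apply (h1 0 le_rfl).2.1.1
    rw [hf, eval_zero]
  · obtain ⟨K, C, hC, h⟩ := rep_gcd hf hδ b (EE f ^ B)
    refine ⟨K, C, hC, fun G hG => ?_⟩
    exact (h (chn f G) fun n => ⟨(chn_spec f hG n).1, (chn_spec f hG n).2.1,
      (chn_spec f hG n).2.2⟩).anti fun x hx => PD_sub f G δ b hx

theorem divisor_finite (f : ℤ[X]) {δ ε : ℝ} (hδ : 0 < δ) (hε : 0 < ε) (b B : ℕ) :
    {Z : Finset ℤ | IsCycle Z ∧ ∃ G : Set ℕ, SlowG B G ∧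
      (ε * (loc Z).card < (hit (PD f G δ b) Z).card ∨
        ε * ∑ y ∈ loc Z, Real.log |(y : ℝ)| < ∑ y ∈ hit (PD f G δ b) Z, Real.log |(y : ℝ)|)}.Finite := by
  obtain ⟨K, C, hC, h⟩ := rep_PD f hδ b B
  refine ((countU_finite K hC hε).union (weightedU_finite K hC hε)).subset ?_
  rintro Z ⟨hZ, G, hG, h1 | h1⟩
  · exact Or.inl ⟨hZ, _, h G hG, h1⟩
  · exact Or.inr ⟨hZ, _, h G hG, h1⟩

/-! ### `S`-parts -/

/-- the `S`-part -/
def sP (S : Finset ℕ) (k : ℤ) : ℕ := ∏ p ∈ S, p ^ padicValInt p k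

lemma sP_dvd {S : Finset ℕ} (hS : ∀ p ∈ S, p.Prime) (k : ℤ) : sP S k ∣ k.natAbs := by
  classical
  unfold sP
  apply Finset.prod_dvd_of_isRelPrime
  · intro p hp q hq hpq
    exact Nat.coprime_iff_isRelPrime.1 (Nat.Coprime.pow _ _ ((Nat.coprime_primes (hS p hp) (hS q hq)).2 hpq))
  · intro p _
    exact pow_padicValNat_dvd

/-- the divisors of powers of the product of `S` -/
def GS (S : Finset ℕ) : Set ℕ := {g | ∃ k : ℤ, g = sP S k}

lemma slow_GS {S : Finset ℕ} (hS : ∀ p ∈ S, p.Prime) {s : ℕ} (hs : S.card ≤ s) : SlowG s (GS S) := by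
  classical
  intro X hX
  refine ⟨∏ p ∈ S, p ^ Nat.log p X, prod_pos fun p hp => pow_pos (hS p hp).pos _, ?_, ?_⟩
  · calc ∏ p ∈ S, p ^ Nat.log p X ≤ ∏ _p ∈ S, X :=
          prod_le_prod' fun p _ => Nat.pow_log_le_self p (by omega)
      _ = X ^ S.card := by rw [prod_const]
      _ ≤ X ^ s := Nat.pow_le_pow_right (by omega) hs
  · rintro g ⟨k, rfl⟩ hg0 hgX
    unfold sP at hgX ⊢
    apply prod_dvd_prod_of_dvd
    intro p hp
    apply pow_dvd_pow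
    apply Nat.le_log_of_pow_le (hS p hp).one_lt
    refine le_trans ?_ hgX
    exact Finset.single_le_prod' (f := fun p => p ^ padicValInt p k)
      (fun q hq => Nat.one_le_pow _ _ (hS q hq).pos) hp

end Pool.Agent.J6H87.CY
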