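import Mathlib

set_option autoImplicit false

/-!
# Values of a polynomial related by a linear equation with small coefficients
-/

open Finset

namespace Pool.Agent.J6H87.CY

/-- difference of powers of rationals with bounded denominator -/
lemma pow_sub_ge_aux {q a b : ℚ} (hq : 0 < q) (d : ℕ) (ha : ∃ m : ℤ, q * |a| = m)
    (hb : ∃ m : ℤ, q * |b| = m) (hab : |b| < |a|) : |a| ^ d / q ≤ |a ^ (d + 1) - b ^ (d + 1)| := by
  obtain ⟨m, hm⟩ := ha
  obtain ⟨m', hm'⟩ := hb
  have h1 : (m' : ℚ) < m := by rw [← hm, ← hm']; exact mul_lt_mul_of_pos_left hab hq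
  have h2 : m' + 1 ≤ m := by exact_mod_cast h1
  have h3 : (m' : ℚ) + 1 ≤ m := by exact_mod_cast h2
  have h4 : 1 / q ≤ |a| - |b| := by
    rw [div_le_iff₀ hq]
    linarith
  have h5 : |a| ^ (d + 1) - |b| ^ (d + 1) ≤ |a ^ (d + 1) - b ^ (d + 1)| := by
    have := abs_sub_abs_le_abs_sub (a ^ (d + 1)) (b ^ (d + 1))
    rwa [abs_pow, abs_pow] at this
  have h6 : |b| ^ (d + 1) ≤ |a| ^ d * |b| := by
    rw [pow_succ]
    exact mul_le_mul_of_nonneg_right (pow_le_pow_left₀ (abs_nonneg _) hab.le d) (abs_nonneg _)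
  have h7 : |a| ^ d * (1 / q) ≤ |a| ^ d * (|a| - |b|) := mul_le_mul_of_nonneg_left h4 (by positivity)
  calc |a| ^ d / q = |a| ^ d * (1 / q) := by ring
    _ ≤ |a| ^ d * (|a| - |b|) := h7
    _ = |a| ^ (d + 1) - |a| ^ d * |b| := by ring
    _ ≤ |a| ^ (d + 1) - |b| ^ (d + 1) := by linarith
    _ ≤ _ := h5

lemma pow_sub_ge {q a b : ℚ} (hq : 1 ≤ q) (d : ℕ) (ha : ∃ m : ℤ, q * a = m)
    (hb : ∃ m : ℤ, q * b = m) (hb1 : 1 ≤ |b|) (hab : a ^ (d + 1) ≠ b ^ (d + 1)) :
    max |a| |b| ^ d / q ≤ |a ^ (d + 1) - b ^ (d + 1)| := by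
  have hq0 : 0 < q := by linarith
  have ha' : ∃ m : ℤ, q * |a| = m := by
    obtain ⟨m, hm⟩ := ha
    refine ⟨|m|, ?_⟩
    push_cast
    rw [← hm, abs_mul, abs_of_pos hq0]
  have hb' : ∃ m : ℤ, q * |b| = m := by
    obtain ⟨m, hm⟩ := hb
    refine ⟨|m|, ?_⟩
    push_cast
    rw [← hm, abs_mul, abs_of_pos hq0]
  rcases lt_trichotomy |a| |b| with h | h | h
  · rw [max_eq_right h.le, abs_sub_comm]
    exact pow_sub_ge_aux hq0 d hb' ha' h
  · rw [h, max_self]
    have h1 : |b| ^ d / q ≤ |b| ^ (d + 1) := by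
      rw [div_le_iff₀ hq0, pow_succ]
      have h2 : 1 ≤ |b| * q := by nlinarith
      have h3 : (0 : ℚ) ≤ |b| ^ d := by positivity
      nlinarith
    rcases abs_eq_abs.1 h with h4 | h4
    · exact absurd (by rw [h4]) hab
    · have h5 : a ^ (d + 1) = - b ^ (d + 1) := by
        have h6 : a ^ (d + 1) = b ^ (d + 1) ∨ a ^ (d + 1) = - b ^ (d + 1) := by
          rw [h4, neg_pow]
          rcases neg_one_pow_eq_or ℚ (d + 1) with h5 | h5 <;> rw [h5]
          · left; ring
          · right; ring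
        rcases h6 with h6 | h6
        · exact absurd h6 hab
        · exact h6
      rw [h5]
      have h7 : |(-b ^ (d + 1) - b ^ (d + 1))| = 2 * |b| ^ (d + 1) := by
        rw [show -b ^ (d + 1) - b ^ (d + 1) = -(2 * b ^ (d + 1)) by ring, abs_neg, abs_mul, abs_pow]
        norm_num
      rw [h7]
      have h8 : (0 : ℚ) ≤ |b| ^ (d + 1) := by positivity
      linarith
  · rw [max_eq_left h.le]
    exact pow_sub_ge_aux hq0 d ha' hb' h

/-- the sum of the absolute values of the coefficients -/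
def GG (h : ℕ → ℚ) (d : ℕ) : ℚ := ∑ j ∈ range (d + 1), |h j|

/-- the sum of the reciprocals of the absolute values of the nonzero coefficients -/
def QQ (h : ℕ → ℚ) (d : ℕ) : ℚ := ∑ j ∈ range (d + 1), |h j|⁻¹

lemma inv_le_QQ (h : ℕ → ℚ) (d : ℕ) {j : ℕ} (hj : j ≤ d) : |h j|⁻¹ ≤ QQ h d :=
  single_le_sum (f := fun j => |h j|⁻¹) (fun _ _ => by positivity) (mem_range.2 (by omega))

lemma GG_nonneg (h : ℕ → ℚ) (d : ℕ) : 0 ≤ GG h d := sum_nonneg fun _ _ => abs_nonneg _

lemma sum_abs_le (h : ℕ → ℚ) {d e : ℕ} (he : e ≤ d) : ∑ j ∈ range e, |h j| ≤ GG h d :=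
  sum_le_sum_of_subset_of_nonneg (by intro i hi; rw [mem_range] at *; omega) fun _ _ _ => abs_nonneg _

/-- the bound -/
def BB (h : ℕ → ℚ) (d : ℕ) (q : ℚ) : ℚ := q * (1 + 2 * GG h d) * QQ h d + 1

/-- lower order terms -/
lemma low_terms (h c : ℕ → ℚ) {d e : ℕ} (he : e < d) (Y M : ℚ) (hY : 1 ≤ Y) (hM : 1 ≤ M)
    (hc : ∀ j, j ≤ e → |c j| ≤ 2 * Y) (w : ℚ) (hw : |w| ≤ M) (R : ℚ) (hR : |R| ≤ Y) :
    |R - ∑ j ∈ range (e + 1), h j * c j * w ^ j| ≤ (1 + 2 * GG h d) * Y * M ^ e := by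
  have hMe : 1 ≤ M ^ e := one_le_pow₀ hM
  have h1 : |∑ j ∈ range (e + 1), h j * c j * w ^ j| ≤ 2 * GG h d * Y * M ^ e := by
    calc |∑ j ∈ range (e + 1), h j * c j * w ^ j| ≤ ∑ j ∈ range (e + 1), |h j * c j * w ^ j| :=
          abs_sum_le_sum_abs _ _
      _ ≤ ∑ j ∈ range (e + 1), |h j| * (2 * Y * M ^ e) := by
          apply sum_le_sum
          intro j hj
          rw [mem_range] at hj
          rw [abs_mul, abs_mul, abs_pow, mul_assoc]
          apply mul_le_mul_of_nonneg_left _ (abs_nonneg _)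
          apply mul_le_mul (hc j (by omega)) _ (by positivity) (by positivity)
          exact (pow_le_pow_left₀ (abs_nonneg _) hw j).trans (pow_le_pow_right₀ hM (by omega))
      _ = (∑ j ∈ range (e + 1), |h j|) * (2 * Y * M ^ e) := by rw [sum_mul]
      _ ≤ GG h d * (2 * Y * M ^ e) :=
          mul_le_mul_of_nonneg_right (sum_abs_le h (by omega)) (by positivity)
      _ = _ := by ring
  have h2 : |R| ≤ Y * M ^ e := by
    calc |R| ≤ Y * 1 := by linarith
      _ ≤ _ := mul_le_mul_of_nonneg_left hMe (by linarith)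
  calc |R - ∑ j ∈ range (e + 1), h j * c j * w ^ j| ≤ |R| + |∑ j ∈ range (e + 1), h j * c j * w ^ j| :=
        abs_sub _ _
    _ ≤ Y * M ^ e + 2 * GG h d * Y * M ^ e := add_le_add h2 h1
    _ = _ := by ring

/-- **the algebraic core** -/
theorem poly_core (h : ℕ → ℚ) (d : ℕ) (hd : 2 ≤ d) (hA : h d ≠ 0) (hd1 : h (d - 1) = 0)
    (q : ℚ) (hq : 1 ≤ q) (U V : ℕ) (hU : 1 ≤ U) (hV : 1 ≤ V) (hUV : ∀ k, 1 ≤ k → U ^ k ≠ V ^ k)
    (Y : ℚ) (hUY : (U : ℚ) ^ d ≤ Y) (hVY : (V : ℚ) ^ d ≤ Y) (w0 w1 : ℚ) (h0 : ∃ m : ℤ, q * w0 = m)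
    (h1 : ∃ m : ℤ, q * w1 = m) (R : ℚ) (hR : |R| ≤ Y)
    (heq : (U : ℚ) ^ d * ∑ j ∈ range (d + 1), h j * w1 ^ j -
      (V : ℚ) ^ d * ∑ j ∈ range (d + 1), h j * w0 ^ j = R)
    (hbig : BB h d q * Y < |w0|) :
    (∀ j, 0 < j → j < d → h j = 0) ∧ h 0 * ((U : ℚ) ^ d - (V : ℚ) ^ d) = R := by
  have hUq : (1 : ℚ) ≤ U := by exact_mod_cast hU
  have hVq : (1 : ℚ) ≤ V := by exact_mod_cast hV
  have hY1 : 1 ≤ Y := (one_le_pow₀ hUq).trans hUY
  have hG := GG_nonneg h d
  have hQ0 : 0 ≤ QQ h d := sum_nonneg fun _ _ => by positivity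
  have hBB : 1 ≤ BB h d q := by
    unfold BB
    have : 0 ≤ q * (1 + 2 * GG h d) * QQ h d := by positivity
    linarith
  have hw0 : 1 ≤ |w0| := by nlinarith
  set W1 : ℚ := U * w1 with hW1
  set W0 : ℚ := V * w0 with hW0
  have hW0w : |w0| ≤ |W0| := by
    rw [hW0, abs_mul, abs_of_nonneg (by linarith : (0 : ℚ) ≤ V)]
    nlinarith [abs_nonneg w0]
  have hW0big : BB h d q * Y < |W0| := lt_of_lt_of_le hbig hW0w
  have hW01 : 1 ≤ |W0| := hw0.trans hW0w
  have hUk : ∀ j ≤ d, |(U : ℚ) ^ (d - j)| ≤ Y := by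
    intro j hj
    rw [abs_of_nonneg (by positivity)]
    exact (pow_le_pow_right₀ hUq (by omega)).trans hUY
  have hVk : ∀ j ≤ d, |(V : ℚ) ^ (d - j)| ≤ Y := by
    intro j hj
    rw [abs_of_nonneg (by positivity)]
    exact (pow_le_pow_right₀ hVq (by omega)).trans hVY
  -- the equation in terms of `W1`, `W0`
  have hexp : ∀ (u w : ℚ), u ^ d * ∑ j ∈ range (d + 1), h j * w ^ j =
      ∑ j ∈ range (d + 1), h j * (u ^ (d - j) * (u * w) ^ j) := by
    intro u w
    rw [mul_sum]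
    apply sum_congr rfl
    intro j hj
    rw [mem_range] at hj
    have e : u ^ d = u ^ (d - j) * u ^ j := by rw [← pow_add]; congr 1; omega
    rw [e, mul_pow]
    ring
  rw [hexp, hexp, ← hW1, ← hW0, ← sum_sub_distrib, sum_range_succ] at heq
  simp only [Nat.sub_self, pow_zero, one_mul] at heq
  have hsplit : d = (d - 2) + 1 + 1 := by omega
  have hdm : d - 1 = d - 2 + 1 := by omega
  have hrest : ∑ j ∈ range d, (h j * ((U : ℚ) ^ (d - j) * W1 ^ j) - h j * ((V : ℚ) ^ (d - j) * W0 ^ j)) =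
      ∑ j ∈ range (d - 2 + 1), (h j * ((U : ℚ) ^ (d - j) * W1 ^ j) -
        h j * ((V : ℚ) ^ (d - j) * W0 ^ j)) := by
    symm
    apply sum_subset
    · intro j hj; rw [mem_range] at *; omega
    · intro j hj hj'
      rw [mem_range] at *
      have e1 : h j = 0 := by rw [show j = d - 1 by omega]; exact hd1
      rw [e1, zero_mul, zero_mul, sub_zero]
  -- step A
  have hpow : W1 ^ d = W0 ^ d := by
    by_contra hne
    set M : ℚ := max |W1| |W0| with hM
    have hM1 : 1 ≤ M := hW01.trans (le_max_right _ _)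
    have e1 : d - 1 + 1 = d := by omega
    have hge : M ^ (d - 1) / q ≤ |W1 ^ d - W0 ^ d| := by
      have h2 : ∃ m : ℤ, q * W1 = m := by
        obtain ⟨m, hm⟩ := h1
        exact ⟨U * m, by rw [hW1]; push_cast; rw [← hm]; ring⟩
      have h3 : ∃ m : ℤ, q * W0 = m := by
        obtain ⟨m, hm⟩ := h0
        exact ⟨V * m, by rw [hW0]; push_cast; rw [← hm]; ring⟩
      have := pow_sub_ge hq (d - 1) h2 h3 hW01 (by rw [e1]; exact hne)
      rwa [e1] at this
    have hle : |h d| * |W1 ^ d - W0 ^ d| ≤ (1 + 2 * GG h d) * Y * M ^ (d - 2) := by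
      have e2 : h d * (W1 ^ d - W0 ^ d) = R - ∑ j ∈ range (d - 2 + 1),
          (h j * ((U : ℚ) ^ (d - j) * W1 ^ j) - h j * ((V : ℚ) ^ (d - j) * W0 ^ j)) := by
        rw [← hrest, ← heq]
        ring
      rw [← abs_mul, e2]
      have hMe : 1 ≤ M ^ (d - 2) := one_le_pow₀ hM1
      have h4 : |∑ j ∈ range (d - 2 + 1),
          (h j * ((U : ℚ) ^ (d - j) * W1 ^ j) - h j * ((V : ℚ) ^ (d - j) * W0 ^ j))| ≤
          2 * GG h d * Y * M ^ (d - 2) := by
        calc _ ≤ ∑ j ∈ range (d - 2 + 1),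
            |h j * ((U : ℚ) ^ (d - j) * W1 ^ j) - h j * ((V : ℚ) ^ (d - j) * W0 ^ j)| :=
              abs_sum_le_sum_abs _ _
          _ ≤ ∑ j ∈ range (d - 2 + 1), |h j| * (2 * Y * M ^ (d - 2)) := by
              apply sum_le_sum
              intro j hj
              rw [mem_range] at hj
              rw [← mul_sub, abs_mul]
              apply mul_le_mul_of_nonneg_left _ (abs_nonneg _)
              have h5 : |(U : ℚ) ^ (d - j) * W1 ^ j| ≤ Y * M ^ (d - 2) := by
                rw [abs_mul, abs_pow W1]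
                apply mul_le_mul (hUk j (by omega)) _ (by positivity) (by positivity)
                exact (pow_le_pow_left₀ (abs_nonneg _) (le_max_left _ _) j).trans
                  (pow_le_pow_right₀ hM1 (by omega))
              have h6 : |(V : ℚ) ^ (d - j) * W0 ^ j| ≤ Y * M ^ (d - 2) := by
                rw [abs_mul, abs_pow W0]
                apply mul_le_mul (hVk j (by omega)) _ (by positivity) (by positivity)
                exact (pow_le_pow_left₀ (abs_nonneg _) (le_max_right _ _) j).trans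
                  (pow_le_pow_right₀ hM1 (by omega))
              calc _ ≤ |(U : ℚ) ^ (d - j) * W1 ^ j| + |(V : ℚ) ^ (d - j) * W0 ^ j| := abs_sub _ _
                _ ≤ _ := by linarith
          _ = (∑ j ∈ range (d - 2 + 1), |h j|) * (2 * Y * M ^ (d - 2)) := by rw [sum_mul]
          _ ≤ GG h d * (2 * Y * M ^ (d - 2)) :=
              mul_le_mul_of_nonneg_right (sum_abs_le h (by omega)) (by positivity)
          _ = _ := by ring
      have h5 : |R| ≤ Y * M ^ (d - 2) := by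
        calc |R| ≤ Y * 1 := by linarith
          _ ≤ _ := mul_le_mul_of_nonneg_left hMe (by linarith)
      refine (abs_sub _ _).trans ?_
      calc _ ≤ Y * M ^ (d - 2) + 2 * GG h d * Y * M ^ (d - 2) := add_le_add h5 h4
        _ = _ := by ring
    have hA0 : 0 < |h d| := abs_pos.2 hA
    have h5 : |h d| * (M ^ (d - 1) / q) ≤ (1 + 2 * GG h d) * Y * M ^ (d - 2) :=
      (mul_le_mul_of_nonneg_left hge hA0.le).trans hle
    have e3 : M ^ (d - 1) = M ^ (d - 2) * M := by rw [← pow_succ]; congr 1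
    rw [e3] at h5
    have hMd : 0 < M ^ (d - 2) := by positivity
    have h6 : |h d| * (M / q) ≤ (1 + 2 * GG h d) * Y := by
      have e4 : |h d| * (M ^ (d - 2) * M / q) = (|h d| * (M / q)) * M ^ (d - 2) := by ring
      rw [e4] at h5
      exact le_of_mul_le_mul_right h5 hMd
    have h7 : M ≤ q * (1 + 2 * GG h d) * |h d|⁻¹ * Y := by
      have h8 : |h d| * M ≤ q * ((1 + 2 * GG h d) * Y) := by
        rw [mul_div_assoc', div_le_iff₀ (by linarith)] at h6
        linarith
      calc M = |h d|⁻¹ * (|h d| * M) := by field_simp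
        _ ≤ |h d|⁻¹ * (q * ((1 + 2 * GG h d) * Y)) := mul_le_mul_of_nonneg_left h8 (by positivity)
        _ = _ := by ring
    have h8 : q * (1 + 2 * GG h d) * |h d|⁻¹ * Y ≤ BB h d q * Y := by
      apply mul_le_mul_of_nonneg_right _ (by linarith)
      unfold BB
      have := mul_le_mul_of_nonneg_left (inv_le_QQ h d (le_refl d))
        (show 0 ≤ q * (1 + 2 * GG h d) by positivity)
      linarith
    have h9 : |W0| ≤ M := le_max_right _ _
    linarith
  -- step B
  have habs : |W1| = |W0| := by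
    have := congrArg abs hpow
    rw [abs_pow, abs_pow] at this
    exact (pow_left_inj₀ (abs_nonneg _) (abs_nonneg _) (by omega)).1 this
  obtain ⟨σ, hσ, hσW⟩ : ∃ σ : ℚ, (σ = 1 ∨ σ = -1) ∧ W1 = σ * W0 := by
    rcases abs_eq_abs.1 habs with h2 | h2
    · exact ⟨1, Or.inl rfl, by rw [h2, one_mul]⟩
    · exact ⟨-1, Or.inr rfl, by rw [h2]; ring⟩
  have hσabs : ∀ j : ℕ, |σ ^ j| = 1 := by
    intro j
    rw [abs_pow]
    rcases hσ with h2 | h2 <;> rw [h2] <;> simp
  set c : ℕ → ℚ := fun j => σ ^ j * (U : ℚ) ^ (d - j) - (V : ℚ) ^ (d - j) with hc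
  have hcle : ∀ j ≤ d, |c j| ≤ 2 * Y := by
    intro j hj
    simp only [hc]
    refine (abs_sub _ _).trans ?_
    rw [abs_mul, hσabs, one_mul]
    have := hUk j hj
    have := hVk j hj
    linarith
  have heq2 : ∑ j ∈ range d, h j * c j * W0 ^ j = R := by
    rw [hpow, sub_self, add_zero] at heq
    rw [← heq]
    apply sum_congr rfl
    intro j _
    simp only [hc]
    rw [hσW, mul_pow]
    ring
  have hmid : ∀ j, 0 < j → j < d → h j = 0 := by
    by_contra hcon
    push Not at hcon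
    obtain ⟨j0, hj00, hj0d, hj0⟩ := hcon
    have hex : ((range d).filter fun j => 0 < j ∧ h j ≠ 0).Nonempty :=
      ⟨j0, mem_filter.2 ⟨mem_range.2 hj0d, hj00, hj0⟩⟩
    obtain ⟨e, heM, hemax⟩ := Finset.exists_max_image _ (fun j => j) hex
    rw [mem_filter, mem_range] at heM
    obtain ⟨hed, he0, hhe⟩ := heM
    have hzero : ∀ j, e < j → j < d → h j = 0 := by
      intro j hj1 hj2
      by_contra h2
      have := hemax j (mem_filter.2 ⟨mem_range.2 hj2, by omega, h2⟩)
      omega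
    obtain ⟨e', rfl⟩ : ∃ e', e = e' + 1 := ⟨e - 1, by omega⟩
    have heq3 : ∑ j ∈ range (e' + 1 + 1), h j * c j * W0 ^ j = R := by
      rw [← heq2]
      apply sum_subset
      · intro j hj; rw [mem_range] at *; omega
      · intro j hj hj'
        rw [mem_range] at *
        rw [hzero j (by omega) hj, zero_mul, zero_mul]
    rw [sum_range_succ] at heq3
    have hce : 1 ≤ |c (e' + 1)| := by
      simp only [hc]
      have hk : 1 ≤ d - (e' + 1) := by omega
      have hne := hUV _ hk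
      set k := d - (e' + 1) with hk'
      have h2 : ∃ z : ℤ, σ ^ (e' + 1) * (U : ℚ) ^ k - (V : ℚ) ^ k = z ∧ z ≠ 0 := by
        have h3 : σ ^ (e' + 1) = 1 ∨ σ ^ (e' + 1) = -1 := by
          rcases hσ with h4 | h4
          · left; rw [h4, one_pow]
          · rw [h4]
            rcases neg_one_pow_eq_or ℚ (e' + 1) with h5 | h5
            · left; exact h5
            · right; exact h5
        rcases h3 with h4 | h4
        · refine ⟨(U : ℤ) ^ k - (V : ℤ) ^ k, by rw [h4]; push_cast; ring, ?_⟩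
          intro h5
          apply hne
          have h6 : (U : ℤ) ^ k = (V : ℤ) ^ k := by linarith
          exact_mod_cast h6
        · refine ⟨-(U : ℤ) ^ k - (V : ℤ) ^ k, by rw [h4]; push_cast; ring, ?_⟩
          have h6 : (0 : ℤ) < (U : ℤ) ^ k := by positivity
          have h7 : (0 : ℤ) < (V : ℤ) ^ k := by positivity
          linarith
      obtain ⟨z, hz1, hz2⟩ := h2
      rw [hz1]
      have := Int.one_le_abs hz2
      exact_mod_cast this
    have hlow := low_terms h c (show e' < d by omega) Y |W0| hY1 hW01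
      (fun j hj => hcle j (by omega)) W0 le_rfl R hR
    have h3 : h (e' + 1) * c (e' + 1) * W0 ^ (e' + 1) =
        R - ∑ j ∈ range (e' + 1), h j * c j * W0 ^ j := by linarith
    have h4 : |h (e' + 1)| * |W0| ^ (e' + 1) ≤ (1 + 2 * GG h d) * Y * |W0| ^ e' := by
      calc |h (e' + 1)| * |W0| ^ (e' + 1) = |h (e' + 1)| * 1 * |W0| ^ (e' + 1) := by ring
        _ ≤ |h (e' + 1)| * |c (e' + 1)| * |W0| ^ (e' + 1) := by
            apply mul_le_mul_of_nonneg_right _ (by positivity)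
            exact mul_le_mul_of_nonneg_left hce (abs_nonneg _)
        _ = |h (e' + 1) * c (e' + 1) * W0 ^ (e' + 1)| := by
            rw [abs_mul (h (e' + 1) * c (e' + 1)) (W0 ^ (e' + 1)),
              abs_mul (h (e' + 1)) (c (e' + 1)), abs_pow W0]
        _ = _ := by rw [h3]
        _ ≤ _ := hlow
    have hWe : 0 < |W0| ^ e' := by positivity
    have h5 : |h (e' + 1)| * |W0| ≤ (1 + 2 * GG h d) * Y := by
      rw [pow_succ] at h4
      have e4 : |h (e' + 1)| * (|W0| ^ e' * |W0|) = |h (e' + 1)| * |W0| * |W0| ^ e' := by ring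
      rw [e4] at h4
      exact le_of_mul_le_mul_right h4 hWe
    have hh0 : 0 < |h (e' + 1)| := abs_pos.2 hhe
    have h6 : |W0| ≤ (1 + 2 * GG h d) * |h (e' + 1)|⁻¹ * Y := by
      calc |W0| = |h (e' + 1)|⁻¹ * (|h (e' + 1)| * |W0|) := by field_simp
        _ ≤ |h (e' + 1)|⁻¹ * ((1 + 2 * GG h d) * Y) := mul_le_mul_of_nonneg_left h5 (by positivity)
        _ = _ := by ring
    have h8 : (1 + 2 * GG h d) * |h (e' + 1)|⁻¹ * Y ≤ BB h d q * Y := by
      apply mul_le_mul_of_nonneg_right _ (by linarith)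
      unfold BB
      have h9 := mul_le_mul_of_nonneg_left (inv_le_QQ h d (show e' + 1 ≤ d by omega))
        (show 0 ≤ (1 + 2 * GG h d) by positivity)
      have h10 : 1 * ((1 + 2 * GG h d) * QQ h d) ≤ q * ((1 + 2 * GG h d) * QQ h d) :=
        mul_le_mul_of_nonneg_right hq (by positivity)
      linarith
    linarith
  refine ⟨hmid, ?_⟩
  have h2 : ∑ j ∈ range d, h j * c j * W0 ^ j = h 0 * c 0 * W0 ^ 0 := by
    apply sum_eq_single_of_mem 0 (mem_range.2 (by omega))
    intro j hj hj0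
    rw [mem_range] at hj
    rw [hmid j (by omega) hj, zero_mul, zero_mul]
  rw [h2] at heq2
  simp only [hc, pow_zero, one_mul, mul_one, Nat.sub_zero] at heq2
  exact heq2

end Pool.Agent.J6H87.CY
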