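import Mathlib
import Pool.Agent.J6H87.CY.TT
import Pool.Agent.J6H87.CY.WD
import Pool.Agent.J6H87.CY.PC

set_option autoImplicit false

/-!
# The values of a polynomial repel each other along the trajectories of the 3x+1 map
-/

open Finset Polynomial

namespace Pool.Agent.J6H87.CY

open Pool.Agent.H319R2 (T od)
open Pool.Agent.H547R3 (IsCycle)
open Pool.Agent.R343.SC

/-- `f` has a single critical point, its critical value `ξ` is fixed by a composition of branches in which
both branches occur, and `x ≡ ξ` modulo `2 ^ b` -/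
def Shadow (b : ℕ) (f : ℚ[X]) (x : ℤ) : Prop :=
  ∃ (A β ξ : ℚ) (w : List Bool), f = C A * (X + C β) ^ f.natDegree + C ξ ∧ true ∈ w ∧ false ∈ w ∧
    path w ξ = ξ ∧ (b : ℤ) ≤ padicValRat 2 ((x : ℚ) - ξ)

/-- the values of `f`, those which shadow the critical value excepted -/
def PV (b : ℕ) (f : ℚ[X]) (x : ℤ) : Prop := (∃ a : ℤ, f.eval (a : ℚ) = x) ∧ ¬ Shadow b f x

section coeffs

variable (f : ℚ[X])

/-- the shift -/
noncomputable def be : ℚ := f.coeff (f.natDegree - 1) / (f.natDegree * f.leadingCoeff)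

/-- the coefficients of the depressed polynomial -/
noncomputable def hc (j : ℕ) : ℚ := (taylor (-be f) f).coeff j

lemma hc_top : hc f f.natDegree = f.leadingCoeff := coeff_taylor_natDegree (-be f) f

lemma hc_sub (hf : 2 ≤ f.natDegree) : hc f (f.natDegree - 1) = 0 := by
  have hf0 : f ≠ 0 := by rintro rfl; simp at hf
  have hl : f.leadingCoeff ≠ 0 := leadingCoeff_ne_zero.2 hf0
  have hd : (f.natDegree : ℚ) ≠ 0 := by
    have : f.natDegree ≠ 0 := by omega
    exact_mod_cast this
  unfold hc
  rw [taylor_coeff]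
  set k := f.natDegree - 1 with hk
  have hdeg : (hasseDeriv k f).natDegree ≤ 1 := by
    have := natDegree_hasseDeriv_le f k
    omega
  rw [eq_X_add_C_of_natDegree_le_one hdeg]
  simp only [eval_add, eval_mul, eval_C, eval_X, hasseDeriv_coeff]
  have e1 : 1 + k = f.natDegree := by omega
  rw [e1, zero_add]
  have e2 : f.natDegree.choose k = f.natDegree := by
    rw [show f.natDegree = k + 1 by omega, Nat.choose_succ_self_right]
  rw [e2, Nat.choose_self]
  unfold be
  rw [← hk]
  unfold leadingCoeff at hl ⊢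
  push_cast
  field_simp
  ring

lemma eval_eq (a : ℚ) : f.eval a = ∑ j ∈ range (f.natDegree + 1), hc f j * (a + be f) ^ j := by
  have h1 : f.eval a = (taylor (-be f) f).eval (a + be f) := by
    rw [taylor_eval]; congr 1; ring
  rw [h1, eval_eq_sum_range, natDegree_taylor]
  rfl

lemma eq_of_mid (hf : 2 ≤ f.natDegree) (h : ∀ j, 0 < j → j < f.natDegree → hc f j = 0) :
    f = C f.leadingCoeff * (X + C (be f)) ^ f.natDegree + C (hc f 0) := by
  have h1 : taylor (-be f) f = C f.leadingCoeff * X ^ f.natDegree + C (hc f 0) := by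
    ext j
    rw [coeff_add, coeff_C_mul, coeff_X_pow, coeff_C]
    rcases Nat.eq_zero_or_pos j with h0 | h0
    · subst h0
      rw [if_neg (by omega), if_pos rfl, mul_zero, zero_add]
      rfl
    · rw [if_neg (by omega : ¬ j = 0), add_zero]
      rcases lt_trichotomy j f.natDegree with h2 | h2 | h2
      · rw [if_neg (by omega), mul_zero]
        exact h j h0 h2
      · rw [if_pos h2, mul_one, h2]
        exact coeff_taylor_natDegree (-be f) f
      · rw [if_neg (by omega), mul_zero]
        apply coeff_eq_zero_of_natDegree_lt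
        rw [natDegree_taylor]
        exact h2
  have h2 : taylor (be f) (taylor (-be f) f) = f := by
    rw [taylor_taylor, add_neg_cancel, taylor_zero]
  rw [h1] at h2
  conv_lhs => rw [← h2]
  rw [map_add, taylor_C, taylor_mul, taylor_C, taylor_X_pow]

end coeffs

/-- the constant -/
noncomputable def CC (f : ℚ[X]) : ℝ :=
  |Real.log ((GG (hc f) f.natDegree * BB (hc f) f.natDegree (be f).den ^ f.natDegree : ℚ) : ℝ)| +
    2 * f.natDegree + 1

lemma size_gt (f : ℚ[X]) (hf : 2 ≤ f.natDegree) (n : ℕ) (y : ℝ) (hy : 1 ≤ y)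
    (h : CC f * (n + 1) ≤ Real.log y) :
    ((GG (hc f) f.natDegree : ℚ) : ℝ) *
      (((BB (hc f) f.natDegree (be f).den : ℚ) : ℝ) * 3 ^ n) ^ f.natDegree < y := by
  set d := f.natDegree with hd
  set G : ℝ := ((GG (hc f) d : ℚ) : ℝ) with hG
  set B : ℝ := ((BB (hc f) d (be f).den : ℚ) : ℝ) with hB
  have hf0 : f ≠ 0 := by rintro rfl; simp at hd; omega
  have hl : f.leadingCoeff ≠ 0 := leadingCoeff_ne_zero.2 hf0
  have hG0 : 0 < G := by
    rw [hG]
    have h1 : |hc f d| ≤ GG (hc f) d :=
      single_le_sum (f := fun j => |hc f j|) (fun _ _ => abs_nonneg _) (mem_range.2 (by omega))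
    have h2 : 0 < |hc f d| := abs_pos.2 (by rw [hd, hc_top]; exact hl)
    exact_mod_cast lt_of_lt_of_le h2 h1
  have hB0 : 0 < B := by
    rw [hB]
    have h1 := GG_nonneg (hc f) d
    have h2 : 0 ≤ QQ (hc f) d := sum_nonneg fun _ _ => by positivity
    have h3 : (0 : ℚ) < BB (hc f) d (be f).den := by
      unfold BB
      positivity
    exact_mod_cast h3
  have hCC : CC f = |Real.log (G * B ^ d)| + 2 * d + 1 := by
    unfold CC
    rw [← hd, hG, hB]
    push_cast
    rfl
  rw [← Real.log_lt_log_iff (by positivity) (by linarith)]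
  rw [mul_pow, ← mul_assoc, Real.log_mul (by positivity) (by positivity), ← pow_mul, Real.log_pow]
  have hl3 : Real.log 3 < 2 := by
    have := Pool.Agent.Y780.Cz.log3_lt
    have := Real.log_two_lt_d9
    linarith
  have h1 := le_abs_self (Real.log (G * B ^ d))
  have h2 := abs_nonneg (Real.log (G * B ^ d))
  have hn0 : (0 : ℝ) ≤ n := Nat.cast_nonneg _
  have hd0 : (0 : ℝ) ≤ d := Nat.cast_nonneg _
  have h3 : ((n * d : ℕ) : ℝ) * Real.log 3 ≤ (n * d) * 2 := by
    push_cast
    exact mul_le_mul_of_nonneg_left hl3.le (by positivity)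
  rw [hCC] at h
  nlinarith [mul_nonneg h2 hn0]

/-- **the values of a polynomial of degree at least two repel each other** -/
theorem rep_poly (f : ℚ[X]) (hf : 2 ≤ f.natDegree) (b : ℕ) :
    Rep (PV b f) (f.natDegree ^ 2 * (b + 1)) (CC f) := by
  intro x N a h1 h2
  set d := f.natDegree with hd
  have hf0 : f ≠ 0 := by rintro rfl; simp at hd; omega
  have hl : f.leadingCoeff ≠ 0 := leadingCoeff_ne_zero.2 hf0
  have hd0 : 0 < d := by omega
  -- pigeonhole
  have hmaps : ∀ k ∈ range (d ^ 2 + 1), ((a (k * (b + 1)) % d, od (a (k * (b + 1))) x % d) : ℕ × ℕ) ∈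
      range d ×ˢ range d := by
    intro k _
    rw [mem_product, mem_range, mem_range]
    exact ⟨Nat.mod_lt _ hd0, Nat.mod_lt _ hd0⟩
  obtain ⟨k, hk, k', hk', hne, heq⟩ := exists_ne_map_eq_of_card_lt_of_maps_to (by
    rw [card_product, card_range, card_range, sq]; omega) hmaps
  wlog hlt : k < k' generalizing k k'
  · exact this k' hk' k hk hne.symm heq.symm (by omega)
  rw [mem_range] at hk hk'
  rw [Prod.mk.injEq] at heq
  obtain ⟨he1, he2⟩ := heq
  set i := k * (b + 1) with hi
  set j := k' * (b + 1) with hj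
  have hjK : j ≤ d ^ 2 * (b + 1) := Nat.mul_le_mul_right _ (by omega)
  have hij : i + (b + 1) ≤ j := by
    rw [hi, hj, ← Nat.succ_mul]
    exact Nat.mul_le_mul_right _ hlt
  have hmono : ∀ t, i + t ≤ j → a i + t ≤ a (i + t) := by
    intro t
    induction t with
    | zero => intro _; exact le_rfl
    | succ t ih =>
      intro ht
      have h3 := ih (by omega)
      have h4 := (h2 (i + t) (by omega)).lt
      have e : i + (t + 1) = i + t + 1 := by ring
      rw [e]
      omega
  have haij : a i + (b + 1) ≤ a j := by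
    obtain ⟨t, ht⟩ := Nat.exists_eq_add_of_le (show i ≤ j by omega)
    have h3 := hmono t (by omega)
    rw [← ht] at h3
    omega
  have hmix : Mixed x (a i) (a j) := by
    have h3 := h2 i (by omega)
    refine h3.mono le_rfl ?_
    obtain ⟨t, ht⟩ := Nat.exists_eq_add_of_le (show i + 1 ≤ j by omega)
    have h4 : ∀ t, i + 1 + t ≤ j → a (i + 1) ≤ a (i + 1 + t) := by
      intro t
      induction t with
      | zero => intro _; exact le_rfl
      | succ t ih =>
        intro ht
        have h5 := ih (by omega)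
        have h6 := (h2 (i + 1 + t) (by omega)).lt
        have e : i + 1 + (t + 1) = i + 1 + t + 1 := by ring
        rw [e]
        omega
    have h5 := h4 t (by omega)
    rwa [← ht] at h5
  obtain ⟨haN, ⟨⟨α, hα⟩, hsh⟩, hlog⟩ := h1 i (by omega)
  obtain ⟨haN', ⟨⟨α', hα'⟩, -⟩, -⟩ := h1 j hjK
  obtain ⟨n, hn⟩ := Nat.exists_eq_add_of_le (show a i ≤ a j by omega)
  set y := T^[a i] x with hy
  have hTn : T^[a j] x = T^[n] y := by
    rw [hn, Nat.add_comm, Function.iterate_add_apply]
  have hod : od (a j) x = od (a i) x + od n y := by rw [hn, od_add]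
  have hdn : d ∣ n := by
    have : (a i + n) % d = a i % d := by rw [← hn]; exact he1.symm
    have h3 : (a i + n) ≡ a i + 0 [MOD d] := this
    exact (Nat.modEq_zero_iff_dvd).1 (Nat.ModEq.add_left_cancel' _ h3)
  have hdo : d ∣ od n y := by
    have : (od (a i) x + od n y) % d = od (a i) x % d := by rw [← hod]; exact he2.symm
    have h3 : (od (a i) x + od n y) ≡ od (a i) x + 0 [MOD d] := this
    exact (Nat.modEq_zero_iff_dvd).1 (Nat.ModEq.add_left_cancel' _ h3)
  obtain ⟨n', hn'⟩ := hdn
  obtain ⟨o', ho'⟩ := hdo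
  have hn1 : b + 1 ≤ n := by omega
  have hn'1 : 1 ≤ n' := by
    by_contra hcon
    have : n' = 0 := by omega
    rw [this, mul_zero] at hn'
    omega
  obtain ⟨⟨t0, ht01, ht02, ht03⟩, ⟨t1, ht11, ht12, ht13⟩⟩ := hmix
  have hshift : ∀ t, a i ≤ t → T^[t] x = T^[t - a i] y := by
    intro t ht
    rw [hy, ← Function.iterate_add_apply, Nat.sub_add_cancel ht]
  have hev : ∃ t < n, T^[t] y % 2 = 0 := ⟨t0 - a i, by omega, by rw [← hshift t0 ht01]; exact ht03⟩
  have hodd : ∃ t < n, T^[t] y % 2 = 1 := ⟨t1 - a i, by omega, by rw [← hshift t1 ht11]; exact ht13⟩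
  -- the sizes
  have hypos : y ≠ 0 := by
    intro h0
    rw [h0] at hlog
    simp at hlog
    have h3 : 0 < CC f := by unfold CC; positivity
    have h4 : (0 : ℝ) < N + 1 := by positivity
    nlinarith
  have hy1 : (1 : ℝ) ≤ |(y : ℝ)| := by exact_mod_cast Int.one_le_abs hypos
  have hCC0 : 0 ≤ CC f := by unfold CC; positivity
  have hnN : (n : ℝ) ≤ N := by
    have : n ≤ N := by omega
    exact_mod_cast this
  have hlogn : CC f * (n + 1) ≤ Real.log |(y : ℝ)| :=
    (mul_le_mul_of_nonneg_left (by linarith) hCC0).trans hlog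
  have hsize := size_gt f hf n _ hy1 hlogn
  rw [← hd] at hsize
  set q : ℚ := ((be f).den : ℚ) with hq
  have hq1 : 1 ≤ q := by
    rw [hq]
    exact_mod_cast (be f).den_pos
  have hsizeQ : GG (hc f) d * (BB (hc f) d q * 3 ^ n) ^ d < |(y : ℚ)| := by
    have : ((GG (hc f) d * (BB (hc f) d q * 3 ^ n) ^ d : ℚ) : ℝ) < ((|(y : ℚ)| : ℚ) : ℝ) := by
      push_cast
      exact hsize
    exact_mod_cast this
  have hG := GG_nonneg (hc f) d
  have hQ0 : 0 ≤ QQ (hc f) d := sum_nonneg fun _ _ => by positivity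
  have hBB1 : 1 ≤ BB (hc f) d q := by
    unfold BB
    have : 0 ≤ q * (1 + 2 * GG (hc f) d) * QQ (hc f) d := by positivity
    linarith
  have h3n : (1 : ℚ) ≤ 3 ^ n := one_le_pow₀ (by norm_num)
  have hBY1 : 1 ≤ BB (hc f) d q * 3 ^ n := by nlinarith
  set w0 : ℚ := α + be f with hw0
  set w1 : ℚ := α' + be f with hw1
  have hbig : BB (hc f) d q * 3 ^ n < |w0| := by
    by_contra hcon
    push Not at hcon
    have h3 : |(y : ℚ)| ≤ GG (hc f) d * (BB (hc f) d q * 3 ^ n) ^ d := by
      rw [← hα, eval_eq, ← hw0, ← hd]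
      calc |∑ j ∈ range (d + 1), hc f j * w0 ^ j| ≤ ∑ j ∈ range (d + 1), |hc f j * w0 ^ j| :=
            abs_sum_le_sum_abs _ _
        _ ≤ ∑ j ∈ range (d + 1), |hc f j| * (BB (hc f) d q * 3 ^ n) ^ d := by
            apply sum_le_sum
            intro j hj
            rw [mem_range] at hj
            rw [abs_mul, abs_pow]
            apply mul_le_mul_of_nonneg_left _ (abs_nonneg _)
            exact (pow_le_pow_left₀ (abs_nonneg _) hcon j).trans (pow_le_pow_right₀ hBY1 (by omega))
        _ = _ := by rw [← sum_mul]; rfl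
    linarith
  have hint : ∀ a : ℤ, ∃ m : ℤ, q * ((a : ℚ) + be f) = m := by
    intro a
    refine ⟨(be f).den * a + (be f).num, ?_⟩
    push_cast
    have := Rat.mul_den_eq_num (be f)
    rw [hq]
    linear_combination this
  have hR := Rr_lt y n
  have hodn : od n y ≤ n := Pool.Agent.H319R2.od_le n y
  have hcore := poly_core (hc f) d hf (by rw [hd, hc_top]; exact hl) (hc_sub f hf) q hq1
    (2 ^ n') (3 ^ o') Nat.one_le_two_pow (Nat.one_le_pow _ _ (by norm_num)) (by
      intro k hk h3
      rw [← pow_mul, ← pow_mul] at h3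
      have h4 : 1 ≤ n' * k := Nat.mul_pos hn'1 hk
      have h5 : Even (2 ^ (n' * k)) := by
        rw [Nat.even_pow]; exact ⟨even_two, by omega⟩
      rw [h3] at h5
      have h6 : Odd (3 ^ (o' * k)) := Odd.pow (by decide)
      exact (Nat.not_even_iff_odd.2 h6) h5)
    (3 ^ n) (by
      push_cast
      rw [← pow_mul, Nat.mul_comm n' d, ← hn']
      exact pow_le_pow_left₀ (by norm_num) (by norm_num) n)
    (by
      push_cast
      rw [← pow_mul, Nat.mul_comm o' d, ← ho']
      exact pow_le_pow_right₀ (by norm_num) hodn)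
    w0 w1 (hint α) (hint α') (Rr y n) (by
      rw [abs_of_nonneg (by positivity)]
      exact_mod_cast hR.le) (by
      rw [← hw0, ← hw1] at *
      have e1 : ∑ j ∈ range (d + 1), hc f j * w1 ^ j = ((T^[n] y : ℤ) : ℚ) := by
        rw [← hTn, ← hα', eval_eq]
      have e0 : ∑ j ∈ range (d + 1), hc f j * w0 ^ j = (y : ℚ) := by
        rw [← hα, eval_eq]
      rw [e1, e0]
      push_cast
      rw [← pow_mul, Nat.mul_comm n' d, ← hn', ← pow_mul, Nat.mul_comm o' d, ← ho', iter_formula]
      ring) hbig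
  obtain ⟨hmid, hfin⟩ := hcore
  have hform := eq_of_mid f hf hmid
  -- the critical value is fixed
  have hpath : path (word y n) (hc f 0) = hc f 0 := by
    have h3 := path_word y (hc f 0) n
    push_cast at hfin
    rw [← pow_mul, Nat.mul_comm n' d, ← hn', ← pow_mul, Nat.mul_comm o' d, ← ho'] at hfin
    have h4 : (2 : ℚ) ^ n * path (word y n) (hc f 0) = 2 ^ n * hc f 0 := by
      rw [h3]
      linear_combination -hfin
    exact mul_left_cancel₀ (by positivity) h4
  have hyne : (y : ℚ) ≠ hc f 0 := by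
    intro h3
    have h4 : |hc f 0| ≤ GG (hc f) d :=
      single_le_sum (f := fun j => |hc f j|) (fun _ _ => abs_nonneg _) (mem_range.2 (by omega))
    have h5 : GG (hc f) d ≤ GG (hc f) d * (BB (hc f) d q * 3 ^ n) ^ d := by
      have := one_le_pow₀ hBY1 (n := d)
      nlinarith
    rw [h3] at hsizeQ
    linarith
  apply hsh
  refine ⟨f.leadingCoeff, be f, hc f 0, word y n, hform, true_mem_word hodd, false_mem_word hev, hpath, ?_⟩
  have h3 := shadow_val (by omega) hpath hyne
  have h4 : (b : ℤ) ≤ n := by omega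
  exact h4.trans h3

end Pool.Agent.J6H87.CY
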