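import Mathlib
import Pool.Agent.J6H87.CY.TC
import Pool.Agent.J6H87.CY.PV

set_option autoImplicit false

/-!
# The circuits which contain values of polynomials
-/

open Finset Polynomial

namespace Pool.Agent.J6H87.CY

open Pool.Agent.H319R2 (T od)
open Pool.Agent.H547R3 (IsCycle)
open Pool.Agent.R343.SC

/-- finite unions -/
def PU (b : ℕ) (F : Finset ℚ[X]) (x : ℤ) : Prop := ∃ f ∈ F, PV b f x

lemma hit_union (b : ℕ) (F : Finset ℚ[X]) (Z : Finset ℤ) :
    hit (PU b F) Z ⊆ F.biUnion fun f => hit (PV b f) Z := by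
  classical
  intro y hy
  unfold hit at hy
  rw [mem_filter] at hy
  obtain ⟨hy1, j, hj, f, hf, hP⟩ := hy
  rw [mem_biUnion]
  refine ⟨f, hf, ?_⟩
  unfold hit
  exact mem_filter.2 ⟨hy1, j, hj, hP⟩

lemma sum_biUnion_le {ι α : Type*} [DecidableEq ι] [DecidableEq α] (F : Finset ι) (g : ι → Finset α)
    (φ : α → ℝ) : (∀ i ∈ F, ∀ y ∈ g i, 0 ≤ φ y) →
    ∑ y ∈ F.biUnion g, φ y ≤ ∑ i ∈ F, ∑ y ∈ g i, φ y := by
  induction F using Finset.induction_on with
  | empty => intro _; simp
  | insert i F hi ih =>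
    intro h
    rw [sum_insert hi, biUnion_insert]
    have h1 := ih fun j hj => h j (mem_insert_of_mem hj)
    have h2 : ∑ y ∈ g i ∪ F.biUnion g, φ y + ∑ y ∈ g i ∩ F.biUnion g, φ y =
        ∑ y ∈ g i, φ y + ∑ y ∈ F.biUnion g, φ y := sum_union_inter
    have h3 : 0 ≤ ∑ y ∈ g i ∩ F.biUnion g, φ y := by
      apply sum_nonneg
      intro y hy
      exact h i (mem_insert_self _ _) y (mem_inter.1 hy).1
    linarith

lemma CC_nonneg (f : ℚ[X]) : 0 ≤ CC f := by unfold CC; positivity

theorem count_poly (F : Finset ℚ[X]) (hF : ∀ f ∈ F, 2 ≤ f.natDegree) (b : ℕ) (ε : ℝ) (hε : 0 < ε) :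
    {Z : Finset ℤ | IsCycle Z ∧ ε * (loc Z).card < (hit (PU b F) Z).card}.Finite := by
  classical
  have hbig : (⋃ f ∈ F, {Z : Finset ℤ | IsCycle Z ∧
      ε / (F.card + 1) * (loc Z).card < (hit (PV b f) Z).card}).Finite := by
    apply Set.Finite.biUnion F.finite_toSet
    intro f hf
    exact count_finite (CC_nonneg f) (rep_poly f (hF f hf) b) (by positivity)
  refine hbig.subset ?_
  rintro Z ⟨hZ, hlt⟩
  by_contra hcon
  simp only [Set.mem_iUnion, Set.mem_ofPred_eq, not_exists, not_and, not_lt] at hcon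
  have h1 : ((hit (PU b F) Z).card : ℝ) ≤ ∑ f ∈ F, ((hit (PV b f) Z).card : ℝ) := by
    have := (card_le_card (hit_union b F Z)).trans card_biUnion_le
    exact_mod_cast this
  have h2 : ∑ f ∈ F, ((hit (PV b f) Z).card : ℝ) ≤ ∑ f ∈ F, ε / (F.card + 1) * (loc Z).card :=
    sum_le_sum fun f hf => hcon f hf hZ
  rw [sum_const, nsmul_eq_mul] at h2
  have h3 : (F.card : ℝ) * (ε / (F.card + 1) * (loc Z).card) ≤ ε * (loc Z).card := by
    have h4 : (F.card : ℝ) / (F.card + 1) ≤ 1 := by
      rw [div_le_one (by positivity)]; linarith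
    have h5 : (0 : ℝ) ≤ ε * (loc Z).card := by positivity
    calc (F.card : ℝ) * (ε / (F.card + 1) * (loc Z).card) =
        F.card / (F.card + 1) * (ε * (loc Z).card) := by ring
      _ ≤ 1 * (ε * (loc Z).card) := mul_le_mul_of_nonneg_right h4 h5
      _ = _ := one_mul _
  linarith

theorem weight_poly (F : Finset ℚ[X]) (hF : ∀ f ∈ F, 2 ≤ f.natDegree) (b : ℕ) (ε : ℝ) (hε : 0 < ε) :
    {Z : Finset ℤ | IsCycle Z ∧
      ε * ∑ y ∈ loc Z, Real.log |(y : ℝ)| < ∑ y ∈ hit (PU b F) Z, Real.log |(y : ℝ)|}.Finite := by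
  classical
  have hbig : (⋃ f ∈ F, {Z : Finset ℤ | IsCycle Z ∧ ε / (F.card + 1) * ∑ y ∈ loc Z, Real.log |(y : ℝ)| <
      ∑ y ∈ hit (PV b f) Z, Real.log |(y : ℝ)|}).Finite := by
    apply Set.Finite.biUnion F.finite_toSet
    intro f hf
    exact weighted_finite (CC_nonneg f) (rep_poly f (hF f hf) b) (by positivity)
  refine hbig.subset ?_
  rintro Z ⟨hZ, hlt⟩
  by_contra hcon
  simp only [Set.mem_iUnion, Set.mem_ofPred_eq, not_exists, not_and, not_lt] at hcon
  have hlog : ∀ y ∈ loc Z, 0 ≤ Real.log |(y : ℝ)| := fun y hy => Real.log_nonneg (loc_ne_zero hy)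
  have h1 : ∑ y ∈ hit (PU b F) Z, Real.log |(y : ℝ)| ≤
      ∑ f ∈ F, ∑ y ∈ hit (PV b f) Z, Real.log |(y : ℝ)| := by
    calc ∑ y ∈ hit (PU b F) Z, Real.log |(y : ℝ)| ≤
        ∑ y ∈ F.biUnion (fun f => hit (PV b f) Z), Real.log |(y : ℝ)| := by
          apply sum_le_sum_of_subset_of_nonneg (hit_union b F Z)
          intro y hy _
          obtain ⟨f, -, hy⟩ := mem_biUnion.1 hy
          exact hlog y (hit_sub _ _ hy)
      _ ≤ _ := sum_biUnion_le F (fun f => hit (PV b f) Z) _ fun f _ y hy => hlog y (hit_sub _ _ hy)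
  have h2 : ∑ f ∈ F, ∑ y ∈ hit (PV b f) Z, Real.log |(y : ℝ)| ≤
      ∑ f ∈ F, ε / (F.card + 1) * ∑ y ∈ loc Z, Real.log |(y : ℝ)| :=
    sum_le_sum fun f hf => hcon f hf hZ
  rw [sum_const, nsmul_eq_mul] at h2
  have h5 : (0 : ℝ) ≤ ε * ∑ y ∈ loc Z, Real.log |(y : ℝ)| := by
    have := sum_nonneg hlog
    positivity
  have h3 : (F.card : ℝ) * (ε / (F.card + 1) * ∑ y ∈ loc Z, Real.log |(y : ℝ)|) ≤
      ε * ∑ y ∈ loc Z, Real.log |(y : ℝ)| := by
    have h4 : (F.card : ℝ) / (F.card + 1) ≤ 1 := by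
      rw [div_le_one (by positivity)]; linarith
    calc (F.card : ℝ) * (ε / (F.card + 1) * ∑ y ∈ loc Z, Real.log |(y : ℝ)|) =
        F.card / (F.card + 1) * (ε * ∑ y ∈ loc Z, Real.log |(y : ℝ)|) := by ring
      _ ≤ 1 * (ε * ∑ y ∈ loc Z, Real.log |(y : ℝ)|) := mul_le_mul_of_nonneg_right h4 h5
      _ = _ := one_mul _
  linarith

/-! ### the critical values `0` and `-1` -/

lemma path_pos {w : List Bool} {q : ℚ} (hq : 0 < q) : 0 < path w q := by
  induction w generalizing q with
  | nil => exact hq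
  | cons b w ih =>
    show 0 < path w (branch b q)
    apply ih
    unfold branch
    split_ifs <;> linarith

lemma path_zero {w : List Bool} (hw : true ∈ w) : path w 0 ≠ 0 := by
  induction w with
  | nil => simp at hw
  | cons b w ih =>
    show path w (branch b 0) ≠ 0
    cases b with
    | true =>
      apply ne_of_gt
      apply path_pos
      unfold branch
      norm_num
    | false =>
      have e : branch false 0 = 0 := by unfold branch; norm_num
      rw [e]
      apply ih
      simpa using hw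

lemma path_gt {w : List Bool} {q : ℚ} (hq : -1 < q) : -1 < path w q := by
  induction w generalizing q with
  | nil => exact hq
  | cons b w ih =>
    show -1 < path w (branch b q)
    apply ih
    unfold branch
    split_ifs <;> linarith

lemma path_neg_one {w : List Bool} (hw : false ∈ w) : path w (-1) ≠ -1 := by
  induction w with
  | nil => simp at hw
  | cons b w ih =>
    show path w (branch b (-1)) ≠ -1
    cases b with
    | false =>
      apply ne_of_gt
      apply path_gt
      unfold branch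
      norm_num
    | true =>
      have e : branch true (-1) = -1 := by unfold branch; norm_num
      rw [e]
      apply ih
      simpa using hw

end Pool.Agent.J6H87.CY
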