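import Mathlib
import Pool.Agent.TH551.SU.CS
import Pool.Agent.TH551.SU.Sui

set_option autoImplicit false

/-!
# Relations between sums of few units, up to negligible quantities
-/

open Finset Filter Topology Pool.Agent.TH932.Germs Pool.Agent.TH551.SU

namespace Pool.Agent.J6H87.CY

lemma gm_sum {ι : Type} (s : Finset ι) (a : ι → ℕ → ℚ) :
    ∑ i ∈ s, gm (a i) = gm fun t => ∑ i ∈ s, a i t := by
  classical
  induction s using Finset.induction_on with
  | empty => simp [gm_zero]
  | insert i s hi ih =>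
    rw [sum_insert hi, ih, gm_add]
    congr 1
    funext t
    rw [sum_insert hi]

lemma negl_bdd {L : ℕ → ℝ} (hL : Tendsto L atTop atTop) {m : ℕ → ℤ} {D : ℝ}
    (h : ∀ t, |(m t : ℝ)| ≤ D) : Negl L m := by
  intro ε hε
  have h1 : Tendsto (fun t => Real.exp (ε * L t)) atTop atTop :=
    Real.tendsto_exp_atTop.comp (hL.const_mul_atTop hε)
  filter_upwards [ev_of_atTop (h1.eventually_ge_atTop D)] with t ht
  exact (h t).trans ht

lemma gm_mem_finite {L : ℕ → ℝ} (hL : Tendsto L atTop atTop) {F : Finset ℚ} {a : ℕ → ℚ}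
    (h : ∀ t, a t ∈ F) : gm a ∈ KK L hL := by
  rw [mem_KK_iff]
  constructor
  · apply negl_bdd hL (D := ∑ q ∈ F, |(q.num : ℝ)|)
    intro t
    exact single_le_sum (f := fun q : ℚ => |(q.num : ℝ)|) (fun _ _ => abs_nonneg _) (h t)
  · apply negl_bdd hL (D := ∑ q ∈ F, |((q.den : ℤ) : ℝ)|)
    intro t
    exact single_le_sum (f := fun q : ℚ => |((q.den : ℤ) : ℝ)|) (fun _ _ => abs_nonneg _) (h t)

lemma gm_mem_int {L : ℕ → ℝ} (hL : Tendsto L atTop atTop) {m : ℕ → ℤ} (h : Negl L m) :
    gm (fun t => (m t : ℚ)) ∈ KK L hL := by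
  refine ⟨m, fun _ => 1, h, Negl.one hL, Eventually.of_forall fun _ => one_ne_zero, ?_⟩
  congr 1
  funext t
  simp

/-- an exact relation inside an approximate one -/
theorem germ_rel {s : ℕ} (b : Fin s → ℕ) (hb : ∀ v, (b v).Prime) (hbi : Function.Injective b)
    {L : ℕ → ℝ} (hL : Tendsto L atTop atTop) (k : ℕ) (F : Finset ℚ)
    (c c' u u' : Fin k → ℕ → ℚ) (hc : ∀ i t, c i t ∈ F) (hc' : ∀ i t, c' i t ∈ F)
    (hu : ∀ i t, IsSU b (u i t)) (hu' : ∀ i t, IsSU b (u' i t))
    (A B R : ℕ → ℤ) (hA : Negl L A) (hB : Negl L B) (hR : Negl L R)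
    (hrel : ∀ t, (A t : ℚ) * ∑ i, c' i t * u' i t = B t * ∑ i, c i t * u i t + R t)
    (y : ℕ → ℤ) (hy : ∀ t, (y t : ℚ) = ∑ i, c i t * u i t)
    (hbig : ∀ t, Real.exp (L t) ≤ |(y t : ℝ)|) :
    ∀ᶠ t in (UU : Filter ℕ), ∃ I I' : Finset (Fin k),
      (A t : ℚ) * ∑ i ∈ I', c' i t * u' i t = B t * ∑ i ∈ I, c i t * u i t ∧
      ∑ i ∈ I, c i t * u i t ≠ 0 := by
  classical
  set K := KK L hL with hK
  set g : Option (Fin k ⊕ Fin k) → GG := fun j => match j with
    | none => 1
    | some (Sum.inl i) => gm (u' i)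
    | some (Sum.inr i) => gm (u i) with hg
  have hA' := gm_mem_int hL hA
  have hB' := gm_mem_int hL hB
  have hR' := gm_mem_int hL hR
  have hcK : ∀ i, gm (c i) ∈ K := fun i => gm_mem_finite hL (hc i)
  have hcK' : ∀ i, gm (c' i) ∈ K := fun i => gm_mem_finite hL (hc' i)
  set a : Option (Fin k ⊕ Fin k) → K := fun j => match j with
    | none => ⟨- gm (fun t => (R t : ℚ)), K.neg_mem hR'⟩
    | some (Sum.inl i) => ⟨gm (fun t => (A t : ℚ)) * gm (c' i), K.mul_mem hA' (hcK' i)⟩
    | some (Sum.inr i) => ⟨- (gm (fun t => (B t : ℚ)) * gm (c i)), K.neg_mem (K.mul_mem hB' (hcK i))⟩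
    with ha
  have hGSU : ∀ j, GSU b (g j) := by
    rintro (_ | i | i)
    · refine ⟨fun _ => 1, ?_, fun _ => ⟨1, 0, Or.inl rfl, by simp⟩⟩
      show (1 : GG) = gm fun _ => 1
      rw [gm_one]
    · exact ⟨u' i, rfl, hu' i⟩
    · exact ⟨u i, rfl, hu i⟩
  have hne : ∀ j, g j ≠ 0 := by
    intro j
    obtain ⟨x, hx, hx2⟩ := hGSU j
    rw [hx, gm_ne_zero]
    refine Eventually.of_forall fun n => ?_
    obtain ⟨σ, e, hσ, he⟩ := hx2 n
    rw [he]
    refine mul_ne_zero ?_ (Finset.prod_ne_zero_iff.mpr fun v _ => zpow_ne_zero _ ?_)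
    · rcases hσ with rfl | rfl <;> norm_num
    · exact_mod_cast (hb v).ne_zero
  let st : Setoid (Option (Fin k ⊕ Fin k)) := ⟨fun i j => g i / g j ∈ K,
    ⟨fun i => by rw [div_self (hne i)]; exact K.one_mem,
     fun {i j} h => by rw [← inv_div]; exact K.inv_mem h,
     fun {i j l} h1 h2 => by
      rw [← div_mul_div_cancel₀ (hne j)]; exact K.mul_mem h1 h2⟩⟩
  have hfin : Finite (Quotient st) := inferInstance
  have hft : Fintype (Quotient st) := Fintype.ofFinite _
  let e := Fintype.equivFin (Quotient st)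
  set w : Option (Fin k ⊕ Fin k) → ℕ := fun j => (e (Quotient.mk st j)).val with hw
  have hweq : ∀ i j, w i = w j ↔ g i / g j ∈ K := by
    intro i j
    rw [hw]
    simp only
    rw [Fin.val_inj, e.injective.eq_iff]
    exact Quotient.eq
  have hsum : ∑ j ∈ (univ : Finset (Option (Fin k ⊕ Fin k))), (a j : GG) * g j = 0 := by
    rw [Fintype.sum_option, Fintype.sum_sum_type]
    have e1 : ∑ i, (a (some (Sum.inl i)) : GG) * g (some (Sum.inl i)) =
        gm fun t => (A t : ℚ) * ∑ i, c' i t * u' i t := by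
      rw [show (fun t => (A t : ℚ) * ∑ i, c' i t * u' i t) =
        fun t => ∑ i, (A t : ℚ) * c' i t * u' i t by
          funext t; rw [mul_sum]; exact sum_congr rfl fun i _ => by ring]
      rw [← gm_sum]
      rfl
    have e2 : ∑ i, (a (some (Sum.inr i)) : GG) * g (some (Sum.inr i)) =
        gm fun t => - ((B t : ℚ) * ∑ i, c i t * u i t) := by
      rw [show (fun t => - ((B t : ℚ) * ∑ i, c i t * u i t)) =
        fun t => ∑ i, - ((B t : ℚ) * c i t) * u i t by
          funext t; rw [mul_sum, ← sum_neg_distrib]; exact sum_congr rfl fun i _ => by ring]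
      rw [← gm_sum]
      rfl
    have e3 : (a none : GG) * g none = gm fun t => - (R t : ℚ) := by
      show (- gm (fun t => (R t : ℚ))) * (1 : GG) = _
      rw [mul_one]
      rfl
    rw [e1, e2, e3, gm_add, gm_add, ← gm_zero]
    congr 1
    funext t
    rw [hrel t]
    ring
  have key := CS.cs SUI.sui s b hb hbi L hL (Option (Fin k ⊕ Fin k)) univ a g w
    (fun j _ => hGSU j) (fun i _ j _ h => (hweq i j).2 h) hsum
  have hcoeff : ∀ v : ℕ, ∑ j ∈ univ.filter (fun j => w j = v), (a j : GG) * g j = 0 := by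
    intro v
    have h1 := congrArg (fun p => Polynomial.coeff p v) key
    simp only [Polynomial.finsetSum_coeff, Polynomial.coeff_C_mul, Polynomial.coeff_X_pow,
      Polynomial.coeff_zero] at h1
    refine Eq.trans ?_ h1
    rw [sum_filter]
    apply sum_congr rfl
    intro j _
    by_cases h : w j = v
    · rw [if_pos h, if_pos h.symm, mul_one]
    · rw [if_neg h, if_neg (Ne.symm h), mul_zero]
  -- the partial sums of `y`
  set Y : ℕ → GG := fun v => ∑ i ∈ univ.filter (fun i => w (some (Sum.inr i)) = v),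
    gm (c i) * gm (u i) with hY
  have hex : ∃ v, v ≠ w none ∧ Y v ≠ 0 := by
    by_contra hcon
    push Not at hcon
    have h1 : gm (fun t => (y t : ℚ)) = Y (w none) := by
      have h2 : gm (fun t => (y t : ℚ)) = ∑ i, gm (c i) * gm (u i) := by
        rw [show (fun t => (y t : ℚ)) = fun t => ∑ i, c i t * u i t from funext hy, ← gm_sum]
        rfl
      rw [h2, ← sum_fiberwise_of_maps_to (s := univ)
        (t := (univ : Finset (Fin k)).image (fun i => w (some (Sum.inr i))) ∪ {w none})
        (g := fun i => w (some (Sum.inr i)))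
        (fun i _ => mem_union_left _ (mem_image_of_mem _ (mem_univ _)))]
      rw [← sum_subset (subset_union_right (s₁ := (univ : Finset (Fin k)).image
        (fun i => w (some (Sum.inr i)))) (s₂ := {w none})), sum_singleton]
      intro v _ hv
      rw [mem_singleton] at hv
      exact hcon v hv
    have h2 : Y (w none) ∈ K := by
      apply sum_mem
      intro i hi
      rw [mem_filter] at hi
      apply K.mul_mem (hcK i)
      have h3 := (hweq _ _).1 hi.2
      have h4 : g (some (Sum.inr i)) / g none = gm (u i) := by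
        show gm (u i) / (1 : GG) = _
        rw [div_one]
      rwa [h4] at h3
    rw [← h1, mem_KK_iff] at h2
    have h3 := h2.1 (1 / 2) (by norm_num)
    have h4 : ∀ᶠ t in (UU : Filter ℕ), False := by
      filter_upwards [h3, ev_of_atTop (hL.eventually_gt_atTop 0)] with t h5 h6
      have h7 := hbig t
      have h8 : ((y t : ℚ)).num = y t := Rat.num_intCast _
      rw [h8] at h5
      have h9 : Real.exp (1 / 2 * L t) < Real.exp (L t) := Real.exp_lt_exp.2 (by linarith)
      linarith
    obtain ⟨t, ht⟩ := h4.exists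
    exact ht
  obtain ⟨v, hv, hYv⟩ := hex
  set I : Finset (Fin k) := univ.filter (fun i => w (some (Sum.inr i)) = v) with hI
  set I' : Finset (Fin k) := univ.filter (fun i => w (some (Sum.inl i)) = v) with hI'
  have hY' : Y v = gm fun t => ∑ i ∈ I, c i t * u i t := by
    rw [← gm_sum]
    rfl
  have h1 := hcoeff v
  have h2 : ∑ j ∈ univ.filter (fun j => w j = v), (a j : GG) * g j =
      gm fun t => (A t : ℚ) * ∑ i ∈ I', c' i t * u' i t - B t * ∑ i ∈ I, c i t * u i t := by
    rw [sum_filter, Fintype.sum_option, Fintype.sum_sum_type, if_neg (Ne.symm hv), zero_add,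
      ← sum_filter, ← sum_filter]
    have e1 : ∑ i ∈ I', (a (some (Sum.inl i)) : GG) * g (some (Sum.inl i)) =
        gm fun t => (A t : ℚ) * ∑ i ∈ I', c' i t * u' i t := by
      rw [show (fun t => (A t : ℚ) * ∑ i ∈ I', c' i t * u' i t) =
        fun t => ∑ i ∈ I', (A t : ℚ) * c' i t * u' i t by
          funext t; rw [mul_sum]; exact sum_congr rfl fun i _ => by ring]
      rw [← gm_sum]
      rfl
    have e2 : ∑ i ∈ I, (a (some (Sum.inr i)) : GG) * g (some (Sum.inr i)) =
        gm fun t => - ((B t : ℚ) * ∑ i ∈ I, c i t * u i t) := by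
      rw [show (fun t => - ((B t : ℚ) * ∑ i ∈ I, c i t * u i t)) =
        fun t => ∑ i ∈ I, - ((B t : ℚ) * c i t) * u i t by
          funext t; rw [mul_sum, ← sum_neg_distrib]; exact sum_congr rfl fun i _ => by ring]
      rw [← gm_sum]
      rfl
    rw [e1, e2, gm_add]
    congr 1
    funext t
    ring
  rw [h2, ← gm_zero, gm_eq] at h1
  rw [hY', gm_ne_zero] at hYv
  filter_upwards [h1, hYv] with t h3 h4
  exact ⟨I, I', by linarith, h4⟩

end Pool.Agent.J6H87.CY
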