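import Mathlib
import Pool.Agent.N302.MB.UE

set_option autoImplicit false

/-!
# Quotients of sums of few units
-/

open Finset

namespace Pool.Agent.J6H87.CY

open Pool.Agent.Helper259.AbsHt Pool.Agent.Y215.SK Pool.Agent.X4.SU

/-- two terms on different sides of a vanishing sum of units whose sides do not vanish have one of
finitely many quotients -/
theorem twosided (Γ : Subgroup Qbarˣ) (hΓ : Γ.FG) {W : Type} [Fintype W] [DecidableEq W]
    (side : W → Prop) [DecidablePred side] :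
    ∃ R : Set Qbar, R.Finite ∧ ∀ (D : Finset W) (u : W → Qbarˣ), (∀ w, u w ∈ Γ) →
      ∑ w ∈ D, (u w : Qbar) = 0 → ∑ w ∈ D.filter side, (u w : Qbar) ≠ 0 →
      ∃ w ∈ D, ∃ w' ∈ D, side w ∧ ¬ side w' ∧ (u w : Qbar) / (u w' : Qbar) ∈ R := by
  classical
  choose R hR1 hR2 using Pool.Agent.N302.MB.ratios_fg Γ hΓ
  refine ⟨⋃ r ∈ Finset.range (Fintype.card W), R r,
    Set.Finite.biUnion (Finset.finite_toSet _) fun r _ => hR1 r, ?_⟩
  intro D u hu hsum hside
  have hex : ∃ n, ∃ J : Finset W, J ⊆ D ∧ J.card = n ∧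
      ∑ w ∈ J, (u w : Qbar) = 0 ∧ ∑ w ∈ J.filter side, (u w : Qbar) ≠ 0 :=
    ⟨_, D, Subset.rfl, rfl, hsum, hside⟩
  obtain ⟨J, hJD, hJn, hJs, hJside⟩ := Nat.find_spec hex
  have hmin : ∀ J' : Finset W, J' ⊆ D → ∑ w ∈ J', (u w : Qbar) = 0 →
      ∑ w ∈ J'.filter side, (u w : Qbar) ≠ 0 → J.card ≤ J'.card := by
    intro J' h1 h2 h3
    rw [hJn]
    exact Nat.find_min' hex ⟨J', h1, rfl, h2, h3⟩
  have hnd : ∀ I : Finset W, I ⊆ J → I.Nonempty → ∑ w ∈ I, (u w : Qbar) = 0 → I = J := by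
    intro I hI hIne hIs
    by_contra hne
    have h1 : I.card < J.card := card_lt_card ((Finset.ssubset_iff_subset_ne).2 ⟨hI, hne⟩)
    have h2 : (J \ I).card < J.card := by
      rw [card_sdiff_of_subset hI]
      have := hIne.card_pos
      omega
    have h3 : ∑ w ∈ J \ I, (u w : Qbar) = 0 := by
      have := sum_sdiff (f := fun w => (u w : Qbar)) hI
      rw [hIs, add_zero, hJs] at this
      exact this
    have h4 : ∑ w ∈ (J \ I).filter side, (u w : Qbar) + ∑ w ∈ I.filter side, (u w : Qbar) =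
        ∑ w ∈ J.filter side, (u w : Qbar) := by
      rw [sum_filter, sum_filter, sum_filter]
      exact sum_sdiff hI
    by_cases h5 : ∑ w ∈ I.filter side, (u w : Qbar) = 0
    · have h6 : ∑ w ∈ (J \ I).filter side, (u w : Qbar) ≠ 0 := by
        rw [h5, add_zero] at h4
        rw [h4]
        exact hJside
      have := hmin _ (sdiff_subset.trans hJD) h3 h6
      omega
    · have := hmin _ (hI.trans hJD) hIs h5
      omega
  -- an element on each side
  obtain ⟨w, hw⟩ : (J.filter side).Nonempty := by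
    by_contra h
    rw [not_nonempty_iff_eq_empty] at h
    rw [h, sum_empty] at hJside
    exact hJside rfl
  rw [mem_filter] at hw
  obtain ⟨w', hw'J, hw'⟩ : ∃ w' ∈ J, ¬ side w' := by
    by_contra h
    push Not at h
    rw [filter_true_of_mem h] at hJside
    exact hJside hJs
  obtain ⟨r, hr⟩ : ∃ r, J.card = r + 1 := ⟨J.card - 1, by
    have : 0 < J.card := card_pos.2 ⟨w, hw.1⟩
    omega⟩
  let e : Fin (r + 1) ≃ J := (finCongr hr.symm).trans J.equivFin.symm
  have hsumE : ∀ I : Finset (Fin (r + 1)), ∑ i ∈ I, ((u (e i) : Qbarˣ) : Qbar) =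
      ∑ w ∈ I.map (e.toEmbedding.trans (Function.Embedding.subtype _)), (u w : Qbar) := by
    intro I
    rw [Finset.sum_map]
    rfl
  have hmapJ : (univ : Finset (Fin (r + 1))).map
      (e.toEmbedding.trans (Function.Embedding.subtype _)) = J := by
    ext v
    simp only [mem_map, mem_univ, true_and, Function.Embedding.trans_apply,
      Equiv.coe_toEmbedding, Function.Embedding.subtype_apply]
    constructor
    · rintro ⟨a, rfl⟩
      exact (e a).2
    · intro hv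
      exact ⟨e.symm ⟨v, hv⟩, by simp⟩
  have h2 := hR2 r (fun i => u (e i)) (fun i => hu _) (by rw [hsumE, hmapJ]; exact hJs) (by
    intro I hI h3
    rw [hsumE] at h3
    have h4 := hnd _ (by
      intro v hv
      rw [← hmapJ]
      rw [mem_map] at hv ⊢
      obtain ⟨a, _, ha⟩ := hv
      exact ⟨a, mem_univ _, ha⟩) (by simpa using hI) h3
    have h5 := congrArg Finset.card h4
    rw [card_map, hr] at h5
    rw [← Finset.card_eq_iff_eq_univ, Fintype.card_fin]
    exact h5)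
  refine ⟨w, hJD hw.1, w', hJD hw'J, hw.2, hw', ?_⟩
  simp only [Set.mem_iUnion]
  refine ⟨r, ?_, ?_⟩
  · rw [Finset.mem_range]
    have := Finset.card_le_univ J
    omega
  · have h3 := h2 (e.symm ⟨w, hw.1⟩) (e.symm ⟨w', hw'J⟩)
    simpa using h3

/-- the exponents in a relation between sums of few units -/
theorem rel_finite (Γ : Subgroup ℚˣ) (hΓ : Γ.FG) (F : Finset ℚ) (k : ℕ) :
    ∃ R : Set ℚ, R.Finite ∧ ∀ (n o : ℕ) (c c' : Fin k → ℚ) (u u' : Fin k → ℚˣ) (I I' : Finset (Fin k)),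
      (∀ i, c i ∈ F) → (∀ i, c' i ∈ F) → (∀ i, u i ∈ Γ) → (∀ i, u' i ∈ Γ) →
      (2 : ℚ) ^ n * ∑ i ∈ I', c' i * (u' i : ℚ) = 3 ^ o * ∑ i ∈ I, c i * (u i : ℚ) →
      ∑ i ∈ I, c i * (u i : ℚ) ≠ 0 → ∃ γ ∈ Γ, (3 : ℚ) ^ o / 2 ^ n * (γ : ℚ) ∈ R := by
  classical
  set φ : ℚˣ →* Qbarˣ := Units.map (algebraMap ℚ Qbar : ℚ →* Qbar) with hφ
  have hφc : ∀ q : ℚˣ, ((φ q : Qbarˣ) : Qbar) = ((q : ℚ) : Qbar) := fun q => by
    rw [hφ]; simp
  set mk : ℚ → ℚˣ := fun q => if h : q = 0 then 1 else Units.mk0 q h with hmk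
  have hmkc : ∀ q : ℚ, q ≠ 0 → ((mk q : ℚˣ) : ℚ) = q := by
    intro q hq
    simp only [hmk]
    rw [dif_neg hq, Units.val_mk0]
  set E : Finset ℚˣ := F.image mk ∪ {mk 2, mk 3, mk (-1)} with hE
  set G : Subgroup ℚˣ := Γ ⊔ Subgroup.closure (E : Set ℚˣ) with hG
  have hGfg : (G.map φ).FG := by
    obtain ⟨S, hS⟩ := hΓ.sup (⟨E, rfl⟩ : (Subgroup.closure (E : Set ℚˣ)).FG)
    refine ⟨S.image φ, ?_⟩
    rw [hG, ← hS, MonoidHom.map_closure]
    simp
  have hEG : ∀ q ∈ E, q ∈ G := fun q hq =>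
    Subgroup.mem_sup_right (Subgroup.subset_closure (by exact_mod_cast hq))
  have hΓG : ∀ q ∈ Γ, q ∈ G := fun q hq => Subgroup.mem_sup_left hq
  obtain ⟨R, hR1, hR2⟩ := twosided (G.map φ) hGfg (W := Fin k ⊕ Fin k) (fun w => w.isRight = true)
  refine ⟨{x : ℚ | ∃ r ∈ R, ∃ c ∈ F, ∃ c' ∈ F, (x : Qbar) = -(r * ((c' : Qbar) / (c : Qbar)))}, ?_, ?_⟩
  · have h1 : (⋃ c ∈ F, ⋃ c' ∈ F, (fun r : Qbar => -(r * ((c' : Qbar) / (c : Qbar)))) '' R).Finite := by
      apply Set.Finite.biUnion F.finite_toSet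
      intro c _
      apply Set.Finite.biUnion F.finite_toSet
      intro c' _
      exact hR1.image _
    have hinj : Function.Injective (fun x : ℚ => (x : Qbar)) := Rat.cast_injective
    refine (h1.preimage hinj.injOn).subset ?_
    rintro x ⟨r, hr, c, hc, c', hc', hx⟩
    simp only [Set.mem_preimage, Set.mem_iUnion]
    exact ⟨c, hc, c', hc', r, hr, hx.symm⟩
  · intro n o c c' u u' I I' hc hc' hu hu' hrel hne
    set U : Fin k ⊕ Fin k → ℚˣ := fun w => match w with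
      | Sum.inl i => mk (-1) * (mk 2) ^ n * mk (c' i) * u' i
      | Sum.inr i => (mk 3) ^ o * mk (c i) * u i with hU
    have hm1 : ((mk (-1) : ℚˣ) : ℚ) = -1 := hmkc _ (by norm_num)
    have hm2 : ((mk 2 : ℚˣ) : ℚ) = 2 := hmkc _ (by norm_num)
    have hm3 : ((mk 3 : ℚˣ) : ℚ) = 3 := hmkc _ (by norm_num)
    have hUG : ∀ w, U w ∈ G := by
      have g1 : mk (-1) ∈ G := hEG _ (by rw [hE]; simp)
      have g2 : mk 2 ∈ G := hEG _ (by rw [hE]; simp)
      have g3 : mk 3 ∈ G := hEG _ (by rw [hE]; simp)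
      have g4 : ∀ q ∈ F, mk q ∈ G := fun q hq =>
        hEG _ (by rw [hE]; exact mem_union_left _ (mem_image_of_mem _ hq))
      rintro (i | i)
      · exact mul_mem (mul_mem (mul_mem g1 (pow_mem g2 _)) (g4 _ (hc' i))) (hΓG _ (hu' i))
      · exact mul_mem (mul_mem (pow_mem g3 _) (g4 _ (hc i))) (hΓG _ (hu i))
    set D : Finset (Fin k ⊕ Fin k) := (I'.filter fun i => c' i ≠ 0).disjSum (I.filter fun i => c i ≠ 0)
      with hD
    have hl : ∑ i ∈ I'.filter (fun i => c' i ≠ 0), ((U (Sum.inl i) : ℚˣ) : ℚ) =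
        - (2 ^ n * ∑ i ∈ I', c' i * (u' i : ℚ)) := by
      rw [← sum_filter_of_ne (s := I') (p := fun i => c' i ≠ 0) (f := fun i => c' i * (u' i : ℚ))
        (fun i _ h h0 => h (by rw [h0, zero_mul])), mul_sum, ← sum_neg_distrib]
      apply sum_congr rfl
      intro i hi
      rw [mem_filter] at hi
      simp only [hU]
      rw [Units.val_mul, Units.val_mul, Units.val_mul, Units.val_pow_eq_pow_val, hm1, hm2, hmkc _ hi.2]
      ring
    have hr : ∑ i ∈ I.filter (fun i => c i ≠ 0), ((U (Sum.inr i) : ℚˣ) : ℚ) =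
        3 ^ o * ∑ i ∈ I, c i * (u i : ℚ) := by
      rw [← sum_filter_of_ne (s := I) (p := fun i => c i ≠ 0) (f := fun i => c i * (u i : ℚ))
        (fun i _ h h0 => h (by rw [h0, zero_mul])), mul_sum]
      apply sum_congr rfl
      intro i hi
      rw [mem_filter] at hi
      simp only [hU]
      rw [Units.val_mul, Units.val_mul, Units.val_pow_eq_pow_val, hm3, hmkc _ hi.2]
      ring
    have hcast : ∀ s : Finset (Fin k ⊕ Fin k), ∑ w ∈ s, ((φ (U w) : Qbarˣ) : Qbar) =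
        ((∑ w ∈ s, ((U w : ℚˣ) : ℚ) : ℚ) : Qbar) := by
      intro s
      rw [Rat.cast_sum]
      exact sum_congr rfl fun w _ => hφc _
    have hDsum : ∑ w ∈ D, ((φ (U w) : Qbarˣ) : Qbar) = 0 := by
      rw [hcast, hD, sum_disjSum, hl, hr, hrel]
      simp
    have hDside : ∑ w ∈ D.filter (fun w => w.isRight = true), ((φ (U w) : Qbarˣ) : Qbar) ≠ 0 := by
      rw [hcast]
      have e1 : ∑ w ∈ D.filter (fun w => w.isRight = true), ((U w : ℚˣ) : ℚ) =
          3 ^ o * ∑ i ∈ I, c i * (u i : ℚ) := by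
        rw [sum_filter, hD, sum_disjSum, ← hr]
        simp
      rw [e1]
      have : (3 : ℚ) ^ o * ∑ i ∈ I, c i * (u i : ℚ) ≠ 0 := mul_ne_zero (by positivity) hne
      exact_mod_cast this
    obtain ⟨w, hw, w', hw', h1, h2, h3⟩ := hR2 D (fun w => φ (U w))
      (fun w => Subgroup.mem_map_of_mem _ (hUG w)) hDsum hDside
    rcases w with i | i
    · simp at h1
    rcases w' with i' | i'
    swap
    · simp at h2
    rw [hD, inr_mem_disjSum, mem_filter] at hw
    rw [hD, inl_mem_disjSum, mem_filter] at hw'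
    refine ⟨u i * (u' i')⁻¹, mul_mem (hu i) (inv_mem (hu' i')), _, h3, c i, hc i, c' i', hc' i', ?_⟩
    rw [hφc, hφc]
    simp only [hU]
    rw [Units.val_mul, Units.val_mul, Units.val_mul, Units.val_mul, Units.val_mul, Units.val_mul,
      Units.val_pow_eq_pow_val, Units.val_pow_eq_pow_val, hm1, hm2, hm3, hmkc _ hw.2, hmkc _ hw'.2,
      Units.val_inv_eq_inv_val]
    have hci : (c i : Qbar) ≠ 0 := by exact_mod_cast hw.2
    have hci' : (c' i' : Qbar) ≠ 0 := by exact_mod_cast hw'.2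
    have hu0 : ((u' i' : ℚ) : Qbar) ≠ 0 := by
      have := (u' i').ne_zero
      exact_mod_cast this
    push_cast
    field_simp

end Pool.Agent.J6H87.CY
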