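import Mathlib
import Pool.Agent.J6H87.CY.UA
import Pool.Agent.J6H87.CY.UB
import Pool.Agent.J6H87.CY.TT
import Pool.Agent.J6H87.CY.GC

set_option autoImplicit false

/-!
# Sums of few units repel each other along the trajectories of the 3x+1 map
-/

open Finset Filter Topology Pool.Agent.TH932.Germs Pool.Agent.TH551.SU

namespace Pool.Agent.J6H87.CY

open Pool.Agent.H319R2 (T od)

section units

variable {s : ℕ} {b : Fin s → ℕ} (hb : ∀ v, (b v).Prime)

include hb

lemma isSU_mul {x y : ℚ} (hx : IsSU b x) (hy : IsSU b y) : IsSU b (x * y) := by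
  obtain ⟨σ, e, hσ, rfl⟩ := hx
  obtain ⟨σ', e', hσ', rfl⟩ := hy
  refine ⟨σ * σ', e + e', ?_, ?_⟩
  · rcases hσ with rfl | rfl <;> rcases hσ' with rfl | rfl <;> simp
  · have h : ∏ v, (b v : ℚ) ^ ((e + e') v) = (∏ v, (b v : ℚ) ^ (e v)) * ∏ v, (b v : ℚ) ^ (e' v) := by
      rw [← prod_mul_distrib]
      apply prod_congr rfl
      intro v _
      rw [Pi.add_apply, zpow_add₀]
      exact_mod_cast (hb v).ne_zero
    rw [h]
    push_cast
    ring

omit hb in
lemma isSU_inv {x : ℚ} (hx : IsSU b x) : IsSU b x⁻¹ := by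
  obtain ⟨σ, e, hσ, rfl⟩ := hx
  refine ⟨σ, -e, hσ, ?_⟩
  rw [mul_inv, ← prod_inv_distrib]
  congr 1
  · rcases hσ with rfl | rfl <;> norm_num
  · apply prod_congr rfl
    intro v _
    rw [Pi.neg_apply, zpow_neg]

lemma isSU_nat {n : ℕ} (hn : n ≠ 0) (h : ∀ p ∈ n.primeFactors, ∃ v, b v = p) : IsSU b (n : ℚ) := by
  induction n using Nat.recOnMul with
  | zero => exact absurd rfl hn
  | one => exact ⟨1, 0, Or.inl rfl, by simp⟩
  | prime p hp =>
    obtain ⟨v, hv⟩ := h p (by rw [hp.primeFactors]; exact mem_singleton_self _)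
    refine ⟨1, Pi.single v 1, Or.inl rfl, ?_⟩
    rw [prod_eq_single v]
    · rw [Pi.single_eq_same, hv]
      simp
    · intro v' _ hv'
      rw [Pi.single_eq_of_ne hv', zpow_zero]
    · intro h0
      exact absurd (mem_univ _) h0
  | mul m n ihm ihn =>
    have hm0 : m ≠ 0 := fun h0 => hn (by rw [h0, zero_mul])
    have hn0 : n ≠ 0 := fun h0 => hn (by rw [h0, mul_zero])
    rw [Nat.primeFactors_mul hm0 hn0] at h
    push_cast
    exact isSU_mul hb (ihm hm0 fun p hp => h p (mem_union_left _ hp))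
      (ihn hn0 fun p hp => h p (mem_union_right _ hp))

omit hb in
/-- a finitely generated group of rationals consists of `S`-units -/
lemma exists_primes (Γ : Subgroup ℚˣ) (hΓ : Γ.FG) :
    ∃ (s : ℕ) (b : Fin s → ℕ), (∀ v, (b v).Prime) ∧ Function.Injective b ∧
      ∀ g ∈ Γ, IsSU b (g : ℚ) := by
  classical
  obtain ⟨G, hG⟩ := hΓ
  set S : Finset ℕ := G.biUnion fun g => (g : ℚ).num.natAbs.primeFactors ∪ (g : ℚ).den.primeFactors
    with hS
  have hSp : ∀ p ∈ S, p.Prime := by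
    intro p hp
    rw [hS, mem_biUnion] at hp
    obtain ⟨g, -, hg⟩ := hp
    rcases mem_union.1 hg with h | h <;> exact Nat.prime_of_mem_primeFactors h
  set b : Fin S.card → ℕ := fun v => S.orderEmbOfFin rfl v with hb
  have hbp : ∀ v, (b v).Prime := fun v => hSp _ (S.orderEmbOfFin_mem rfl v)
  have hbS : ∀ p ∈ S, ∃ v, b v = p := by
    intro p hp
    have : p ∈ Set.range (S.orderEmbOfFin rfl) := by rw [S.range_orderEmbOfFin]; exact hp
    obtain ⟨v, hv⟩ := this
    exact ⟨v, hv⟩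
  refine ⟨S.card, b, hbp, (S.orderEmbOfFin rfl).injective, ?_⟩
  intro g hg
  rw [← hG] at hg
  induction hg using Subgroup.closure_induction with
  | mem g hg =>
    have hg' : g ∈ G := by exact_mod_cast hg
    have hnum : (g : ℚ).num ≠ 0 := Rat.num_ne_zero.2 g.ne_zero
    have h1 : IsSU b (((g : ℚ).num.natAbs : ℕ) : ℚ) := isSU_nat hbp (Int.natAbs_ne_zero.2 hnum)
      fun p hp => hbS p (by rw [hS, mem_biUnion]; exact ⟨g, hg', mem_union_left _ hp⟩)
    have h2 : IsSU b (((g : ℚ).den : ℕ) : ℚ) := isSU_nat hbp (g : ℚ).den_ne_zero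
      fun p hp => hbS p (by rw [hS, mem_biUnion]; exact ⟨g, hg', mem_union_right _ hp⟩)
    have h3 : IsSU b (((g : ℚ).num : ℤ) : ℚ) := by
      rcases Int.natAbs_eq (g : ℚ).num with h | h
      · have e := congrArg (Int.cast : ℤ → ℚ) h
        rw [Int.cast_natCast] at e
        rw [e]
        exact h1
      · have h4 : IsSU b (-1 : ℚ) := ⟨-1, 0, Or.inr rfl, by simp⟩
        have h5 := isSU_mul hbp h4 h1
        rw [neg_one_mul] at h5
        have e := congrArg (Int.cast : ℤ → ℚ) h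
        rw [Int.cast_neg, Int.cast_natCast] at e
        rw [e]
        exact h5
    rw [← Rat.num_div_den (g : ℚ), div_eq_mul_inv]
    exact isSU_mul hbp h3 (isSU_inv h2)
  | one => exact ⟨1, 0, Or.inl rfl, by simp⟩
  | mul x y _ _ hx hy =>
    rw [Units.val_mul]
    exact isSU_mul hbp hx hy
  | inv x _ hx =>
    rw [Units.val_inv_eq_inv_val]
    exact isSU_inv hx

end units

/-- sums of at most `k` units of `Γ` with coefficients in `F` -/
def US (Γ : Subgroup ℚˣ) (F : Finset ℚ) (k : ℕ) (x : ℤ) : Prop :=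
  ∃ (c : Fin k → ℚ) (u : Fin k → ℚˣ), (∀ i, c i ∈ F) ∧ (∀ i, u i ∈ Γ) ∧
    (x : ℚ) = ∑ i, c i * (u i : ℚ)

lemma negl_win {L : ℕ → ℝ} (hL : Tendsto L atTop atTop) {N : ℕ → ℕ}
    (hN : ∀ t : ℕ, (t : ℝ) * (N t + 1) ≤ L t) {m : ℕ → ℤ} (h : ∀ t, |m t| ≤ 3 ^ N t) : Negl L m := by
  intro ε hε
  obtain ⟨t0, ht0⟩ := exists_nat_ge (2 / ε)
  filter_upwards [ev_of_atTop (eventually_ge_atTop t0), ev_of_atTop (eventually_ge_atTop 1),
    L_nonneg hL] with t h1 h2 h3
  have h4 : |(m t : ℝ)| ≤ (3 : ℝ) ^ N t := by exact_mod_cast h t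
  refine h4.trans ?_
  have h5 : (3 : ℝ) ^ N t = Real.exp (N t * Real.log 3) := by
    rw [mul_comm, Real.exp_mul, Real.exp_log (by norm_num), Real.rpow_natCast]
  rw [h5, Real.exp_le_exp]
  have hl3 : Real.log 3 < 2 := by
    have := Pool.Agent.Y780.Cz.log3_lt
    have := Real.log_two_lt_d9
    linarith
  have h6 : (2 : ℝ) ≤ t * ε := by
    have h7 : 2 / ε ≤ t := ht0.trans (by exact_mod_cast h1)
    rwa [div_le_iff₀ hε] at h7
  have h8 := hN t
  have hN0 : (0 : ℝ) ≤ N t := Nat.cast_nonneg _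
  have h9 : (N t : ℝ) * Real.log 3 ≤ N t * 2 := mul_le_mul_of_nonneg_left hl3.le hN0
  have h10 : (N t : ℝ) * 2 ≤ N t * (t * ε) := mul_le_mul_of_nonneg_left h6 hN0
  have h11 : ε * ((t : ℝ) * N t) ≤ ε * L t := by
    apply mul_le_mul_of_nonneg_left _ hε.le
    have ht : (0 : ℝ) ≤ t := Nat.cast_nonneg _
    linarith
  calc (N t : ℝ) * Real.log 3 ≤ N t * (t * ε) := h9.trans h10
    _ = ε * ((t : ℝ) * N t) := by ring
    _ ≤ _ := h11

lemma od_pos_of_odd {z : ℤ} {n l : ℕ} (hl : l < n) (h : T^[l] z % 2 = 1) : 1 ≤ od n z := by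
  have h1 : od (l + 1) z = od l z + 1 := Pool.Agent.H319R2.od_succ_odd h
  have h2 := od_add (l + 1) (n - (l + 1)) z
  rw [show l + 1 + (n - (l + 1)) = n by omega] at h2
  omega

lemma od_lt_of_even {z : ℤ} {n l : ℕ} (hl : l < n) (h : T^[l] z % 2 = 0) : od n z < n := by
  have h1 : od (l + 1) z = od l z := Pool.Agent.H319R2.od_succ_even h
  have h2 := od_add (l + 1) (n - (l + 1)) z
  rw [show l + 1 + (n - (l + 1)) = n by omega] at h2
  have h3 := od_le' l z
  have h4 := od_le' (n - (l + 1)) (T^[l + 1] z)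
  omega

/-- **sums of few units repel each other** -/
theorem rep_units (Γ : Subgroup ℚˣ) (hΓ : Γ.FG)
    (h23 : ∀ n o : ℕ, 1 ≤ o → o < n → ∀ g ∈ Γ, (g : ℚ) * 3 ^ o ≠ 2 ^ n) (F : Finset ℚ) (k : ℕ) :
    ∃ (K : ℕ) (C : ℝ), 0 ≤ C ∧ Rep (US Γ F k) K C := by
  classical
  obtain ⟨R, hRf, hR⟩ := rel_finite Γ hΓ F k
  obtain ⟨s, b, hb, hbi, hbΓ⟩ := exists_primes Γ hΓ
  set K : ℕ := hRf.toFinset.card + 1 with hK
  by_contra hcon
  push Not at hcon
  have hno : ∀ t : ℕ, ∃ (x : ℤ) (N : ℕ) (a : ℕ → ℕ),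
      (∀ i ≤ K, a i ≤ N ∧ US Γ F k (T^[a i] x) ∧
        ((t : ℝ) + 1) * (N + 1) ≤ Real.log |((T^[a i] x : ℤ) : ℝ)|) ∧
      (∀ i < K, Mixed x (a i) (a (i + 1))) := by
    intro t
    have h := hcon K ((t : ℝ) + 1) (by positivity)
    unfold Rep at h
    push Not at h
    obtain ⟨x, N, a, h1, h2, -⟩ := h
    exact ⟨x, N, a, h1, h2⟩
  choose x N a h1 h2 using hno
  choose c u hc hu hsum using fun (t : ℕ) (i : Fin (K + 1)) => (h1 t i (by omega)).2.1
  -- the sizes
  set y : ℕ → ℤ := fun t => T^[a t 0] (x t) with hy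
  set L : ℕ → ℝ := fun t => Real.log |(y t : ℝ)| with hL
  have hLN' : ∀ t : ℕ, ((t : ℝ) + 1) * (N t + 1) ≤ L t := fun t => (h1 t 0 (by omega)).2.2
  have hLN : ∀ t : ℕ, (t : ℝ) * (N t + 1) ≤ L t := by
    intro t
    refine le_trans ?_ (hLN' t)
    have hN0 : (0 : ℝ) ≤ N t := Nat.cast_nonneg _
    nlinarith
  have hLt : ∀ t : ℕ, (t : ℝ) + 1 ≤ L t := by
    intro t
    refine le_trans ?_ (hLN' t)
    have ht : (0 : ℝ) ≤ t := Nat.cast_nonneg _
    have hN0 : (0 : ℝ) ≤ N t := Nat.cast_nonneg _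
    nlinarith
  have hLt' : ∀ t : ℕ, (t : ℝ) ≤ L t := fun t => by
    have := hLt t
    linarith
  have hLtop : Tendsto L atTop atTop := tendsto_atTop_mono hLt' tendsto_natCast_atTop_atTop
  -- the first term
  have hle : ∀ t i, i ≤ K → a t 0 + i ≤ a t i := by
    intro t i hi
    have := mark_add_le (h2 t) (Nat.zero_le i) hi
    simpa using this
  have hmark : ∀ t i, i ≤ K → T^[a t i - a t 0] (y t) = T^[a t i] (x t) := by
    intro t i hi
    have := hle t i hi
    rw [hy]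
    simp only
    rw [← Function.iterate_add_apply]
    congr 1
    omega
  have hrel : ∀ i : Fin (K + 1), ∀ᶠ t in (UU : Filter ℕ), ∃ I I' : Finset (Fin k),
      (((2 : ℤ) ^ (a t i - a t 0) : ℤ) : ℚ) * ∑ l ∈ I', c t i l * (u t i l : ℚ) =
        (((3 : ℤ) ^ (od (a t i - a t 0) (y t)) : ℤ) : ℚ) * ∑ l ∈ I, c t 0 l * (u t 0 l : ℚ) ∧
      ∑ l ∈ I, c t 0 l * (u t 0 l : ℚ) ≠ 0 := by
    intro i
    have hi : (i : ℕ) ≤ K := by omega
    have hn : ∀ t, a t i - a t 0 ≤ N t := fun t => by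
      have := (h1 t i hi).1
      omega
    have h3 : ∀ t, (1 : ℤ) ≤ 3 ^ (a t i - a t 0) ∧
        (3 : ℤ) ^ (a t i - a t 0) ≤ 3 ^ N t := fun t =>
      ⟨one_le_pow₀ (by norm_num), pow_le_pow_right₀ (by norm_num) (hn t)⟩
    refine germ_rel b hb hbi hLtop k F (fun l t => c t 0 l) (fun l t => c t i l)
      (fun l t => (u t 0 l : ℚ)) (fun l t => (u t i l : ℚ)) (fun l t => hc t 0 l)
      (fun l t => hc t i l) (fun l t => hbΓ _ (hu t 0 l)) (fun l t => hbΓ _ (hu t i l))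
      (fun t => (2 : ℤ) ^ (a t i - a t 0)) (fun t => (3 : ℤ) ^ (od (a t i - a t 0) (y t)))
      (fun t => (Rr (y t) (a t i - a t 0) : ℤ))
      (negl_win hLtop hLN fun t => ?_) (negl_win hLtop hLN fun t => ?_)
      (negl_win hLtop hLN fun t => ?_) (fun t => ?_) y (fun t => ?_) (fun t => ?_)
    · rw [abs_of_nonneg (by positivity)]
      calc (2 : ℤ) ^ (a t i - a t 0) ≤ 3 ^ (a t i - a t 0) := pow_le_pow_left₀ (by norm_num) (by norm_num) _
        _ ≤ 3 ^ N t := (h3 t).2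
    · rw [abs_of_nonneg (by positivity)]
      exact pow_le_pow_right₀ (by norm_num) ((od_le' _ _).trans (hn t))
    · rw [abs_of_nonneg (by positivity)]
      have := Rr_lt (y t) (a t i - a t 0)
      have h4 : ((Rr (y t) (a t i - a t 0) : ℕ) : ℤ) < 3 ^ (a t i - a t 0) := by exact_mod_cast this
      linarith [(h3 t).2]
    · have h4 := iter_formula (y t) (a t i - a t 0)
      rw [hmark t i hi, hsum t i] at h4
      have h5 : ((y t : ℤ) : ℚ) = ∑ l, c t 0 l * (u t 0 l : ℚ) := hsum t 0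
      rw [h5] at h4
      push_cast
      exact h4
    · exact hsum t 0
    · have hne : (y t : ℝ) ≠ 0 := by
        intro h0
        have h4 := hLt t
        simp only [hL] at h4
        rw [h0, abs_zero, Real.log_zero] at h4
        have : (0 : ℝ) ≤ t := Nat.cast_nonneg _
        linarith
      simp only [hL]
      rw [Real.exp_log (abs_pos.2 hne)]
  -- one index where all the relations hold
  obtain ⟨t, ht⟩ := (Filter.eventually_all.2 hrel).exists
  have hγ : ∀ i : Fin (K + 1), ∃ γ ∈ Γ, (3 : ℚ) ^ (od (a t i - a t 0) (y t)) /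
      2 ^ (a t i - a t 0) * (γ : ℚ) ∈ R := by
    intro i
    obtain ⟨I, I', h3, h4⟩ := ht i
    refine hR (a t i - a t 0) (od (a t i - a t 0) (y t)) (c t 0) (c t i) (u t 0) (u t i) I I'
      (hc t 0) (hc t i) (hu t 0) (hu t i) ?_ h4
    push_cast at h3
    exact h3
  choose γ hγΓ hγR using hγ
  -- two of them have the same value
  have hcard : hRf.toFinset.card < (univ : Finset (Fin (K + 1))).card := by
    rw [card_univ, Fintype.card_fin, hK]
    omega
  obtain ⟨i, -, j, -, hij, he⟩ := exists_ne_map_eq_of_card_lt_of_maps_to hcard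
    (f := fun i : Fin (K + 1) => (3 : ℚ) ^ (od (a t i - a t 0) (y t)) /
      2 ^ (a t i - a t 0) * (γ i : ℚ)) (fun i _ => by
        rw [Finset.mem_coe, Set.Finite.mem_toFinset]
        exact hγR i)
  wlog hlt : i < j generalizing i j
  · exact this j i hij.symm he.symm (lt_of_le_of_ne (not_lt.1 hlt) hij.symm)
  have hiK : (i : ℕ) ≤ K := by omega
  have hjK : (j : ℕ) ≤ K := by omega
  have hmx : Mixed (x t) (a t i) (a t j) := mark_mixed (h2 t) hlt hjK
  have hai := hle t i hiK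
  have haj := hle t j hjK
  have hltij := hmx.lt
  set n : ℕ := a t j - a t i with hn
  set o : ℕ := od n (T^[a t i] (x t)) with ho
  have hnj : a t j - a t 0 = (a t i - a t 0) + n := by omega
  have hoj : od (a t j - a t 0) (y t) = od (a t i - a t 0) (y t) + o := by
    rw [hnj, od_add, hmark t i hiK]
  obtain ⟨⟨l, hl1, hl2, hl3⟩, ⟨l', hl1', hl2', hl3'⟩⟩ := hmx
  have hit : ∀ l, a t i ≤ l → T^[l - a t i] (T^[a t i] (x t)) = T^[l] (x t) := by
    intro l hl
    rw [← Function.iterate_add_apply]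
    congr 1
    omega
  have ho1 : 1 ≤ o := od_pos_of_odd (l := l' - a t i) (by omega) (by rw [hit l' hl1']; exact hl3')
  have ho2 : o < n := od_lt_of_even (l := l - a t i) (by omega) (by rw [hit l hl1]; exact hl3)
  refine h23 n o ho1 ho2 (γ j / γ i) (Γ.div_mem (hγΓ j) (hγΓ i)) ?_
  rw [hoj, hnj, pow_add, pow_add] at he
  have h20 : (2 : ℚ) ^ (a t i - a t 0) ≠ 0 := by positivity
  have h2n : (2 : ℚ) ^ n ≠ 0 := by positivity
  have h30 : (3 : ℚ) ^ (od (a t i - a t 0) (y t)) ≠ 0 := by positivity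
  have hg0 : (γ i : ℚ) ≠ 0 := (γ i).ne_zero
  rw [Units.val_div_eq_div_val]
  field_simp at he ⊢
  linarith

end Pool.Agent.J6H87.CY
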